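import Pool.Agent.X283.DA.CountPack

/-!
# Masses of measures in short intervals at real powers and at denominators of approximations
-/

set_option autoImplicit false

open Finset Filter Topology MeasureTheory

namespace Pool.Agent.X283.DA

/-- The mass of the window `|t - w| ≤ w ^ θ`, `t ≥ 1`, is at most `w ^ β`. -/
def Light (μ : Measure ℝ) (θ β w : ℝ) : Prop := μ {t : ℝ | 1 ≤ t ∧ |t - w| ≤ w ^ θ} ≤ ENNReal.ofReal (w ^ β)

/-- technical form at natural numbers -/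
def LightN (μ : Measure ℝ) (θ β : ℝ) (m : ℕ) : Prop :=
  μ {t : ℝ | 1 ≤ t ∧ |t - m| ≤ 2 * (m : ℝ) ^ θ + 2} ≤ ENNReal.ofReal (((m : ℝ) / 2) ^ β)

theorem light_of_lightN {μ : Measure ℝ} {θ β : ℝ} (hθ : 0 ≤ θ) (hθ1 : θ ≤ 1)
    (hβ : 0 ≤ β) {m : ℕ} (hm : 1 ≤ m) (h : LightN μ θ β m) {w : ℝ} (h1 : (m : ℝ) ≤ w)
    (h2 : w ≤ m + 1) : Light μ θ β w := by
  have hm1 : (1 : ℝ) ≤ m := by exact_mod_cast hm
  have hw : w ^ θ ≤ 2 * (m : ℝ) ^ θ := by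
    calc w ^ θ ≤ (2 * (m : ℝ)) ^ θ := Real.rpow_le_rpow (by linarith) (by linarith) hθ
      _ = 2 ^ θ * (m : ℝ) ^ θ := Real.mul_rpow (by norm_num) (by linarith)
      _ ≤ 2 * (m : ℝ) ^ θ := by
          apply mul_le_mul_of_nonneg_right _ (by positivity)
          calc (2 : ℝ) ^ θ ≤ 2 ^ (1 : ℝ) := Real.rpow_le_rpow_of_exponent_le (by norm_num) hθ1
            _ = 2 := Real.rpow_one 2
  have hsub : {t : ℝ | 1 ≤ t ∧ |t - w| ≤ w ^ θ} ⊆ {t : ℝ | 1 ≤ t ∧ |t - m| ≤ 2 * (m : ℝ) ^ θ + 2} := by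
    rintro t ⟨ht, htw⟩
    refine ⟨ht, ?_⟩
    have h3 : |t - m| ≤ |t - w| + |w - m| := abs_sub_le _ _ _
    have h4 : |w - m| ≤ 1 := abs_le.2 ⟨by linarith, by linarith⟩
    linarith
  refine (measure_mono hsub).trans (h.trans (ENNReal.ofReal_le_ofReal ?_))
  exact Real.rpow_le_rpow (by linarith) (by linarith) hβ

theorem sparse_lightN (μ : Measure ℝ) {s θ β : ℝ} (hθ : 0 ≤ θ)
    (hθ1 : θ ≤ 1) (hβ : 0 ≤ β) (hβs : β ≤ s)
    (hμ : ∀ ε : ℝ, 0 < ε → ∃ C : ℝ, ∀ X : ℝ, 1 ≤ X → μ (Set.Icc 1 X) ≤ ENNReal.ofReal (C * X ^ (s + ε))) :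
    Sparse {m : ℕ | ¬ LightN μ θ β m} (s - β + θ) := by
  classical
  refine sparse_of_dyadic (by linarith) fun ε hε => ?_
  obtain ⟨C, hC⟩ := hμ ε hε
  refine ⟨13 * |C| * 8 ^ (s + ε) * 2 ^ β, 1, fun K hK => ?_⟩
  have hK1 : (1 : ℝ) ≤ K := by exact_mod_cast hK
  have hK0 : (0 : ℝ) < K := by linarith
  have hT := hC (8 * K) (by linarith)
  set R : ℝ := 2 * (2 * (K : ℝ)) ^ θ + 2 with hR
  have hKθ1 : 1 ≤ (K : ℝ) ^ θ := Real.one_le_rpow hK1 hθ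
  have h2Kθ : (2 * (K : ℝ)) ^ θ ≤ 2 * (K : ℝ) ^ θ := by
    rw [Real.mul_rpow (by norm_num) hK0.le]
    apply mul_le_mul_of_nonneg_right _ (by positivity)
    calc (2 : ℝ) ^ θ ≤ 2 ^ (1 : ℝ) := Real.rpow_le_rpow_of_exponent_le (by norm_num) hθ1
      _ = 2 := Real.rpow_one 2
  have h2Kle : (2 * (K : ℝ)) ^ θ ≤ 2 * K := by
    calc (2 * (K : ℝ)) ^ θ ≤ (2 * (K : ℝ)) ^ (1 : ℝ) :=
          Real.rpow_le_rpow_of_exponent_le (by linarith) hθ1
      _ = 2 * K := Real.rpow_one _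
  have hR0 : 0 ≤ R := by positivity
  have hfinM : {n : ℕ | n ∈ {m : ℕ | ¬ LightN μ θ β m} ∧ K < n ∧ n ≤ 2 * K}.Finite :=
    (Set.finite_Iic (2 * K)).subset fun n hn => hn.2.2
  set M := hfinM.toFinset with hM
  set A : ℕ → Set ℝ := fun m => {t : ℝ | 1 ≤ t ∧ |t - m| ≤ R} with hA
  have hAm : ∀ m, MeasurableSet (A m) := by
    intro m
    have h1 : MeasurableSet {t : ℝ | 1 ≤ t} := measurableSet_Ici
    have h2 : MeasurableSet {t : ℝ | |t - m| ≤ R} :=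
      (isClosed_le (by fun_prop) continuous_const).measurableSet
    exact h1.inter h2
  have hbig : ∀ m ∈ M, ENNReal.ofReal (((K : ℝ) / 2) ^ β) ≤ μ (A m) := by
    intro m hm
    rw [hM, Set.Finite.mem_toFinset] at hm
    obtain ⟨h1, h2, h3⟩ := hm
    have h1' : ENNReal.ofReal (((m : ℝ) / 2) ^ β) < μ {t : ℝ | 1 ≤ t ∧ |t - m| ≤ 2 * (m : ℝ) ^ θ + 2} := by
      by_contra hcon
      exact h1 (not_lt.1 hcon)
    have h2' : (K : ℝ) ≤ m := by exact_mod_cast h2.le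
    have h3' : (m : ℝ) ≤ 2 * K := by exact_mod_cast h3
    have h4 : (m : ℝ) ^ θ ≤ (2 * (K : ℝ)) ^ θ := Real.rpow_le_rpow (Nat.cast_nonneg _) h3' hθ
    refine (ENNReal.ofReal_le_ofReal (Real.rpow_le_rpow (by positivity) (by linarith) hβ)).trans
      (h1'.le.trans (measure_mono ?_))
    rintro t ⟨ht, htm⟩
    exact ⟨ht, by rw [hR]; linarith⟩
  have hsum : ∑ m ∈ M, μ (A m) ≤ ENNReal.ofReal (2 * R + 1) * μ (Set.Icc 1 (8 * (K : ℝ))) := by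
    have e1 : ∑ m ∈ M, μ (A m) = ∫⁻ t, ∑ m ∈ M, (A m).indicator 1 t ∂μ := by
      rw [lintegral_finsetSum]
      · refine Finset.sum_congr rfl fun m _ => ?_
        rw [lintegral_indicator_one (hAm m)]
      · intro m _
        exact measurable_one.indicator (hAm m)
    rw [e1]
    have e2 : ENNReal.ofReal (2 * R + 1) * μ (Set.Icc 1 (8 * (K : ℝ))) =
        ∫⁻ t, (Set.Icc 1 (8 * (K : ℝ))).indicator (fun _ => ENNReal.ofReal (2 * R + 1)) t ∂μ := by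
      rw [lintegral_indicator_const measurableSet_Icc]
    rw [e2]
    refine lintegral_mono fun t => ?_
    by_cases ht : t ∈ Set.Icc 1 (8 * (K : ℝ))
    · rw [Set.indicator_of_mem ht]
      have h1 : ∑ m ∈ M, (A m).indicator (1 : ℝ → ENNReal) t =
          ((M.filter (fun m : ℕ => t ∈ A m)).card : ENNReal) := by
        rw [Finset.card_filter]
        push_cast
        refine Finset.sum_congr rfl fun m _ => ?_
        by_cases h : t ∈ A m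
        · simp [h]
        · simp [h]
      rw [h1]
      have h2 : ((M.filter (fun m : ℕ => t ∈ A m)).card : ℝ) ≤ 2 * R + 1 := by
        refine le_trans ?_ (card_near_le M t R hR0)
        have : M.filter (fun m : ℕ => t ∈ A m) ⊆ M.filter (fun m : ℕ => |t - m| ≤ R) := by
          intro m hm
          rw [Finset.mem_filter] at hm ⊢
          exact ⟨hm.1, hm.2.2⟩
        exact_mod_cast Finset.card_le_card this
      rw [← ENNReal.ofReal_natCast]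
      exact ENNReal.ofReal_le_ofReal h2
    · rw [Set.indicator_of_notMem ht]
      refine le_of_eq (Finset.sum_eq_zero fun m hm => ?_)
      rw [Set.indicator_of_notMem]
      rintro ⟨h1, h2⟩
      apply ht
      rw [hM, Set.Finite.mem_toFinset] at hm
      have h3' : (m : ℝ) ≤ 2 * K := by exact_mod_cast hm.2.2
      refine ⟨h1, ?_⟩
      have h5 := (abs_le.1 h2).2
      rw [hR] at h5
      linarith
  have h7 : ENNReal.ofReal ((M.card : ℝ) * ((K : ℝ) / 2) ^ β) ≤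
      ENNReal.ofReal ((13 * (K : ℝ) ^ θ) * (|C| * (8 * K) ^ (s + ε))) := by
    calc ENNReal.ofReal ((M.card : ℝ) * ((K : ℝ) / 2) ^ β)
        = ∑ _m ∈ M, ENNReal.ofReal (((K : ℝ) / 2) ^ β) := by
          rw [Finset.sum_const, nsmul_eq_mul, ENNReal.ofReal_mul (by positivity), ENNReal.ofReal_natCast]
      _ ≤ ∑ m ∈ M, μ (A m) := Finset.sum_le_sum hbig
      _ ≤ ENNReal.ofReal (2 * R + 1) * μ (Set.Icc 1 (8 * (K : ℝ))) := hsum
      _ ≤ ENNReal.ofReal (13 * (K : ℝ) ^ θ) * ENNReal.ofReal (|C| * (8 * K) ^ (s + ε)) := by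
          gcongr
          · rw [hR]
            linarith
          · exact hT.trans (ENNReal.ofReal_le_ofReal
              (mul_le_mul_of_nonneg_right (le_abs_self C) (by positivity)))
      _ = _ := by rw [← ENNReal.ofReal_mul (by positivity)]
  have h8 : (M.card : ℝ) * ((K : ℝ) / 2) ^ β ≤ (|C| * (8 * K) ^ (s + ε)) * (13 * (K : ℝ) ^ θ) := by
    rw [mul_comm (|C| * (8 * (K : ℝ)) ^ (s + ε))]
    exact (ENNReal.ofReal_le_ofReal_iff (by positivity)).1 h7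
  have hKβ : 0 < ((K : ℝ) / 2) ^ β := by positivity
  have h9 : (M.card : ℝ) ≤ (|C| * (8 * K) ^ (s + ε)) * (13 * (K : ℝ) ^ θ) / ((K : ℝ) / 2) ^ β := by
    rw [le_div_iff₀ hKβ]
    exact h8
  have hcard : ({n : ℕ | n ∈ {m : ℕ | ¬ LightN μ θ β m} ∧ K < n ∧ n ≤ 2 * K}.ncard : ℝ) = M.card := by
    rw [Set.ncard_eq_toFinset_card _ hfinM]
  rw [hcard]
  refine h9.trans (le_of_eq ?_)
  have e1 : (8 * (K : ℝ)) ^ (s + ε) = 8 ^ (s + ε) * (K : ℝ) ^ (s + ε) := Real.mul_rpow (by norm_num) hK0.le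
  have e2 : ((K : ℝ) / 2) ^ β = (K : ℝ) ^ β / 2 ^ β := Real.div_rpow hK0.le (by norm_num) β
  have e3 : (K : ℝ) ^ (s - β + θ + ε) = (K : ℝ) ^ (s + ε) * (K : ℝ) ^ θ / (K : ℝ) ^ β := by
    rw [← Real.rpow_add hK0, ← Real.rpow_sub hK0]
    congr 1
    ring
  rw [e1, e2, e3]
  field_simp

/-- For the measures `μ i` and `κ_n / log n → ∞`: for all `t > 1` outside one set of Hausdorff dimension at most `σ`
and all `i` the mass of the window of radius `w ^ θ` at `w = t ^ κ_n` is at most `w ^ β`, for all large `n`. -/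
def MassAtPowers {ι : Type*} (μ : ι → Measure ℝ) (θ β σ : ℝ) : Prop :=
  ∀ κ : ℕ → ℝ, Tendsto (fun n : ℕ => κ n / Real.log n) atTop atTop →
    ∃ E : Set ℝ, dimH E ≤ ENNReal.ofReal σ ∧ ∀ t : ℝ, 1 < t → t ∉ E → ∀ i : ι, ∃ n₀ : ℕ, ∀ n : ℕ,
      n₀ ≤ n → Light (μ i) θ β (t ^ κ n)

/-- The same for `w = n ^ t`: for `a > 0` and all `t ≥ a` outside one set of Hausdorff dimension at most
`σ + 1 / a`. -/
def MassAtExponents {ι : Type*} (μ : ι → Measure ℝ) (θ β σ : ℝ) : Prop :=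
  ∀ a : ℝ, 0 < a → ∃ E : Set ℝ, dimH E ≤ ENNReal.ofReal (σ + 1 / a) ∧ ∀ t : ℝ, a ≤ t → t ∉ E →
    ∀ i : ι, ∃ n₀ : ℕ, ∀ n : ℕ, n₀ ≤ n → Light (μ i) θ β ((n : ℝ) ^ t)

/-- The same for `w = q`, for all large `q` such that `q x_j` is within `q ^ (-η_j)` of `y_j` modulo `1` for
all `j`, for almost all `x ∈ ℝ ^ d`, if `η_j ≥ 0` and `η_1 + ... + η_d > σ`. -/
def MassAtDenominators {ι : Type*} (μ : ι → Measure ℝ) (θ β σ : ℝ) : Prop :=
  ∀ (d : ℕ) (η y : Fin d → ℝ), (∀ j, 0 ≤ η j) → σ < ∑ j, η j → ∀ᵐ x : Fin d → ℝ, ∀ i : ι,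
    ∃ q₀ : ℕ, ∀ q : ℕ, q₀ ≤ q →
      (∀ j, ∃ p : ℤ, |(q : ℝ) * x j - p - y j| ≤ (q : ℝ) ^ (-η j)) → Light (μ i) θ β q

/-- **Theorem.** -/
theorem mass_pack {ι : Type*} [Countable ι] (μ : ι → Measure ℝ)
    {s θ β : ℝ} (hθ : 0 ≤ θ) (hθ1 : θ ≤ 1) (hβ : 0 ≤ β) (hβs : β ≤ s)
    (hμ : ∀ i, ∀ ε : ℝ, 0 < ε → ∃ C : ℝ, ∀ X : ℝ, 1 ≤ X →
      μ i (Set.Icc 1 X) ≤ ENNReal.ofReal (C * X ^ (s + ε))) :
    MassAtPowers μ θ β (s - β + θ) ∧ MassAtExponents μ θ β (s - β + θ) ∧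
      MassAtDenominators μ θ β (s - β + θ) := by
  obtain ⟨h1, h2, h3, -⟩ := pack_family (fun i => LightN (μ i) θ β) (by linarith : 0 ≤ s - β + θ)
    fun i => sparse_lightN (μ i) hθ hθ1 hβ hβs (hμ i)
  refine ⟨fun κ hκ => ?_, fun a ha => ?_, fun d η y hη hsum => ?_⟩
  · obtain ⟨E, hE1, hE2⟩ := (h1 κ 0 hκ le_rfl one_pos).1
    rw [sub_zero, div_one] at hE1
    refine ⟨E, hE1, fun t ht htE i => ?_⟩
    obtain ⟨n₀, hn₀⟩ := near_floor (tendsto_pow_of_slope hκ ht) (hE2 t ht htE i)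
    refine ⟨n₀, fun n hn => ?_⟩
    obtain ⟨m, hm1, hm2, hm3, hm⟩ := hn₀ n hn
    exact light_of_lightN hθ hθ1 hβ hm1 hm hm2 hm3
  · obtain ⟨E, hE1, hE2⟩ := (h2 0 le_rfl one_pos).1 a ha
    rw [sub_zero, div_one] at hE1
    refine ⟨E, hE1, fun t ht htE i => ?_⟩
    have ht0 : 0 < t := ha.trans_le ht
    obtain ⟨n₀, hn₀⟩ := near_floor ((tendsto_rpow_atTop ht0).comp tendsto_natCast_atTop_atTop)
      (hE2 t ht htE i)
    refine ⟨n₀, fun n hn => ?_⟩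
    obtain ⟨m, hm1, hm2, hm3, hm⟩ := hn₀ n hn
    exact light_of_lightN hθ hθ1 hβ hm1 hm hm2 hm3
  · filter_upwards [h3 d η y hη hsum] with x hx i
    obtain ⟨q₀, hq₀⟩ := hx i
    refine ⟨max q₀ 1, fun q hq hcl => ?_⟩
    exact light_of_lightN hθ hθ1 hβ ((le_max_right _ _).trans hq) (hq₀ q ((le_max_left _ _).trans hq) hcl)
      le_rfl (by linarith)

end Pool.Agent.X283.DA
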