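import Pool.Agent.X283.DA.Meas

/-!
# A property with few exceptions holds near real powers and for the denominators of approximations

The definitions of the statements, and the theorem which gives all of them.
-/

set_option autoImplicit false

open Finset Filter Topology MeasureTheory

namespace Pool.Agent.X283.DA

open scoped ENNReal NNReal

/-- For all large `n`, all natural numbers `A` with `|A - w_n| ≤ w_n ^ θ` are good. -/
def AllNear (Good : ℕ → Prop) (w : ℕ → ℝ) (θ : ℝ) : Prop :=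
  ∃ n₀ : ℕ, ∀ n : ℕ, n₀ ≤ n → ∀ A : ℕ, |(A : ℝ) - w n| ≤ (w n) ^ θ → Good A

/-- All large natural numbers `q` such that `q x_i` is within `q ^ (-θ_i)` of `y_i` modulo `1`, for all
`i`, are good. -/
def AllDenominators (Good : ℕ → Prop) {d : ℕ} (x y θ : Fin d → ℝ) : Prop :=
  ∃ q₀ : ℕ, ∀ q : ℕ, q₀ ≤ q →
    (∀ i, ∃ p : ℤ, |(q : ℝ) * x i - p - y i| ≤ (q : ℝ) ^ (-θ i)) → Good q

/-- Good near the powers `t ^ κ_n`, where `κ_n / log n` tends to infinity: for `0 ≤ θ < 1` and all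
`t > 1` outside a set of Hausdorff dimension at most `s / (1 - θ)`, and for almost all `t > 1` if
`s + θ < 1`. -/
def GoodAtPowers (Good : ℕ → Prop) (s : ℝ) : Prop :=
  ∀ (κ : ℕ → ℝ) (θ : ℝ), Tendsto (fun n : ℕ => κ n / Real.log n) atTop atTop → 0 ≤ θ → θ < 1 →
    (∃ E : Set ℝ, dimH E ≤ ENNReal.ofReal (s / (1 - θ)) ∧
      ∀ t : ℝ, 1 < t → t ∉ E → AllNear Good (fun n => t ^ κ n) θ) ∧
    (s + θ < 1 → ∀ᵐ t : ℝ, 1 < t → AllNear Good (fun n => t ^ κ n) θ)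

/-- Good near the powers `n ^ t`: for `0 ≤ θ < 1`, `a > 0` and all `t ≥ a` outside a set of Hausdorff
dimension at most `(s + 1 / a) / (1 - θ)`, and for almost all `t > 1 / (1 - s - θ)` if
`s + θ < 1`. -/
def GoodAtExponents (Good : ℕ → Prop) (s : ℝ) : Prop :=
  ∀ θ : ℝ, 0 ≤ θ → θ < 1 →
    (∀ a : ℝ, 0 < a → ∃ E : Set ℝ, dimH E ≤ ENNReal.ofReal ((s + 1 / a) / (1 - θ)) ∧
      ∀ t : ℝ, a ≤ t → t ∉ E → AllNear Good (fun n => (n : ℝ) ^ t) θ) ∧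
    (s + θ < 1 → ∀ᵐ t : ℝ, 1 / (1 - s - θ) < t → AllNear Good (fun n => (n : ℝ) ^ t) θ)

/-- Good denominators: for all `y, θ ∈ ℝ ^ d`, `θ_i ≥ 0`, `θ_1 + ... + θ_d > s`, and almost all
`x ∈ ℝ ^ d` all large `q` such that `q x_i` is within `q ^ (-θ_i)` of `y_i` modulo `1` are good. -/
def GoodAtDenominators (Good : ℕ → Prop) (s : ℝ) : Prop :=
  ∀ (d : ℕ) (θ y : Fin d → ℝ), (∀ i, 0 ≤ θ i) → s < ∑ i, θ i →
    ∀ᵐ x : Fin d → ℝ, AllDenominators Good x y θ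

/-- Good denominators, one real number: for `θ ≥ 0`, all `y` and all real `x` outside a set of
Hausdorff dimension at most `(1 + s) / (1 + θ)` all large `q` such that `q x` is within `q ^ (-θ)` of
`y` modulo `1` are good. -/
def GoodAtApproximations (Good : ℕ → Prop) (s : ℝ) : Prop :=
  ∀ θ y : ℝ, 0 ≤ θ → ∃ E : Set ℝ, dimH E ≤ ENNReal.ofReal ((1 + s) / (1 + θ)) ∧
    ∀ x : ℝ, x ∉ E → ∃ q₀ : ℕ, ∀ q : ℕ, q₀ ≤ q →
      (∃ p : ℤ, |(q : ℝ) * x - p - y| ≤ (q : ℝ) ^ (-θ)) → Good q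

/-- **Theorem.** -/
theorem pack (Good : ℕ → Prop) {s : ℝ} (hs : 0 ≤ s) (hP : Sparse {A | ¬ Good A} s) :
    GoodAtPowers Good s ∧ GoodAtExponents Good s ∧ GoodAtDenominators Good s ∧
      GoodAtApproximations Good s := by
  have conv : ∀ (w : ℕ → ℝ) (θ : ℝ), (∃ n₀ : ℕ, ∀ n : ℕ, n₀ ≤ n → ∀ e ∈ {A | ¬ Good A},
      (w n) ^ θ < |(e : ℝ) - w n|) → AllNear Good w θ := by
    rintro w θ ⟨n₀, h⟩
    refine ⟨n₀, fun n hn A hA => ?_⟩
    by_contra hcon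
    exact absurd hA (not_le.2 (h n hn A hcon))
  refine ⟨fun κ θ hκ hθ hθ1 => ⟨?_, fun h => ?_⟩, fun θ hθ hθ1 => ⟨fun a ha => ?_, fun h => ?_⟩,
    fun d θ y hθ hsum => ?_, fun θ y hθ => ?_⟩
  · obtain ⟨E, h1, h2⟩ := Pool.Agent.X16.NW.windows_loc {A | ¬ Good A} (fun A : ℕ => (A : ℝ))
      (s := s) (τ := 0) (θ := θ) le_rfl hs hθ hθ1 hP _ _ (Pool.Agent.X16.NW.loc_rpow κ hκ)
    rw [add_zero] at h1
    exact ⟨E, h1, fun t ht htE => conv _ _ (h2 t ht htE)⟩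
  · filter_upwards [Pool.Agent.X16.NW.ae_rpow {A | ¬ Good A} (fun A : ℕ => (A : ℝ)) hs hP κ hκ θ hθ h]
      with t ht ht1
    exact conv _ _ (ht ht1)
  · obtain ⟨E, h1, h2⟩ := Pool.Agent.X16.NW.windows_loc {A | ¬ Good A} (fun A : ℕ => (A : ℝ))
      (s := s) (τ := 1 / a) (θ := θ) (one_div_pos.2 ha).le hs hθ hθ1 hP _ _
      (Pool.Agent.X16.NW.loc_npow a ha)
    exact ⟨E, h1, fun t ht htE => conv _ _ (h2 t ht htE)⟩
  · filter_upwards [Pool.Agent.X16.NW.ae_npow {A | ¬ Good A} (fun A : ℕ => (A : ℝ)) hs hP θ hθ h]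
      with t ht ht1
    exact conv _ _ (ht ht1)
  · filter_upwards [ae_simultaneous hs hP d θ y hθ hsum] with x hx
    obtain ⟨q₀, h⟩ := hx
    refine ⟨q₀, fun q hq hcl => ?_⟩
    by_contra hcon
    exact h q hq hcl hcon
  · refine ⟨_, dim_denominators hs hP θ y hθ, fun x hx => ?_⟩
    simp only [Set.mem_setOf_eq, not_forall, not_exists, not_and] at hx
    obtain ⟨q₀, h⟩ := hx
    refine ⟨q₀, fun q hq ⟨p, hp⟩ => ?_⟩
    by_contra hcon
    exact h q hq hcon p hp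

/-- real and natural bounds `X` -/
theorem sparse_of_nat {P : Set ℕ} {s : ℝ} (hs : 0 ≤ s)
    (hP : ∀ ε : ℝ, 0 < ε → ∃ C : ℝ, ∀ X : ℕ, 1 ≤ X →
      ({t : ℕ | t ∈ P ∧ t ≤ X}.ncard : ℝ) ≤ C * (X : ℝ) ^ (s + ε)) : Sparse P s :=
  fun ε hε => Pool.Agent.X16.NW.count_nat P hs hP ε hε

end Pool.Agent.X283.DA
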