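import Pool.Agent.X283.DA.CountPack

/-!
# Counting functions in short intervals at real powers and at denominators, with exponents depending on the family
-/

set_option autoImplicit false

open Finset Filter Topology MeasureTheory

namespace Pool.Agent.X283.DA

theorem Sparse.mono {P : Set ℕ} {s s' : ℝ} (hP : Sparse P s) (h : s ≤ s') : Sparse P s' := by
  intro ε hε
  obtain ⟨C, hC⟩ := hP ε hε
  refine ⟨|C|, fun X hX => ⟨(hC X hX).1, (hC X hX).2.trans ?_⟩⟩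
  have h1 : X ^ (s + ε) ≤ X ^ (s' + ε) := Real.rpow_le_rpow_of_exponent_le hX (by linarith)
  exact (mul_le_mul_of_nonneg_right (le_abs_self C) (by positivity)).trans
    (mul_le_mul_of_nonneg_left h1 (abs_nonneg C))

/-- For `κ_n / log n → ∞` and all `t > 1` outside one set of Hausdorff dimension at most `σ`, for all `i` and all
large `n`, at most `w ^ (β i)` elements `P` of `S i` have `|H i P - w| ≤ w ^ θ`, `w = t ^ κ_n`. -/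
def VarAtPowers {ι : Type*} {Pt : ι → Type*} (S : ∀ i, Set (Pt i)) (H : ∀ i, Pt i → ℝ) (θ : ℝ) (β : ι → ℝ)
    (σ : ℝ) : Prop :=
  ∀ κ : ℕ → ℝ, Tendsto (fun n : ℕ => κ n / Real.log n) atTop atTop →
    ∃ E : Set ℝ, dimH E ≤ ENNReal.ofReal σ ∧ ∀ t : ℝ, 1 < t → t ∉ E → ∀ i : ι, ∃ n₀ : ℕ, ∀ n : ℕ,
      n₀ ≤ n → Few (S i) (H i) θ (β i) (t ^ κ n)

/-- The same for `w = n ^ t`: for `a > 0` and all `t ≥ a` outside one set of Hausdorff dimension at most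
`σ + 1 / a`. -/
def VarAtExponents {ι : Type*} {Pt : ι → Type*} (S : ∀ i, Set (Pt i)) (H : ∀ i, Pt i → ℝ)
    (θ : ℝ) (β : ι → ℝ) (σ : ℝ) : Prop :=
  ∀ a : ℝ, 0 < a → ∃ E : Set ℝ, dimH E ≤ ENNReal.ofReal (σ + 1 / a) ∧ ∀ t : ℝ, a ≤ t → t ∉ E →
    ∀ i : ι, ∃ n₀ : ℕ, ∀ n : ℕ, n₀ ≤ n → Few (S i) (H i) θ (β i) ((n : ℝ) ^ t)

/-- The same for `w = q`, for all large `q` such that `q x_j` is within `q ^ (-η_j)` of `y_j` modulo `1` for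
all `j`, for almost all `x ∈ ℝ ^ d`, if `η_j ≥ 0` and `η_1 + ... + η_d > σ`. -/
def VarAtDenominators {ι : Type*} {Pt : ι → Type*} (S : ∀ i, Set (Pt i)) (H : ∀ i, Pt i → ℝ)
    (θ : ℝ) (β : ι → ℝ) (σ : ℝ) : Prop :=
  ∀ (d : ℕ) (η y : Fin d → ℝ), (∀ j, 0 ≤ η j) → σ < ∑ j, η j → ∀ᵐ x : Fin d → ℝ, ∀ i : ι,
    ∃ q₀ : ℕ, ∀ q : ℕ, q₀ ≤ q →
      (∀ j, ∃ p : ℤ, |(q : ℝ) * x j - p - y j| ≤ (q : ℝ) ^ (-η j)) → Few (S i) (H i) θ (β i) q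

/-- **Theorem.** -/
theorem count_var {ι : Type*} [Countable ι] {Pt : ι → Type*} (S : ∀ i, Set (Pt i)) (H : ∀ i, Pt i → ℝ)
    {s β : ι → ℝ} {θ σ : ℝ} (hs : ∀ i, 0 ≤ s i) (hθ : 0 ≤ θ) (hθ1 : θ ≤ 1) (hβ : ∀ i, 0 ≤ β i)
    (hβs : ∀ i, β i ≤ s i) (hσ0 : 0 ≤ σ) (hσ : ∀ i, s i - β i + θ ≤ σ)
    (hcnt : ∀ i, ∀ ε : ℝ, 0 < ε → ∃ C : ℝ, ∀ X : ℝ, 1 ≤ X → {P | P ∈ S i ∧ H i P ≤ X}.Finite ∧
      ({P | P ∈ S i ∧ H i P ≤ X}.ncard : ℝ) ≤ C * X ^ (s i + ε)) :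
    VarAtPowers S H θ β σ ∧ VarAtExponents S H θ β σ ∧ VarAtDenominators S H θ β σ := by
  obtain ⟨h1, h2, h3, -⟩ := pack_family (fun i => FewN (S i) (H i) θ (β i)) hσ0
    fun i => (sparse_fewN (S i) (H i) (hs i) hθ hθ1 (hβ i) (hβs i) (hcnt i)).mono (hσ i)
  refine ⟨fun κ hκ => ?_, fun a ha => ?_, fun d η y hη hsum => ?_⟩
  · obtain ⟨E, hE1, hE2⟩ := (h1 κ 0 hκ le_rfl one_pos).1
    rw [sub_zero, div_one] at hE1
    refine ⟨E, hE1, fun t ht htE i => ?_⟩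
    obtain ⟨n₀, hn₀⟩ := near_floor (tendsto_pow_of_slope hκ ht) (hE2 t ht htE i)
    refine ⟨n₀, fun n hn => ?_⟩
    obtain ⟨m, hm1, hm2, hm3, hm⟩ := hn₀ n hn
    exact few_of_fewN hθ hθ1 (hβ i) hm1 hm hm2 hm3
  · obtain ⟨E, hE1, hE2⟩ := (h2 0 le_rfl one_pos).1 a ha
    rw [sub_zero, div_one] at hE1
    refine ⟨E, hE1, fun t ht htE i => ?_⟩
    have ht0 : 0 < t := ha.trans_le ht
    obtain ⟨n₀, hn₀⟩ := near_floor ((tendsto_rpow_atTop ht0).comp tendsto_natCast_atTop_atTop)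
      (hE2 t ht htE i)
    refine ⟨n₀, fun n hn => ?_⟩
    obtain ⟨m, hm1, hm2, hm3, hm⟩ := hn₀ n hn
    exact few_of_fewN hθ hθ1 (hβ i) hm1 hm hm2 hm3
  · filter_upwards [h3 d η y hη hsum] with x hx i
    obtain ⟨q₀, hq₀⟩ := hx i
    refine ⟨max q₀ 1, fun q hq hcl => ?_⟩
    exact few_of_fewN hθ hθ1 (hβ i) ((le_max_right _ _).trans hq) (hq₀ q ((le_max_left _ _).trans hq) hcl)
      le_rfl (by linarith)

end Pool.Agent.X283.DA
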