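import Pool.Agent.X283.DA.PackFam

/-!
# Counting functions in short intervals at real powers and at denominators of approximations
-/

set_option autoImplicit false

open Finset Filter Topology MeasureTheory

namespace Pool.Agent.X283.DA

/-- The set of the `P` in `S` with `|H P - w| ≤ w ^ θ` is finite and has at most `w ^ β` elements. -/
def Few {Pt : Type*} (S : Set Pt) (H : Pt → ℝ) (θ β w : ℝ) : Prop :=
  {P | P ∈ S ∧ |H P - w| ≤ w ^ θ}.Finite ∧ ({P | P ∈ S ∧ |H P - w| ≤ w ^ θ}.ncard : ℝ) ≤ w ^ β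

/-- technical form at natural numbers -/
def FewN {Pt : Type*} (S : Set Pt) (H : Pt → ℝ) (θ β : ℝ) (m : ℕ) : Prop :=
  {P | P ∈ S ∧ |H P - m| ≤ 2 * (m : ℝ) ^ θ + 2}.Finite ∧
    ({P | P ∈ S ∧ |H P - m| ≤ 2 * (m : ℝ) ^ θ + 2}.ncard : ℝ) ≤ ((m : ℝ) / 2) ^ β

theorem few_of_fewN {Pt : Type*} {S : Set Pt} {H : Pt → ℝ} {θ β : ℝ} (hθ : 0 ≤ θ) (hθ1 : θ ≤ 1)
    (hβ : 0 ≤ β) {m : ℕ} (hm : 1 ≤ m) (h : FewN S H θ β m) {w : ℝ} (h1 : (m : ℝ) ≤ w)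
    (h2 : w ≤ m + 1) : Few S H θ β w := by
  have hm1 : (1 : ℝ) ≤ m := by exact_mod_cast hm
  have hw : w ^ θ ≤ 2 * (m : ℝ) ^ θ := by
    calc w ^ θ ≤ (2 * (m : ℝ)) ^ θ := Real.rpow_le_rpow (by linarith) (by linarith) hθ
      _ = 2 ^ θ * (m : ℝ) ^ θ := Real.mul_rpow (by norm_num) (by linarith)
      _ ≤ 2 * (m : ℝ) ^ θ := by
          apply mul_le_mul_of_nonneg_right _ (by positivity)
          calc (2 : ℝ) ^ θ ≤ 2 ^ (1 : ℝ) := Real.rpow_le_rpow_of_exponent_le (by norm_num) hθ1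
            _ = 2 := Real.rpow_one 2
  have hsub : {P | P ∈ S ∧ |H P - w| ≤ w ^ θ} ⊆ {P | P ∈ S ∧ |H P - m| ≤ 2 * (m : ℝ) ^ θ + 2} := by
    rintro P ⟨hP, hPw⟩
    refine ⟨hP, ?_⟩
    have h3 : |H P - m| ≤ |H P - w| + |w - m| := abs_sub_le _ _ _
    have h4 : |w - m| ≤ 1 := abs_le.2 ⟨by linarith, by linarith⟩
    linarith
  refine ⟨h.1.subset hsub, ?_⟩
  calc ({P | P ∈ S ∧ |H P - w| ≤ w ^ θ}.ncard : ℝ)
      ≤ ({P | P ∈ S ∧ |H P - m| ≤ 2 * (m : ℝ) ^ θ + 2}.ncard : ℝ) := by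
        exact_mod_cast Set.ncard_le_ncard hsub h.1
    _ ≤ ((m : ℝ) / 2) ^ β := h.2
    _ ≤ w ^ β := Real.rpow_le_rpow (by linarith) (by linarith) hβ

theorem card_near_le (M : Finset ℕ) (z R : ℝ) (hR : 0 ≤ R) :
    ((M.filter (fun m : ℕ => |z - m| ≤ R)).card : ℝ) ≤ 2 * R + 1 := by
  classical
  have hsub : (M.filter (fun m : ℕ => |z - m| ≤ R)).image (fun m : ℕ => (m : ℤ)) ⊆
      Finset.Icc ⌈z - R⌉ ⌊z + R⌋ := by
    intro k hk
    rw [Finset.mem_image] at hk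
    obtain ⟨m, hm, rfl⟩ := hk
    rw [Finset.mem_filter] at hm
    obtain ⟨h1, h2⟩ := abs_le.1 hm.2
    rw [Finset.mem_Icc]
    constructor
    · rw [Int.ceil_le]
      push_cast
      linarith
    · rw [Int.le_floor]
      push_cast
      linarith
  have h1 := Finset.card_le_card hsub
  rw [Finset.card_image_of_injective _ Nat.cast_injective, Int.card_Icc] at h1
  have h2 : (((⌊z + R⌋ + 1 - ⌈z - R⌉).toNat : ℕ) : ℝ) ≤ 2 * R + 1 := by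
    rcases le_or_gt 0 (⌊z + R⌋ + 1 - ⌈z - R⌉) with h | h
    · have h3 : (((⌊z + R⌋ + 1 - ⌈z - R⌉).toNat : ℕ) : ℝ) = ((⌊z + R⌋ + 1 - ⌈z - R⌉ : ℤ) : ℝ) := by
        have := Int.toNat_of_nonneg h
        exact_mod_cast this
      rw [h3]
      push_cast
      have := Int.floor_le (z + R)
      have := Int.le_ceil (z - R)
      linarith
    · rw [Int.toNat_of_nonpos h.le]
      push_cast
      linarith
  exact (by exact_mod_cast h1 : ((M.filter (fun m : ℕ => |z - m| ≤ R)).card : ℝ) ≤ _).trans h2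

theorem sparse_fewN {Pt : Type*} (S : Set Pt) (H : Pt → ℝ) {s θ β : ℝ} (hs : 0 ≤ s) (hθ : 0 ≤ θ)
    (hθ1 : θ ≤ 1) (hβ : 0 ≤ β) (hβs : β ≤ s)
    (hcnt : ∀ ε : ℝ, 0 < ε → ∃ C : ℝ, ∀ X : ℝ, 1 ≤ X → {P | P ∈ S ∧ H P ≤ X}.Finite ∧
      ({P | P ∈ S ∧ H P ≤ X}.ncard : ℝ) ≤ C * X ^ (s + ε)) :
    Sparse {m : ℕ | ¬ FewN S H θ β m} (s - β + θ) := by
  classical
  refine sparse_of_dyadic (by linarith) fun ε hε => ?_
  obtain ⟨C, hC⟩ := hcnt ε hε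
  refine ⟨13 * |C| * 8 ^ (s + ε) * 2 ^ β, 1, fun K hK => ?_⟩
  have hK1 : (1 : ℝ) ≤ K := by exact_mod_cast hK
  have hK0 : (0 : ℝ) < K := by linarith
  obtain ⟨hfin, hT⟩ := hC (8 * K) (by linarith)
  set T := hfin.toFinset with hTdef
  set R : ℝ := 2 * (2 * (K : ℝ)) ^ θ + 2 with hR
  have hKθ1 : 1 ≤ (K : ℝ) ^ θ := Real.one_le_rpow hK1 hθ
  have h2Kθ : (2 * (K : ℝ)) ^ θ ≤ 2 * (K : ℝ) ^ θ := by
    rw [Real.mul_rpow (by norm_num) hK0.le]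
    apply mul_le_mul_of_nonneg_right _ (by positivity)
    calc (2 : ℝ) ^ θ ≤ 2 ^ (1 : ℝ) := Real.rpow_le_rpow_of_exponent_le (by norm_num) hθ1
      _ = 2 := Real.rpow_one 2
  have h2Kle : (2 * (K : ℝ)) ^ θ ≤ 2 * K := by
    calc (2 * (K : ℝ)) ^ θ ≤ (2 * (K : ℝ)) ^ (1 : ℝ) :=
          Real.rpow_le_rpow_of_exponent_le (by linarith) hθ1
      _ = 2 * K := Real.rpow_one _
  have hR0 : 0 ≤ R := by positivity
  have hfinM : {n : ℕ | n ∈ {m : ℕ | ¬ FewN S H θ β m} ∧ K < n ∧ n ≤ 2 * K}.Finite :=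
    (Set.finite_Iic (2 * K)).subset fun n hn => hn.2.2
  set M := hfinM.toFinset with hM
  have hsubset : ∀ m : ℕ, K < m → m ≤ 2 * K →
      {P | P ∈ S ∧ |H P - m| ≤ 2 * (m : ℝ) ^ θ + 2} ⊆ ((T.filter (fun P => |H P - m| ≤ R) : Finset Pt) : Set Pt) := by
    rintro m hm1 hm2 P ⟨hP, hPm⟩
    have hm2' : (m : ℝ) ≤ 2 * K := by exact_mod_cast hm2
    have h3 : (m : ℝ) ^ θ ≤ (2 * (K : ℝ)) ^ θ := Real.rpow_le_rpow (Nat.cast_nonneg _) hm2' hθ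
    have h4 : |H P - m| ≤ R := by rw [hR]; linarith
    rw [Finset.mem_coe, Finset.mem_filter, hTdef, Set.Finite.mem_toFinset]
    refine ⟨⟨hP, ?_⟩, h4⟩
    have h5 := (abs_le.1 h4).2
    rw [hR] at h5
    linarith
  have hbig : ∀ m ∈ M, ((K : ℝ) / 2) ^ β ≤ ((T.filter (fun P => |H P - m| ≤ R)).card : ℝ) := by
    intro m hm
    rw [hM, Set.Finite.mem_toFinset] at hm
    obtain ⟨h1, h2, h3⟩ := hm
    have h1' : ¬ FewN S H θ β m := h1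
    have hsub := hsubset m h2 h3
    have hf : {P | P ∈ S ∧ |H P - m| ≤ 2 * (m : ℝ) ^ θ + 2}.Finite := (Finset.finite_toSet _).subset hsub
    have h4 : ((m : ℝ) / 2) ^ β < ({P | P ∈ S ∧ |H P - m| ≤ 2 * (m : ℝ) ^ θ + 2}.ncard : ℝ) := by
      by_contra hcon
      exact h1' ⟨hf, not_lt.1 hcon⟩
    have h5 : ({P | P ∈ S ∧ |H P - m| ≤ 2 * (m : ℝ) ^ θ + 2}.ncard : ℝ) ≤
        ((T.filter (fun P => |H P - m| ≤ R)).card : ℝ) := by
      rw [← Set.ncard_coe_finset]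
      exact_mod_cast Set.ncard_le_ncard hsub (Finset.finite_toSet _)
    have h6 : (K : ℝ) ≤ m := by exact_mod_cast h2.le
    calc ((K : ℝ) / 2) ^ β ≤ ((m : ℝ) / 2) ^ β := Real.rpow_le_rpow (by positivity) (by linarith) hβ
      _ ≤ _ := h4.le.trans h5
  have hdouble : ∑ m ∈ M, ((T.filter (fun P => |H P - m| ≤ R)).card : ℝ) =
      ∑ P ∈ T, ((M.filter (fun m : ℕ => |H P - m| ≤ R)).card : ℝ) := by
    have := Finset.sum_card_bipartiteAbove_eq_sum_card_bipartiteBelow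
      (s := M) (t := T) (fun (m : ℕ) (P : Pt) => |H P - m| ≤ R)
    unfold Finset.bipartiteAbove Finset.bipartiteBelow at this
    exact_mod_cast this
  have h7 : (M.card : ℝ) * ((K : ℝ) / 2) ^ β ≤ T.card * (2 * R + 1) := by
    calc (M.card : ℝ) * ((K : ℝ) / 2) ^ β = ∑ _m ∈ M, ((K : ℝ) / 2) ^ β := by
          rw [Finset.sum_const, nsmul_eq_mul]
      _ ≤ ∑ m ∈ M, ((T.filter (fun P => |H P - m| ≤ R)).card : ℝ) := Finset.sum_le_sum hbig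
      _ = ∑ P ∈ T, ((M.filter (fun m : ℕ => |H P - m| ≤ R)).card : ℝ) := hdouble
      _ ≤ ∑ _P ∈ T, (2 * R + 1) := Finset.sum_le_sum fun P _ => card_near_le M (H P) R hR0
      _ = T.card * (2 * R + 1) := by rw [Finset.sum_const, nsmul_eq_mul]
  have hTc : (T.card : ℝ) ≤ |C| * (8 * K) ^ (s + ε) := by
    rw [← Set.ncard_coe_finset, hTdef, Set.Finite.coe_toFinset]
    exact hT.trans (mul_le_mul_of_nonneg_right (le_abs_self C) (by positivity))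
  have hRK : 2 * R + 1 ≤ 13 * (K : ℝ) ^ θ := by
    rw [hR]
    linarith
  have h8 : (M.card : ℝ) * ((K : ℝ) / 2) ^ β ≤ (|C| * (8 * K) ^ (s + ε)) * (13 * (K : ℝ) ^ θ) :=
    h7.trans (mul_le_mul hTc hRK (by positivity) (by positivity))
  have hKβ : 0 < ((K : ℝ) / 2) ^ β := by positivity
  have h9 : (M.card : ℝ) ≤ (|C| * (8 * K) ^ (s + ε)) * (13 * (K : ℝ) ^ θ) / ((K : ℝ) / 2) ^ β := by
    rw [le_div_iff₀ hKβ]
    exact h8
  have hcard : ({n : ℕ | n ∈ {m : ℕ | ¬ FewN S H θ β m} ∧ K < n ∧ n ≤ 2 * K}.ncard : ℝ) = M.card := by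
    rw [Set.ncard_eq_toFinset_card _ hfinM]
  rw [hcard]
  refine h9.trans (le_of_eq ?_)
  have e1 : (8 * (K : ℝ)) ^ (s + ε) = 8 ^ (s + ε) * (K : ℝ) ^ (s + ε) := Real.mul_rpow (by norm_num) hK0.le
  have e2 : ((K : ℝ) / 2) ^ β = (K : ℝ) ^ β / 2 ^ β := Real.div_rpow hK0.le (by norm_num) β
  have e3 : (K : ℝ) ^ (s - β + θ + ε) = (K : ℝ) ^ (s + ε) * (K : ℝ) ^ θ / (K : ℝ) ^ β := by
    rw [← Real.rpow_add hK0, ← Real.rpow_sub hK0]
    congr 1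
    ring
  rw [e1, e2, e3]
  field_simp

/-- Countably many counting functions (`S i` is the set of the objects, `H i` their height): for
`κ_n / log n → ∞` and all `t > 1` outside one set of Hausdorff dimension at most `σ` there are for all `i`
and all large `n` at most `w ^ β` members `P` of `S i` with `|H i P - w| ≤ w ^ θ`, `w = t ^ κ_n`. -/
def CountAtPowers {ι : Type*} {Pt : ι → Type*} (S : ∀ i, Set (Pt i)) (H : ∀ i, Pt i → ℝ) (θ β σ : ℝ) :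
    Prop :=
  ∀ κ : ℕ → ℝ, Tendsto (fun n : ℕ => κ n / Real.log n) atTop atTop →
    ∃ E : Set ℝ, dimH E ≤ ENNReal.ofReal σ ∧ ∀ t : ℝ, 1 < t → t ∉ E → ∀ i : ι, ∃ n₀ : ℕ, ∀ n : ℕ,
      n₀ ≤ n → Few (S i) (H i) θ β (t ^ κ n)

/-- The same for `w = n ^ t`: for `a > 0` and all `t ≥ a` outside one set of Hausdorff dimension at most
`σ + 1 / a`. -/
def CountAtExponents {ι : Type*} {Pt : ι → Type*} (S : ∀ i, Set (Pt i)) (H : ∀ i, Pt i → ℝ)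
    (θ β σ : ℝ) : Prop :=
  ∀ a : ℝ, 0 < a → ∃ E : Set ℝ, dimH E ≤ ENNReal.ofReal (σ + 1 / a) ∧ ∀ t : ℝ, a ≤ t → t ∉ E →
    ∀ i : ι, ∃ n₀ : ℕ, ∀ n : ℕ, n₀ ≤ n → Few (S i) (H i) θ β ((n : ℝ) ^ t)

/-- The same for `w = q`, for all large `q` such that `q x_j` is within `q ^ (-η_j)` of `y_j` modulo `1` for
all `j`, for almost all `x ∈ ℝ ^ d`, if `η_j ≥ 0` and `η_1 + ... + η_d > σ`. -/
def CountAtDenominators {ι : Type*} {Pt : ι → Type*} (S : ∀ i, Set (Pt i)) (H : ∀ i, Pt i → ℝ)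
    (θ β σ : ℝ) : Prop :=
  ∀ (d : ℕ) (η y : Fin d → ℝ), (∀ j, 0 ≤ η j) → σ < ∑ j, η j → ∀ᵐ x : Fin d → ℝ, ∀ i : ι,
    ∃ q₀ : ℕ, ∀ q : ℕ, q₀ ≤ q →
      (∀ j, ∃ p : ℤ, |(q : ℝ) * x j - p - y j| ≤ (q : ℝ) ^ (-η j)) → Few (S i) (H i) θ β q

theorem near_floor {Good : ℕ → Prop} {w : ℕ → ℝ} (hw : Tendsto w atTop atTop) (h : AllNear Good w 0) :
    ∃ n₀ : ℕ, ∀ n : ℕ, n₀ ≤ n → ∃ m : ℕ, 1 ≤ m ∧ (m : ℝ) ≤ w n ∧ w n ≤ m + 1 ∧ Good m := by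
  obtain ⟨n₁, h1⟩ := h
  obtain ⟨n₂, h2⟩ := eventually_atTop.1 (hw.eventually_ge_atTop 1)
  refine ⟨max n₁ n₂, fun n hn => ⟨⌊w n⌋₊, ?_, ?_, ?_, ?_⟩⟩
  · exact Nat.le_floor (by exact_mod_cast h2 n ((le_max_right _ _).trans hn))
  · exact Nat.floor_le (by linarith [h2 n ((le_max_right _ _).trans hn)])
  · exact (Nat.lt_floor_add_one _).le
  · refine h1 n ((le_max_left _ _).trans hn) _ ?_
    rw [Real.rpow_zero]
    have h3 : 0 ≤ w n := by linarith [h2 n ((le_max_right _ _).trans hn)]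
    exact abs_le.2 ⟨by linarith [Nat.lt_floor_add_one (w n)], by linarith [Nat.floor_le h3]⟩

theorem tendsto_pow_of_slope {κ : ℕ → ℝ} (hκ : Tendsto (fun n : ℕ => κ n / Real.log n) atTop atTop)
    {t : ℝ} (ht : 1 < t) : Tendsto (fun n => t ^ κ n) atTop atTop := by
  have h1 : Tendsto (fun n : ℕ => Real.log (n : ℝ)) atTop atTop :=
    Real.tendsto_log_atTop.comp tendsto_natCast_atTop_atTop
  have h2 : Tendsto κ atTop atTop := by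
    refine tendsto_atTop_mono' _ ?_ h1
    filter_upwards [hκ.eventually_ge_atTop 1, eventually_gt_atTop 1] with n hn hn1
    have h3 : 0 < Real.log (n : ℝ) := Real.log_pos (by exact_mod_cast hn1)
    rw [le_div_iff₀ h3, one_mul] at hn
    exact hn
  have h3 : (fun n => t ^ κ n) = fun n => Real.exp (Real.log t * κ n) := by
    funext n
    rw [Real.rpow_def_of_pos (by linarith)]
  rw [h3]
  exact Real.tendsto_exp_atTop.comp (h2.const_mul_atTop (Real.log_pos ht))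

/-- **Theorem.** -/
theorem count_pack {ι : Type*} [Countable ι] {Pt : ι → Type*} (S : ∀ i, Set (Pt i)) (H : ∀ i, Pt i → ℝ)
    {s θ β : ℝ} (hs : 0 ≤ s) (hθ : 0 ≤ θ) (hθ1 : θ ≤ 1) (hβ : 0 ≤ β) (hβs : β ≤ s)
    (hcnt : ∀ i, ∀ ε : ℝ, 0 < ε → ∃ C : ℝ, ∀ X : ℝ, 1 ≤ X → {P | P ∈ S i ∧ H i P ≤ X}.Finite ∧
      ({P | P ∈ S i ∧ H i P ≤ X}.ncard : ℝ) ≤ C * X ^ (s + ε)) :
    CountAtPowers S H θ β (s - β + θ) ∧ CountAtExponents S H θ β (s - β + θ) ∧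
      CountAtDenominators S H θ β (s - β + θ) := by
  obtain ⟨h1, h2, h3, -⟩ := pack_family (fun i => FewN (S i) (H i) θ β) (by linarith : 0 ≤ s - β + θ)
    fun i => sparse_fewN (S i) (H i) hs hθ hθ1 hβ hβs (hcnt i)
  refine ⟨fun κ hκ => ?_, fun a ha => ?_, fun d η y hη hsum => ?_⟩
  · obtain ⟨E, hE1, hE2⟩ := (h1 κ 0 hκ le_rfl one_pos).1
    rw [sub_zero, div_one] at hE1
    refine ⟨E, hE1, fun t ht htE i => ?_⟩
    obtain ⟨n₀, hn₀⟩ := near_floor (tendsto_pow_of_slope hκ ht) (hE2 t ht htE i)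
    refine ⟨n₀, fun n hn => ?_⟩
    obtain ⟨m, hm1, hm2, hm3, hm⟩ := hn₀ n hn
    exact few_of_fewN hθ hθ1 hβ hm1 hm hm2 hm3
  · obtain ⟨E, hE1, hE2⟩ := (h2 0 le_rfl one_pos).1 a ha
    rw [sub_zero, div_one] at hE1
    refine ⟨E, hE1, fun t ht htE i => ?_⟩
    have ht0 : 0 < t := ha.trans_le ht
    obtain ⟨n₀, hn₀⟩ := near_floor ((tendsto_rpow_atTop ht0).comp tendsto_natCast_atTop_atTop)
      (hE2 t ht htE i)
    refine ⟨n₀, fun n hn => ?_⟩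
    obtain ⟨m, hm1, hm2, hm3, hm⟩ := hn₀ n hn
    exact few_of_fewN hθ hθ1 hβ hm1 hm hm2 hm3
  · filter_upwards [h3 d η y hη hsum] with x hx i
    obtain ⟨q₀, hq₀⟩ := hx i
    refine ⟨max q₀ 1, fun q hq hcl => ?_⟩
    exact few_of_fewN hθ hθ1 hβ ((le_max_right _ _).trans hq) (hq₀ q ((le_max_left _ _).trans hq) hcl)
      le_rfl (by linarith)

end Pool.Agent.X283.DA
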