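import Pool.Agent.X283.DA.Pack

/-! From dyadic counts of exceptions to counts. -/

set_option autoImplicit false

open Finset Filter Topology

namespace Pool.Agent.X283.DA

theorem cum_of_dyadic (P : Set ℕ) {σ : ℝ} (hσ : 0 < σ) (C : ℝ) (hC : 0 ≤ C) (K0 : ℕ)
    (h : ∀ K : ℕ, K0 ≤ K → ({n : ℕ | n ∈ P ∧ K < n ∧ n ≤ 2 * K}.ncard : ℝ) ≤ C * (K : ℝ) ^ σ) :
    ∃ B : ℝ, ∀ X : ℕ, 1 ≤ X → ({t : ℕ | t ∈ P ∧ t ≤ X}.ncard : ℝ) ≤ B * (X : ℝ) ^ σ := by
  have hq0 : (0 : ℝ) < (2 / 3 : ℝ) ^ σ := Real.rpow_pos_of_pos (by norm_num) σ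
  have hq1 : (2 / 3 : ℝ) ^ σ < 1 := Real.rpow_lt_one (by norm_num) (by norm_num) hσ
  set q : ℝ := (2 / 3 : ℝ) ^ σ with hq
  set B : ℝ := (2 * K0 + 4) + C / (1 - q) with hB
  have hB0 : C / (1 - q) ≤ B := by
    have : (0 : ℝ) ≤ 2 * K0 + 4 := by positivity
    linarith
  have hCq : 0 ≤ C / (1 - q) := div_nonneg hC (by linarith)
  refine ⟨B, fun X => ?_⟩
  induction X using Nat.strong_induction_on with
  | _ N ih =>
    intro hN
    have hN0 : (0 : ℝ) < N := by exact_mod_cast hN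
    have hN1 : (1 : ℝ) ≤ N := by exact_mod_cast hN
    have hNσ : (1 : ℝ) ≤ (N : ℝ) ^ σ := Real.one_le_rpow hN1 hσ.le
    by_cases hsm : N ≤ 2 * K0 + 3
    · have h1 : ({t : ℕ | t ∈ P ∧ t ≤ N}.ncard : ℝ) ≤ N + 1 := by
        have h2 : {t : ℕ | t ∈ P ∧ t ≤ N} ⊆ ((Finset.range (N + 1) : Finset ℕ) : Set ℕ) := by
          rintro t ⟨-, ht⟩
          rw [Finset.mem_coe, Finset.mem_range]
          omega
        have h3 := Set.ncard_le_ncard h2 (Finset.finite_toSet _)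
        rw [Set.ncard_coe_finset, Finset.card_range] at h3
        exact_mod_cast h3
      have h2 : (N : ℝ) + 1 ≤ 2 * K0 + 4 := by
        have : ((N + 1 : ℕ) : ℝ) ≤ ((2 * K0 + 4 : ℕ) : ℝ) := by exact_mod_cast (by omega)
        push_cast at this
        exact this
      calc ({t : ℕ | t ∈ P ∧ t ≤ N}.ncard : ℝ) ≤ 2 * K0 + 4 := h1.trans h2
        _ ≤ B * 1 := by rw [mul_one, hB]; linarith
        _ ≤ B * (N : ℝ) ^ σ := mul_le_mul_of_nonneg_left hNσ (by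
            rw [hB]
            positivity)
    · push Not at hsm
      set K : ℕ := (N + 1) / 2 with hK
      have hKN : K < N := by omega
      have hK1 : 1 ≤ K := by omega
      have hKK : K0 ≤ K := by omega
      have hN2 : N ≤ 2 * K := by omega
      have hKr : (K : ℝ) ≤ 2 / 3 * N := by
        have h1 : 3 * K ≤ 2 * N := by omega
        have h2 : ((3 * K : ℕ) : ℝ) ≤ ((2 * N : ℕ) : ℝ) := by exact_mod_cast h1
        push_cast at h2
        linarith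
      have h1 := ih K hKN hK1
      have h2 := h K hKK
      have h3 : {t : ℕ | t ∈ P ∧ t ≤ N} ⊆ {t : ℕ | t ∈ P ∧ t ≤ K} ∪ {n : ℕ | n ∈ P ∧ K < n ∧ n ≤ 2 * K} := by
        rintro t ⟨ht1, ht2⟩
        by_cases hcs : t ≤ K
        · exact Or.inl ⟨ht1, hcs⟩
        · exact Or.inr ⟨ht1, by omega, by omega⟩
      have f1 : {t : ℕ | t ∈ P ∧ t ≤ K}.Finite := (Set.finite_Iic K).subset fun t ht => ht.2
      have f2 : {n : ℕ | n ∈ P ∧ K < n ∧ n ≤ 2 * K}.Finite :=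
        (Set.finite_Iic (2 * K)).subset fun t ht => ht.2.2
      have h4 : ({t : ℕ | t ∈ P ∧ t ≤ N}.ncard : ℝ) ≤
          ({t : ℕ | t ∈ P ∧ t ≤ K}.ncard : ℝ) + ({n : ℕ | n ∈ P ∧ K < n ∧ n ≤ 2 * K}.ncard : ℝ) := by
        exact_mod_cast (Set.ncard_le_ncard h3 (f1.union f2)).trans (Set.ncard_union_le _ _)
      have h5 : (K : ℝ) ^ σ ≤ q * (N : ℝ) ^ σ := by
        calc (K : ℝ) ^ σ ≤ (2 / 3 * N) ^ σ := Real.rpow_le_rpow (Nat.cast_nonneg _) hKr hσ.le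
          _ = q * (N : ℝ) ^ σ := Real.mul_rpow (by norm_num) hN0.le
      have hBC : (B + C) * q ≤ B := by
        have h6 : C ≤ B * (1 - q) := by
          rw [div_le_iff₀ (by linarith)] at hB0
          exact hB0
        nlinarith
      have hBC0 : 0 ≤ B + C := by
        rw [hB]
        positivity
      calc ({t : ℕ | t ∈ P ∧ t ≤ N}.ncard : ℝ) ≤ B * (K : ℝ) ^ σ + C * (K : ℝ) ^ σ := h4.trans (add_le_add h1 h2)
        _ = (B + C) * (K : ℝ) ^ σ := by ring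
        _ ≤ (B + C) * (q * (N : ℝ) ^ σ) := mul_le_mul_of_nonneg_left h5 hBC0
        _ = ((B + C) * q) * (N : ℝ) ^ σ := by ring
        _ ≤ B * (N : ℝ) ^ σ := mul_le_mul_of_nonneg_right hBC (by positivity)

/-- dyadic bounds -/
theorem sparse_of_dyadic {P : Set ℕ} {s : ℝ} (hs : 0 ≤ s)
    (hP : ∀ ε : ℝ, 0 < ε → ∃ (C : ℝ) (K0 : ℕ), ∀ K : ℕ, K0 ≤ K →
      ({n : ℕ | n ∈ P ∧ K < n ∧ n ≤ 2 * K}.ncard : ℝ) ≤ C * (K : ℝ) ^ (s + ε)) : Sparse P s := by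
  refine sparse_of_nat hs fun ε hε => ?_
  obtain ⟨C, K0, h⟩ := hP ε hε
  obtain ⟨B, hB⟩ := cum_of_dyadic P (by linarith : 0 < s + ε) |C| (abs_nonneg _) K0 (fun K hK =>
    (h K hK).trans (mul_le_mul_of_nonneg_right (le_abs_self C) (by positivity)))
  exact ⟨B, hB⟩

end Pool.Agent.X283.DA
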