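import Pool.Agent.X283.DA.LogPack

/-!
# Countable families of properties; properties with `O(X (log X) ^ (-b))` exceptions for all `b`
-/

set_option autoImplicit false

open Finset Filter Topology MeasureTheory

namespace Pool.Agent.X283.DA

open scoped ENNReal NNReal

theorem LogSparse.mono {P : Set ℕ} {b b' : ℝ} (hP : LogSparse P b) (h : b' ≤ b) : LogSparse P b' := by
  obtain ⟨C, hC0, hC⟩ := hP
  refine ⟨C, hC0, fun X hX => (hC X hX).trans ?_⟩
  have hX3 : (3 : ℝ) ≤ X := by exact_mod_cast hX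
  have hl1 : 1 ≤ Real.log X := by
    rw [Real.le_log_iff_exp_le (by linarith)]
    exact Real.exp_one_lt_d9.le.trans (by linarith)
  exact mul_le_mul_of_nonneg_left (Real.rpow_le_rpow_of_exponent_le hl1 (by linarith)) (by positivity)

/-- from eventual bounds -/
theorem LogSparse.of_eventually {P : Set ℕ} {b : ℝ} (C : ℝ) (X₀ : ℕ)
    (h : ∀ X : ℕ, X₀ ≤ X → ({t : ℕ | t ∈ P ∧ t ≤ X}.ncard : ℝ) ≤ C * X * (Real.log X) ^ (-b)) :
    LogSparse P b := by
  have hb : 0 ≤ |C| + (X₀ + 1) * (Real.log (X₀ + 3)) ^ |b| := by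
    have : 0 ≤ Real.log ((X₀ : ℝ) + 3) := Real.log_nonneg (by
      have : (0 : ℝ) ≤ X₀ := Nat.cast_nonneg _
      linarith)
    positivity
  refine ⟨|C| + (X₀ + 1) * (Real.log (X₀ + 3)) ^ |b|, hb, fun X hX => ?_⟩
  have hX3 : (3 : ℝ) ≤ X := by exact_mod_cast hX
  have hl1 : 1 ≤ Real.log X := by
    rw [Real.le_log_iff_exp_le (by linarith)]
    exact Real.exp_one_lt_d9.le.trans (by linarith)
  have hlX : 0 < (Real.log X) ^ (-b) := Real.rpow_pos_of_pos (by linarith) _
  by_cases hXX : X₀ ≤ X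
  · refine (h X hXX).trans ?_
    rw [add_mul, add_mul]
    have h1 : C * X * (Real.log X) ^ (-b) ≤ |C| * X * (Real.log X) ^ (-b) := by
      apply mul_le_mul_of_nonneg_right _ hlX.le
      exact mul_le_mul_of_nonneg_right (le_abs_self C) (by linarith)
    have h2 : 0 ≤ ((X₀ : ℝ) + 1) * (Real.log (X₀ + 3)) ^ |b| * X * (Real.log X) ^ (-b) := by
      have : 0 ≤ Real.log ((X₀ : ℝ) + 3) := Real.log_nonneg (by
        have : (0 : ℝ) ≤ X₀ := Nat.cast_nonneg _
        linarith)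
      positivity
    linarith
  · push Not at hXX
    have h1 : ({t : ℕ | t ∈ P ∧ t ≤ X}.ncard : ℝ) ≤ X + 1 := by
      have h2 : {t : ℕ | t ∈ P ∧ t ≤ X} ⊆ ((Finset.range (X + 1) : Finset ℕ) : Set ℕ) := by
        rintro t ⟨-, ht⟩
        rw [Finset.mem_coe, Finset.mem_range]
        omega
      have h3 := Set.ncard_le_ncard h2 (Finset.finite_toSet _)
      rw [Set.ncard_coe_finset, Finset.card_range] at h3
      exact_mod_cast h3
    have hX0 : (X : ℝ) ≤ X₀ := by exact_mod_cast hXX.le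
    have h4 : 1 ≤ (Real.log ((X₀ : ℝ) + 3)) ^ |b| * (Real.log X) ^ (-b) := by
      have h5 : Real.log X ≤ Real.log ((X₀ : ℝ) + 3) := Real.log_le_log (by linarith) (by linarith)
      have h6 : (Real.log X) ^ |b| ≤ (Real.log ((X₀ : ℝ) + 3)) ^ |b| :=
        Real.rpow_le_rpow (by linarith) h5 (abs_nonneg b)
      have h7 : (Real.log X) ^ (-|b|) ≤ (Real.log X) ^ (-b) :=
        Real.rpow_le_rpow_of_exponent_le hl1 (neg_le_neg (le_abs_self b))
      calc (1 : ℝ) = (Real.log X) ^ |b| * (Real.log X) ^ (-|b|) := by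
            rw [← Real.rpow_add (by linarith), add_neg_cancel, Real.rpow_zero]
        _ ≤ _ := mul_le_mul h6 h7 (Real.rpow_nonneg (by linarith) _) (by
            apply Real.rpow_nonneg
            linarith)
    have h8 : (X : ℝ) + 1 ≤ ((X₀ : ℝ) + 1) * X := by nlinarith
    have h9 : (0 : ℝ) ≤ ((X₀ : ℝ) + 1) * X := by positivity
    calc ({t : ℕ | t ∈ P ∧ t ≤ X}.ncard : ℝ) ≤ X + 1 := h1
      _ ≤ ((X₀ : ℝ) + 1) * X * 1 := by rw [mul_one]; exact h8
      _ ≤ ((X₀ : ℝ) + 1) * X * ((Real.log ((X₀ : ℝ) + 3)) ^ |b| * (Real.log X) ^ (-b)) :=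
          mul_le_mul_of_nonneg_left h4 h9
      _ = 0 + ((X₀ : ℝ) + 1) * (Real.log (X₀ + 3)) ^ |b| * X * (Real.log X) ^ (-b) := by ring
      _ ≤ |C| * X * (Real.log X) ^ (-b) +
          ((X₀ : ℝ) + 1) * (Real.log (X₀ + 3)) ^ |b| * X * (Real.log X) ^ (-b) := by
            apply add_le_add_left
            positivity
      _ = _ := by ring

open Classical in
/-- the sum of `(log q) ^ B / q` over a set with `O(X (log X) ^ (-b))` elements converges if `b > 1 + B` -/
theorem summable_log_pos {P : Set ℕ} {b B : ℝ} (hB : 0 ≤ B) (hP : LogSparse P b) (hbB : 1 + B < b) :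
    Summable (fun q : ℕ => if q ∈ P ∧ 3 ≤ q then 1 / (q : ℝ) * (Real.log q) ^ B else 0) := by
  obtain ⟨C, hC0, hC⟩ := hP
  set f : ℕ → ℝ := fun q => if q ∈ P ∧ 3 ≤ q then 1 / (q : ℝ) * (Real.log q) ^ B else 0 with hf
  have hl2 : 0 < Real.log 2 := Real.log_pos (by norm_num)
  have hf0 : ∀ q, 0 ≤ f q := by
    intro q
    rw [hf]
    dsimp only
    split_ifs
    · exact mul_nonneg (by positivity) (Real.rpow_nonneg (Real.log_natCast_nonneg q) _)
    · exact le_rfl
  -- dyadic blocks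
  have hblock : ∀ k : ℕ, 1 ≤ k → ∑ q ∈ Finset.Ico (2 ^ k) (2 ^ (k + 1)), f q ≤
      (2 * C * 2 ^ B * (Real.log 2) ^ (B - b)) * (k : ℝ) ^ (B - b) := by
    intro k hk
    have hk0 : (0 : ℝ) < k := by exact_mod_cast hk
    have hk1 : (1 : ℝ) ≤ k := by exact_mod_cast hk
    have h2k : (0 : ℝ) < (2 : ℝ) ^ k := by positivity
    have hlk : 0 < (k : ℝ) * Real.log 2 := by positivity
    have hX3 : 3 ≤ 2 ^ (k + 1) := by
      calc 3 ≤ 2 ^ (1 + 1) := by norm_num
        _ ≤ 2 ^ (k + 1) := Nat.pow_le_pow_right (by norm_num) (by omega)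
    have h1 : ∑ q ∈ Finset.Ico (2 ^ k) (2 ^ (k + 1)), f q ≤
        ((Finset.Ico (2 ^ k) (2 ^ (k + 1))).filter (fun q => q ∈ P)).card *
          (1 / (2 : ℝ) ^ k * (2 * (k * Real.log 2)) ^ B) := by
      rw [Finset.card_eq_sum_ones, Nat.cast_sum, Finset.sum_mul, Finset.sum_filter]
      refine Finset.sum_le_sum fun q hq => ?_
      rw [Finset.mem_Ico] at hq
      have hq1 : (2 : ℝ) ^ k ≤ q := by exact_mod_cast hq.1
      have hq2 : (q : ℝ) ≤ 2 ^ (k + 1) := by exact_mod_cast hq.2.le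
      have hlq : Real.log q ≤ 2 * (k * Real.log 2) := by
        have h2 : Real.log q ≤ ((k + 1 : ℕ) : ℝ) * Real.log 2 := by
          rw [← Real.log_pow]
          exact Real.log_le_log (by linarith) hq2
        refine h2.trans ?_
        push_cast
        nlinarith
      rw [hf]
      dsimp only
      by_cases hqP : q ∈ P
      · rw [if_pos hqP]
        split_ifs
        · rw [Nat.cast_one, one_mul]
          apply mul_le_mul (one_div_le_one_div_of_le h2k hq1)
            (Real.rpow_le_rpow (Real.log_natCast_nonneg q) hlq hB) _ (by positivity)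
          exact Real.rpow_nonneg (Real.log_natCast_nonneg q) _
        · positivity
      · rw [if_neg (fun h => hqP h.1), if_neg hqP]
    have h2 : (((Finset.Ico (2 ^ k) (2 ^ (k + 1))).filter (fun q => q ∈ P)).card : ℝ) ≤
        C * 2 ^ (k + 1) * (k * Real.log 2) ^ (-b) := by
      have h3 := hC (2 ^ (k + 1)) hX3
      have h4 : (((Finset.Ico (2 ^ k) (2 ^ (k + 1))).filter (fun q => q ∈ P)).card : ℝ) ≤
          ({t : ℕ | t ∈ P ∧ t ≤ 2 ^ (k + 1)}.ncard : ℝ) := by
        rw [← Set.ncard_coe_finset]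
        refine Nat.cast_le.2 (Set.ncard_le_ncard ?_ ((Set.finite_Iic (2 ^ (k + 1))).subset
          fun t ht => ht.2))
        intro q hq
        rw [Finset.mem_coe, Finset.mem_filter, Finset.mem_Ico] at hq
        exact ⟨hq.2, hq.1.2.le⟩
      refine h4.trans (h3.trans ?_)
      push_cast
      apply mul_le_mul_of_nonneg_left _ (by positivity)
      rw [Real.log_pow]
      apply Real.rpow_le_rpow_of_nonpos hlk _ (by linarith)
      apply mul_le_mul_of_nonneg_right _ hl2.le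
      push_cast
      linarith
    refine h1.trans ((mul_le_mul_of_nonneg_right h2 (by positivity)).trans (le_of_eq ?_))
    have e1 : (2 * (k * Real.log 2)) ^ B = 2 ^ B * (k * Real.log 2) ^ B :=
      Real.mul_rpow (by norm_num) hlk.le
    have e2 : (k * Real.log 2) ^ (-b) * (k * Real.log 2) ^ B =
        (Real.log 2) ^ (B - b) * (k : ℝ) ^ (B - b) := by
      rw [← Real.rpow_add hlk, mul_comm (k : ℝ), Real.mul_rpow hl2.le hk0.le]
      ring_nf
    calc C * 2 ^ (k + 1) * (k * Real.log 2) ^ (-b) * (1 / 2 ^ k * (2 * (k * Real.log 2)) ^ B)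
        = 2 * C * 2 ^ B * ((k * Real.log 2) ^ (-b) * (k * Real.log 2) ^ B) := by
          rw [pow_succ, e1]
          field_simp
      _ = _ := by
          rw [e2]
          ring
  have hsum : Summable (fun k : ℕ => (2 * C * 2 ^ B * (Real.log 2) ^ (B - b)) * (k : ℝ) ^ (B - b)) :=
    (Real.summable_nat_rpow.2 (by linarith)).mul_left _
  have hnn : ∀ k : ℕ, 0 ≤ (2 * C * 2 ^ B * (Real.log 2) ^ (B - b)) * (k : ℝ) ^ (B - b) := fun k => by
    positivity
  refine summable_of_sum_range_le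
    (c := ∑' k : ℕ, (2 * C * 2 ^ B * (Real.log 2) ^ (B - b)) * (k : ℝ) ^ (B - b)) hf0 fun n => ?_
  have h3 : ∀ K : ℕ, ∑ q ∈ Finset.range (2 ^ K), f q ≤
      ∑ k ∈ Finset.range K, (2 * C * 2 ^ B * (Real.log 2) ^ (B - b)) * (k : ℝ) ^ (B - b) := by
    intro K
    induction K with
    | zero =>
      simp only [pow_zero, Finset.range_one, Finset.sum_singleton, Finset.range_zero,
        Finset.sum_empty]
      rw [hf]
      simp
    | succ K ih =>
      rw [Finset.sum_range_succ, ← Finset.sum_range_add_sum_Ico f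
        (Nat.pow_le_pow_right (by norm_num) (Nat.le_succ K) : 2 ^ K ≤ 2 ^ (K + 1))]
      rcases Nat.eq_zero_or_pos K with h0 | h0
      · subst h0
        have h4 : ∑ k ∈ Finset.Ico (2 ^ 0) (2 ^ (0 + 1)), f k = 0 := by
          apply Finset.sum_eq_zero
          intro q hq
          rw [Finset.mem_Ico] at hq
          rw [hf]
          dsimp only
          rw [if_neg]
          rintro ⟨-, h5⟩
          norm_num at hq
          omega
        rw [h4, add_zero]
        exact ih.trans (le_add_of_nonneg_right (hnn 0))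
      · exact add_le_add ih (hblock K h0)
  have h4 : n ≤ 2 ^ n := Nat.lt_two_pow_self.le
  calc ∑ q ∈ Finset.range n, f q ≤ ∑ q ∈ Finset.range (2 ^ n), f q :=
        Finset.sum_le_sum_of_subset_of_nonneg (Finset.range_mono h4) fun q _ _ => hf0 q
    _ ≤ ∑ k ∈ Finset.range n, (2 * C * 2 ^ B * (Real.log 2) ^ (B - b)) * (k : ℝ) ^ (B - b) := h3 n
    _ ≤ _ := hsum.sum_le_tsum _ fun k _ => hnn k

/-- simultaneous approximation, arbitrary powers of the logarithm -/
theorem ae_simultaneous_any {P : Set ℕ} (hP : ∀ b : ℝ, 0 ≤ b → LogSparse P b) (d : ℕ)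
    (θ y : Fin d → ℝ) (hθ : ∀ i, 0 < θ i) (hθs : ∑ i, θ i = 1) (B : ℕ) :
    ∀ᵐ x : Fin d → ℝ, ∃ q₀ : ℕ, ∀ q : ℕ, q₀ ≤ q →
      (∀ i, ∃ p : ℤ, |(q : ℝ) * x i - p - y i| ≤ (q : ℝ) ^ (-θ i) * (Real.log q) ^ B) → q ∉ P := by
  classical
  have hP' := hP (d * B + 2) (by positivity)
  have hsmall : ∀ᶠ q : ℕ in atTop, ∀ i, (q : ℝ) ^ (-θ i) * (Real.log q) ^ B ≤ 1 := by
    rw [eventually_all]
    intro i
    have h1 : Tendsto (fun x : ℝ => Real.log x ^ (B : ℝ) / x ^ (θ i)) atTop (𝓝 0) :=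
      (isLittleO_log_rpow_rpow_atTop (B : ℝ) (hθ i)).tendsto_div_nhds_zero
    have h2 := (h1.comp tendsto_natCast_atTop_atTop).eventually (gt_mem_nhds one_pos)
    filter_upwards [h2, eventually_ge_atTop 1] with q hq hq1
    have hq0 : (0 : ℝ) < q := by exact_mod_cast hq1
    have hq' : Real.log (q : ℝ) ^ (B : ℝ) / (q : ℝ) ^ (θ i) < 1 := hq
    rw [Real.rpow_natCast] at hq'
    rw [Real.rpow_neg hq0.le, inv_mul_eq_div]
    exact hq'.le
  obtain ⟨q₁, hq₁⟩ := eventually_atTop.1 hsmall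
  have key : ∀ N : ℕ, ∀ᵐ x : Fin d → ℝ, (∀ i, |x i| ≤ N) → ∃ q₀ : ℕ, ∀ q : ℕ, q₀ ≤ q →
      (∀ i, ∃ p : ℤ, |(q : ℝ) * x i - p - y i| ≤ (q : ℝ) ^ (-θ i) * (Real.log q) ^ B) →
        q ∉ P := by
    intro N
    set A : ℕ → Set (Fin d → ℝ) := fun q =>
      if (q ∈ P ∧ 3 ≤ q) ∧ q₁ ≤ q then Set.pi Set.univ
        (fun i => nearR N (y i) ((q : ℝ) ^ (-θ i) * (Real.log q) ^ B) q) else ∅ with hA
    have hsm := (summable_log_pos (B := (d * B : ℝ)) (by positivity) hP' (by linarith)).mul_left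
      ((4 * (N : ℝ) + 10) ^ d)
    have hvol : ∀ q, volume (A q) ≤ ENNReal.ofReal ((4 * (N : ℝ) + 10) ^ d *
        (if q ∈ P ∧ 3 ≤ q then 1 / (q : ℝ) * (Real.log q) ^ (d * B : ℝ) else 0)) := by
      intro q
      rw [hA]
      dsimp only
      by_cases hq : (q ∈ P ∧ 3 ≤ q) ∧ q₁ ≤ q
      · rw [if_pos hq, if_pos hq.1, MeasureTheory.volume_pi_pi]
        have hq3 : (3 : ℝ) ≤ q := by exact_mod_cast hq.1.2
        have hq' : (0 : ℝ) < q := by linarith
        have hl0 : 0 < Real.log q := Real.log_pos (by linarith)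
        have hr0 : ∀ i, 0 ≤ (q : ℝ) ^ (-θ i) * (Real.log q) ^ B := fun i => by positivity
        calc ∏ i, volume (nearR N (y i) ((q : ℝ) ^ (-θ i) * (Real.log q) ^ B) q)
            ≤ ∏ i, ENNReal.ofReal ((4 * (N : ℝ) + 10) * ((q : ℝ) ^ (-θ i) * (Real.log q) ^ B)) :=
              Finset.prod_le_prod' fun i _ =>
                volume_nearR (Nat.cast_nonneg N) (hr0 i) (hq₁ q hq.2 i) (by omega)
          _ = ENNReal.ofReal (∏ i, ((4 * (N : ℝ) + 10) * ((q : ℝ) ^ (-θ i) * (Real.log q) ^ B))) := by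
              rw [ENNReal.ofReal_prod_of_nonneg]
              intro i _
              positivity
          _ = _ := by
              have e5 : (Real.log q) ^ (d * B : ℝ) = (Real.log q) ^ (B * d) := by
                rw [← Real.rpow_natCast]
                push_cast
                ring_nf
              rw [Finset.prod_mul_distrib, Finset.prod_const, Finset.card_univ, Fintype.card_fin,
                Finset.prod_mul_distrib, ← Real.rpow_sum_of_pos hq', Finset.sum_neg_distrib, hθs,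
                Real.rpow_neg_one, one_div, Finset.prod_const, Finset.card_univ, Fintype.card_fin,
                ← pow_mul, e5]
      · rw [if_neg hq]
        simp
    have hne : ∑' q, volume (A q) ≠ ∞ := by
      refine ne_top_of_le_ne_top ?_ (ENNReal.tsum_le_tsum hvol)
      exact hsm.tsum_ofReal_ne_top
    have h0 := measure_limsup_atTop_eq_zero hne
    have h1 : ∀ᵐ x : Fin d → ℝ, x ∉ limsup A atTop := by
      rw [ae_iff]
      simpa using h0
    filter_upwards [h1] with x hx hxN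
    rw [limsup_eq_iInf_iSup_of_nat] at hx
    simp only [Set.iInf_eq_iInter, Set.iSup_eq_iUnion, Set.mem_iInter, Set.mem_iUnion,
      not_forall, not_exists] at hx
    obtain ⟨n, hn⟩ := hx
    refine ⟨max n (max 3 q₁), fun q hq hcl hqP => ?_⟩
    refine hn q ((le_max_left _ _).trans hq) ?_
    rw [hA]
    dsimp only
    rw [if_pos ⟨⟨hqP, ((le_max_left _ _).trans (le_max_right _ _)).trans hq⟩,
      ((le_max_right _ _).trans (le_max_right _ _)).trans hq⟩]
    exact fun i _ => ⟨hxN i, hcl i⟩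
  filter_upwards [ae_all_iff.2 key] with x hx
  obtain ⟨N, hN⟩ := exists_nat_ge (∑ i, |x i|)
  exact hx N fun i => (Finset.single_le_sum (fun j _ => abs_nonneg (x j)) (Finset.mem_univ i)).trans hN

/-- All members of the family of properties `Good i` hold near fast sequences, up to any power of the
logarithm: let `κ_n → ∞` with `∑ κ_n ^ (-u) < ∞` for some `u`. For almost all `t > 1`, all `i` and
`B`: all natural numbers within `κ_n ^ B` of `t ^ κ_n` have the property `i`, `n` large; for almost all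
`α > 0` the same holds for `α exp(κ_n)`. -/
def AnyFast {ι : Type*} (Good : ι → ℕ → Prop) : Prop :=
  ∀ (κ : ℕ → ℝ) (u : ℝ), Tendsto κ atTop atTop → Summable (fun n => κ n ^ (-u)) →
    (∀ᵐ t : ℝ, 1 < t → ∀ (i : ι) (B : ℕ), NearAll (Good i) (fun n => t ^ κ n) (fun n => κ n ^ B)) ∧
    (∀ᵐ α : ℝ, 0 < α → ∀ (i : ι) (B : ℕ),
      NearAll (Good i) (fun n => α * Real.exp (κ n)) (fun n => κ n ^ B))

/-- All members of the family of properties `Good i` hold for good denominators, up to any power of the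
logarithm: for all `y, θ ∈ ℝ ^ d` with `θ_j > 0`, `θ_1 + ... + θ_d = 1`, and almost all `x ∈ ℝ ^ d`, all
`i` and `B`: all large `q` such that `q x_j` is within `q ^ (-θ_j) (log q) ^ B` of `y_j` modulo `1`, for
all `j`, have the property `i`. -/
def AnyDenominators {ι : Type*} (Good : ι → ℕ → Prop) : Prop :=
  ∀ (d : ℕ) (θ y : Fin d → ℝ), (∀ j, 0 < θ j) → ∑ j, θ j = 1 →
    ∀ᵐ x : Fin d → ℝ, ∀ (i : ι) (B : ℕ), ∃ q₀ : ℕ, ∀ q : ℕ, q₀ ≤ q →
      (∀ j, ∃ p : ℤ, |(q : ℝ) * x j - p - y j| ≤ (q : ℝ) ^ (-θ j) * (Real.log q) ^ B) → Good i q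

/-- **Theorem.** -/
theorem pack_any {ι : Type*} [Countable ι] (Good : ι → ℕ → Prop)
    (hP : ∀ (i : ι) (b : ℝ), 0 ≤ b → LogSparse {A | ¬ Good i A} b) :
    AnyFast Good ∧ AnyDenominators Good := by
  have conv : ∀ (i : ι) (w r : ℕ → ℝ), (∃ n₀ : ℕ, ∀ n : ℕ, n₀ ≤ n → ∀ e ∈ {A | ¬ Good i A},
      r n < |(e : ℝ) - w n|) → NearAll (Good i) w r := by
    rintro i w r ⟨n₀, h⟩
    refine ⟨n₀, fun n hn A hA => ?_⟩
    by_contra hcon
    exact absurd hA (not_le.2 (h n hn A hcon))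
  refine ⟨fun κ u hκ hsum => ⟨?_, ?_⟩, fun d θ y hθ hθs => ?_⟩
  · have h : ∀ i : ι, ∀ B : ℕ, ∀ᵐ t : ℝ, 1 < t →
        NearAll (Good i) (fun n => t ^ κ n) (fun n => κ n ^ B) := by
      intro i B
      have hb0 : (0 : ℝ) ≤ max ((B : ℝ) + u) 0 := le_max_right _ _
      have hb2 : (B : ℝ) - max ((B : ℝ) + u) 0 ≤ -u := by linarith [le_max_left ((B : ℝ) + u) 0]
      filter_upwards [ae_pow_log' hb0 (hP i _ hb0) κ hκ (Nat.cast_nonneg B) hb2 hsum] with t ht ht1
      have h1 := conv i _ _ (ht ht1)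
      simpa only [Real.rpow_natCast] using h1
    have h' := ae_all_iff.2 fun i => ae_all_iff.2 (h i)
    filter_upwards [h'] with t ht ht1 i B
    exact ht i B ht1
  · have h : ∀ i : ι, ∀ B : ℕ, ∀ᵐ α : ℝ, 0 < α →
        NearAll (Good i) (fun n => α * Real.exp (κ n)) (fun n => κ n ^ B) := by
      intro i B
      have hb0 : (0 : ℝ) ≤ max ((B : ℝ) + u) 0 := le_max_right _ _
      have hb2 : (B : ℝ) - max ((B : ℝ) + u) 0 ≤ -u := by linarith [le_max_left ((B : ℝ) + u) 0]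
      filter_upwards [ae_dil_log' hb0 (hP i _ hb0) κ hκ (Nat.cast_nonneg B) hb2 hsum] with t ht ht1
      have h1 := conv i _ _ (ht ht1)
      simpa only [Real.rpow_natCast] using h1
    have h' := ae_all_iff.2 fun i => ae_all_iff.2 (h i)
    filter_upwards [h'] with t ht ht1 i B
    exact ht i B ht1
  · have h : ∀ i : ι, ∀ B : ℕ, ∀ᵐ x : Fin d → ℝ, ∃ q₀ : ℕ, ∀ q : ℕ, q₀ ≤ q →
        (∀ j, ∃ p : ℤ, |(q : ℝ) * x j - p - y j| ≤ (q : ℝ) ^ (-θ j) * (Real.log q) ^ B) →
          Good i q := by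
      intro i B
      filter_upwards [ae_simultaneous_any (hP i) d θ y hθ hθs B] with x hx
      obtain ⟨q₀, h⟩ := hx
      refine ⟨q₀, fun q hq hcl => ?_⟩
      by_contra hcon
      exact h q hq hcl hcon
    filter_upwards [ae_all_iff.2 fun i => ae_all_iff.2 (h i)] with x hx i B
    exact hx i B

/-- All members of the family of properties `Good i` hold near fast sequences: let `κ_n → ∞` with
`∑ κ_n ^ (-u) < ∞`, `θ ≥ 0` and `u + θ < β`. For almost all `t > 1` and all `i` all natural numbers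
within `κ_n ^ θ` of `t ^ κ_n` have the property `i`, `n` large; for almost all `α > 0` the same holds for
`α exp(κ_n)`. -/
def FamFast {ι : Type*} (Good : ι → ℕ → Prop) (β : ℝ) : Prop :=
  ∀ (κ : ℕ → ℝ) (θ u : ℝ), Tendsto κ atTop atTop → 0 ≤ θ → u + θ < β →
    Summable (fun n => κ n ^ (-u)) →
    (∀ᵐ t : ℝ, 1 < t → ∀ i : ι, NearAll (Good i) (fun n => t ^ κ n) (fun n => κ n ^ θ)) ∧
    (∀ᵐ α : ℝ, 0 < α → ∀ i : ι,
      NearAll (Good i) (fun n => α * Real.exp (κ n)) (fun n => κ n ^ θ))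

/-- All members of the family of properties `Good i` hold for good denominators: for all
`y, θ, c ∈ ℝ ^ d` with `θ_j, c_j ≥ 0`, `θ_1 + ... + θ_d = 1` and `c_1 + ... + c_d > 1 - β`, almost all
`x ∈ ℝ ^ d` and all `i`, all large `q` such that `q x_j` is within `q ^ (-θ_j) (log q) ^ (-c_j)` of `y_j`
modulo `1`, for all `j`, have the property `i`. -/
def FamDenominators {ι : Type*} (Good : ι → ℕ → Prop) (β : ℝ) : Prop :=
  ∀ (d : ℕ) (θ c y : Fin d → ℝ), (∀ j, 0 ≤ θ j) → (∀ j, 0 ≤ c j) → ∑ j, θ j = 1 →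
    1 - β < ∑ j, c j →
    ∀ᵐ x : Fin d → ℝ, ∀ i : ι, ∃ q₀ : ℕ, ∀ q : ℕ, q₀ ≤ q →
      (∀ j, ∃ p : ℤ, |(q : ℝ) * x j - p - y j| ≤ (q : ℝ) ^ (-θ j) * (Real.log q) ^ (-c j)) →
        Good i q

/-- **Theorem.** -/
theorem pack_fam {ι : Type*} [Countable ι] (Good : ι → ℕ → Prop) {β : ℝ} (hβ : 0 < β)
    (hP : ∀ (i : ι) (b : ℝ), 0 ≤ b → b < β → LogSparse {A | ¬ Good i A} b) :
    FamFast Good β ∧ FamDenominators Good β := by
  have h : ∀ i, GoodAtFast (Good i) β ∧ GoodAtLogDenominators (Good i) β :=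
    fun i => pack_log (Good i) hβ (hP i)
  refine ⟨fun κ θ u hκ hθ hu hsum => ⟨?_, ?_⟩, fun d θ c y hθ hc hθs hcs => ?_⟩
  · filter_upwards [ae_all_iff.2 fun i => ((h i).1 κ θ u hκ hθ hu hsum).1] with t ht ht1 i
    exact ht i ht1
  · filter_upwards [ae_all_iff.2 fun i => ((h i).1 κ θ u hκ hθ hu hsum).2] with t ht ht1 i
    exact ht i ht1
  · exact ae_all_iff.2 fun i => (h i).2 d θ c y hθ hc hθs hcs

end Pool.Agent.X283.DA
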