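import Pool.Agent.X283.DA.Dyadic

/-!
# Countable families of properties with few exceptions: near real powers and for denominators
-/

set_option autoImplicit false

open Finset Filter Topology MeasureTheory

namespace Pool.Agent.X283.DA

open scoped ENNReal NNReal

/-- All members of the family of properties `Good i` hold near the powers `t ^ κ_n`, where `κ_n / log n`
tends to infinity: for `0 ≤ θ < 1` and all `t > 1` outside one set of Hausdorff dimension at most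
`s / (1 - θ)`, and for almost all `t > 1` if `s + θ < 1`. -/
def FamAtPowers {ι : Type*} (Good : ι → ℕ → Prop) (s : ℝ) : Prop :=
  ∀ (κ : ℕ → ℝ) (θ : ℝ), Tendsto (fun n : ℕ => κ n / Real.log n) atTop atTop → 0 ≤ θ → θ < 1 →
    (∃ E : Set ℝ, dimH E ≤ ENNReal.ofReal (s / (1 - θ)) ∧
      ∀ t : ℝ, 1 < t → t ∉ E → ∀ i : ι, AllNear (Good i) (fun n => t ^ κ n) θ) ∧
    (s + θ < 1 → ∀ᵐ t : ℝ, 1 < t → ∀ i : ι, AllNear (Good i) (fun n => t ^ κ n) θ)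

/-- All members of the family hold near the powers `n ^ t`: for `0 ≤ θ < 1`, `a > 0` and all `t ≥ a`
outside one set of Hausdorff dimension at most `(s + 1 / a) / (1 - θ)`, and for almost all
`t > 1 / (1 - s - θ)` if `s + θ < 1`. -/
def FamAtExponents {ι : Type*} (Good : ι → ℕ → Prop) (s : ℝ) : Prop :=
  ∀ θ : ℝ, 0 ≤ θ → θ < 1 →
    (∀ a : ℝ, 0 < a → ∃ E : Set ℝ, dimH E ≤ ENNReal.ofReal ((s + 1 / a) / (1 - θ)) ∧
      ∀ t : ℝ, a ≤ t → t ∉ E → ∀ i : ι, AllNear (Good i) (fun n => (n : ℝ) ^ t) θ) ∧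
    (s + θ < 1 → ∀ᵐ t : ℝ, 1 / (1 - s - θ) < t → ∀ i : ι, AllNear (Good i) (fun n => (n : ℝ) ^ t) θ)

/-- All members of the family hold for good denominators: for all `y, θ ∈ ℝ ^ d`, `θ_j ≥ 0`,
`θ_1 + ... + θ_d > s`, almost all `x ∈ ℝ ^ d` and all `i`, all large `q` such that `q x_j` is within
`q ^ (-θ_j)` of `y_j` modulo `1`, for all `j`, have the property `i`. -/
def FamAtDenominators {ι : Type*} (Good : ι → ℕ → Prop) (s : ℝ) : Prop :=
  ∀ (d : ℕ) (θ y : Fin d → ℝ), (∀ j, 0 ≤ θ j) → s < ∑ j, θ j →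
    ∀ᵐ x : Fin d → ℝ, ∀ i : ι, AllDenominators (Good i) x y θ

/-- All members of the family hold for good denominators, one real number: for `θ ≥ 0`, all `y`, all
real `x` outside one set of Hausdorff dimension at most `(1 + s) / (1 + θ)` and all `i`, all large `q`
such that `q x` is within `q ^ (-θ)` of `y` modulo `1` have the property `i`. -/
def FamAtApproximations {ι : Type*} (Good : ι → ℕ → Prop) (s : ℝ) : Prop :=
  ∀ θ y : ℝ, 0 ≤ θ → ∃ E : Set ℝ, dimH E ≤ ENNReal.ofReal ((1 + s) / (1 + θ)) ∧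
    ∀ x : ℝ, x ∉ E → ∀ i : ι, ∃ q₀ : ℕ, ∀ q : ℕ, q₀ ≤ q →
      (∃ p : ℤ, |(q : ℝ) * x - p - y| ≤ (q : ℝ) ^ (-θ)) → Good i q

theorem pack_family {ι : Type*} [Countable ι] (Good : ι → ℕ → Prop) {s : ℝ} (hs : 0 ≤ s)
    (hP : ∀ i, Sparse {A | ¬ Good i A} s) :
    FamAtPowers Good s ∧ FamAtExponents Good s ∧ FamAtDenominators Good s ∧
      FamAtApproximations Good s := by
  have h := fun i => pack (Good i) hs (hP i)
  refine ⟨fun κ θ hκ hθ hθ1 => ⟨?_, fun h1 => ?_⟩, fun θ hθ hθ1 => ⟨fun a ha => ?_, fun h1 => ?_⟩,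
    fun d θ y hθ hsum => ?_, fun θ y hθ => ?_⟩
  · choose E hE1 hE2 using fun i => ((h i).1 κ θ hκ hθ hθ1).1
    refine ⟨⋃ i, E i, ?_, fun t ht htE i => hE2 i t ht fun hx => htE (Set.mem_iUnion.2 ⟨i, hx⟩)⟩
    rw [dimH_iUnion]
    exact iSup_le hE1
  · filter_upwards [ae_all_iff.2 fun i => ((h i).1 κ θ hκ hθ hθ1).2 h1] with t ht ht1 i
    exact ht i ht1
  · choose E hE1 hE2 using fun i => ((h i).2.1 θ hθ hθ1).1 a ha
    refine ⟨⋃ i, E i, ?_, fun t ht htE i => hE2 i t ht fun hx => htE (Set.mem_iUnion.2 ⟨i, hx⟩)⟩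
    rw [dimH_iUnion]
    exact iSup_le hE1
  · filter_upwards [ae_all_iff.2 fun i => ((h i).2.1 θ hθ hθ1).2 h1] with t ht ht1 i
    exact ht i ht1
  · exact ae_all_iff.2 fun i => (h i).2.2.1 d θ y hθ hsum
  · choose E hE1 hE2 using fun i => (h i).2.2.2 θ y hθ
    refine ⟨⋃ i, E i, ?_, fun x hx i => hE2 i x fun hx' => hx (Set.mem_iUnion.2 ⟨i, hx'⟩)⟩
    rw [dimH_iUnion]
    exact iSup_le hE1

/-- from counts of integers in dyadic shells -/
theorem sparse_of_shell {Bad : Set ℤ} {P : Set ℕ} {s : ℝ} (hs : 0 ≤ s)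
    (hP : ∀ m ∈ P, ∃ D ∈ Bad, D.natAbs = m)
    (h : ∃ C₁ : ℝ, ∃ i₁ : ℕ, ∀ i : ℕ, i₁ ≤ i →
      ({D : ℤ | D ∈ Bad ∧ (2 : ℤ) ^ i ≤ |D| ∧ |D| < 2 ^ (i + 1)}.ncard : ℝ) ≤ C₁ * ((2 : ℝ) ^ i) ^ s) :
    Sparse P s := by
  obtain ⟨C₁, i₁, h⟩ := h
  refine sparse_of_dyadic hs fun ε hε => ⟨2 * |C₁| * 2 ^ s, 2 ^ i₁, fun K hK => ?_⟩
  have hK1 : 1 ≤ K := Nat.one_le_two_pow.trans hK
  set i := Nat.log 2 K with hi
  have hi1 : 2 ^ i ≤ K := Nat.pow_log_le_self 2 (by omega)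
  have hi2 : K < 2 ^ (i + 1) := Nat.lt_pow_succ_log_self (by norm_num) K
  have hii : i₁ ≤ i := by
    rw [hi]
    exact (Nat.le_log_iff_pow_le (by norm_num) (by omega)).2 hK
  have f : ∀ j, {D : ℤ | D ∈ Bad ∧ (2 : ℤ) ^ j ≤ |D| ∧ |D| < 2 ^ (j + 1)}.Finite := by
    intro j
    refine (Set.finite_Icc (-(2 : ℤ) ^ (j + 1)) (2 ^ (j + 1))).subset ?_
    rintro D ⟨-, -, hD⟩
    exact abs_le.1 hD.le
  set S := fun j : ℕ => {D : ℤ | D ∈ Bad ∧ (2 : ℤ) ^ j ≤ |D| ∧ |D| < 2 ^ (j + 1)} with hS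
  have hsub : {n : ℕ | n ∈ P ∧ K < n ∧ n ≤ 2 * K} ⊆ Int.natAbs '' (S i ∪ S (i + 1)) := by
    rintro n ⟨hn, hKn, hn2⟩
    obtain ⟨D, hD, hDn⟩ := hP n hn
    refine ⟨D, ?_, hDn⟩
    have hD1 : |D| = (n : ℤ) := by
      rw [← hDn]
      exact (Int.natCast_natAbs D).symm
    by_cases hc : n < 2 ^ (i + 1)
    · left
      refine ⟨hD, ?_, ?_⟩
      · rw [hD1]
        exact_mod_cast hi1.trans hKn.le
      · rw [hD1]
        exact_mod_cast hc
    · right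
      refine ⟨hD, ?_, ?_⟩
      · rw [hD1]
        exact_mod_cast not_lt.1 hc
      · rw [hD1]
        have h5 : n < 2 ^ (i + 1 + 1) := by
          calc n ≤ 2 * K := hn2
            _ < 2 * 2 ^ (i + 1) := by omega
            _ = 2 ^ (i + 1 + 1) := by ring
        exact_mod_cast h5
  have h1 := h i hii
  have h2 := h (i + 1) (by omega)
  have h3 : ({n : ℕ | n ∈ P ∧ K < n ∧ n ≤ 2 * K}.ncard : ℝ) ≤ ((S i).ncard : ℝ) + ((S (i + 1)).ncard : ℝ) := by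
    have h4 := (Set.ncard_le_ncard hsub (((f i).union (f (i + 1))).image _)).trans
      ((Set.ncard_image_le ((f i).union (f (i + 1)))).trans (Set.ncard_union_le _ _))
    exact_mod_cast h4
  have hK0 : (0 : ℝ) < K := by exact_mod_cast hK1
  have hK1' : (1 : ℝ) ≤ K := by exact_mod_cast hK1
  have hiK : ((2 : ℝ) ^ i) ^ s ≤ (K : ℝ) ^ s :=
    Real.rpow_le_rpow (by positivity) (by exact_mod_cast hi1) hs
  have hiK2 : ((2 : ℝ) ^ (i + 1)) ^ s ≤ 2 ^ s * (K : ℝ) ^ s := by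
    rw [pow_succ, mul_comm ((2 : ℝ) ^ i) 2, Real.mul_rpow (by norm_num) (by positivity)]
    exact mul_le_mul_of_nonneg_left hiK (by positivity)
  have h2s : (1 : ℝ) ≤ 2 ^ s := Real.one_le_rpow (by norm_num) hs
  have hKs : 0 ≤ (K : ℝ) ^ s := by positivity
  have e1 : ((S i).ncard : ℝ) ≤ |C₁| * (2 ^ s * (K : ℝ) ^ s) := by
    refine h1.trans ((mul_le_mul_of_nonneg_right (le_abs_self C₁) (by positivity)).trans ?_)
    apply mul_le_mul_of_nonneg_left _ (abs_nonneg _)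
    nlinarith
  have e2 : ((S (i + 1)).ncard : ℝ) ≤ |C₁| * (2 ^ s * (K : ℝ) ^ s) := by
    refine h2.trans ((mul_le_mul_of_nonneg_right (le_abs_self C₁) (by positivity)).trans ?_)
    exact mul_le_mul_of_nonneg_left hiK2 (abs_nonneg _)
  calc ({n : ℕ | n ∈ P ∧ K < n ∧ n ≤ 2 * K}.ncard : ℝ)
      ≤ |C₁| * (2 ^ s * (K : ℝ) ^ s) + |C₁| * (2 ^ s * (K : ℝ) ^ s) := h3.trans (add_le_add e1 e2)
    _ = 2 * |C₁| * 2 ^ s * (K : ℝ) ^ s := by ring
    _ ≤ 2 * |C₁| * 2 ^ s * (K : ℝ) ^ (s + ε) :=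
        mul_le_mul_of_nonneg_left (Real.rpow_le_rpow_of_exponent_le hK1' (by linarith)) (by positivity)

end Pool.Agent.X283.DA
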