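import Pool.Agent.X283.DA.LogAny

/-!
# From dyadic to cumulative counts, logarithmic version; simultaneous approximation with powers of the logarithm
-/

set_option autoImplicit false

open Finset Filter Topology MeasureTheory

namespace Pool.Agent.X283.DA

open scoped ENNReal NNReal

theorem log_half {b : ℝ} (hb : 0 ≤ b) : ∀ᶠ X : ℕ in atTop,
    ((X / 2 + 1 : ℕ) : ℝ) * (Real.log ((X / 2 + 1 : ℕ) : ℝ)) ^ (-b) ≤
      3 / 4 * (X * (Real.log X) ^ (-b)) := by
  have hlog : Tendsto (fun X : ℕ => Real.log (X : ℝ)) atTop atTop :=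
    Real.tendsto_log_atTop.comp tendsto_natCast_atTop_atTop
  have h1 : Tendsto (fun X : ℕ => 1 - Real.log 2 * (Real.log (X : ℝ))⁻¹) atTop (𝓝 1) := by
    simpa using (hlog.inv_tendsto_atTop.const_mul (Real.log 2)).const_sub 1
  have h2 : Tendsto (fun X : ℕ => (1 - Real.log 2 * (Real.log (X : ℝ))⁻¹) ^ (-b)) atTop (𝓝 1) := by
    simpa using h1.rpow_const (p := -b) (Or.inl one_ne_zero)
  have h3 := h2.eventually (gt_mem_nhds (by norm_num : (1 : ℝ) < 5 / 4))
  filter_upwards [h3, eventually_ge_atTop 20] with X hX hX20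
  have hX' : (20 : ℝ) ≤ X := by exact_mod_cast hX20
  have hl2 : 0 < Real.log 2 := Real.log_pos (by norm_num)
  have hlX : 0 < Real.log X := Real.log_pos (by linarith)
  have hlX2 : 0 < Real.log ((X : ℝ) / 2) := Real.log_pos (by linarith)
  have hY1 : ((X / 2 + 1 : ℕ) : ℝ) ≤ 3 / 5 * X := by
    have : ((X / 2 : ℕ) : ℝ) ≤ (X : ℝ) / 2 := Nat.cast_div_le
    push_cast
    linarith
  have hY2 : (X : ℝ) / 2 ≤ ((X / 2 + 1 : ℕ) : ℝ) := by
    have h4 : X ≤ 2 * (X / 2 + 1) := by omega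
    have h5 : (X : ℝ) ≤ 2 * ((X / 2 + 1 : ℕ) : ℝ) := by exact_mod_cast h4
    linarith
  have h6 : Real.log ((X : ℝ) / 2) ≤ Real.log ((X / 2 + 1 : ℕ) : ℝ) :=
    Real.log_le_log (by linarith) hY2
  have h7 : (Real.log ((X / 2 + 1 : ℕ) : ℝ)) ^ (-b) ≤ (Real.log ((X : ℝ) / 2)) ^ (-b) :=
    Real.rpow_le_rpow_of_nonpos hlX2 h6 (by linarith)
  have h8 : (Real.log ((X : ℝ) / 2)) = Real.log X * (1 - Real.log 2 * (Real.log (X : ℝ))⁻¹) := by
    rw [Real.log_div (by linarith) (by norm_num)]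
    field_simp
  have h9 : 0 ≤ 1 - Real.log 2 * (Real.log (X : ℝ))⁻¹ := by
    rw [h8] at hlX2
    exact (pos_of_mul_pos_right hlX2 hlX.le).le
  have h10 : (Real.log ((X : ℝ) / 2)) ^ (-b) ≤ (Real.log X) ^ (-b) * (5 / 4) := by
    rw [h8, Real.mul_rpow hlX.le h9]
    exact mul_le_mul_of_nonneg_left hX.le (Real.rpow_nonneg hlX.le _)
  have h11 : 0 ≤ (Real.log X) ^ (-b) := Real.rpow_nonneg hlX.le _
  calc ((X / 2 + 1 : ℕ) : ℝ) * (Real.log ((X / 2 + 1 : ℕ) : ℝ)) ^ (-b)
      ≤ (3 / 5 * X) * ((Real.log X) ^ (-b) * (5 / 4)) :=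
        mul_le_mul hY1 (h7.trans h10) (Real.rpow_nonneg (hlX2.le.trans h6) _) (by linarith)
    _ = 3 / 4 * (X * (Real.log X) ^ (-b)) := by ring

/-- from dyadic to cumulative bounds -/
theorem LogSparse.of_dyadic {P : Set ℕ} {b : ℝ} (hb : 0 ≤ b) (C : ℝ) (X₀ : ℕ)
    (h : ∀ X : ℕ, X₀ ≤ X → ({t : ℕ | t ∈ P ∧ X ≤ t ∧ t < 2 * X}.ncard : ℝ) ≤
      C * (X * (Real.log X) ^ (-b))) : LogSparse P b := by
  obtain ⟨X₁, hX₁⟩ := eventually_atTop.1 (log_half hb)
  set X₂ : ℕ := X₁ + 2 * X₀ + 20 with hX₂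
  set K : ℝ := 3 * |C| + 2 * (Real.log (X₂ + 3)) ^ b with hK
  have hl0 : 0 < Real.log ((X₂ : ℝ) + 3) := Real.log_pos (by
    have : (0 : ℝ) ≤ X₂ := Nat.cast_nonneg _
    linarith)
  have hK0 : 0 ≤ K := by positivity
  have key : ∀ X : ℕ, 3 ≤ X → ({t : ℕ | t ∈ P ∧ t ≤ X}.ncard : ℝ) ≤
      K * (X * (Real.log X) ^ (-b)) := by
    intro X
    induction X using Nat.strong_induction_on with
    | _ X ih =>
      intro hX3
      have hX3' : (3 : ℝ) ≤ X := by exact_mod_cast hX3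
      have hlX : 0 < Real.log X := Real.log_pos (by linarith)
      by_cases hXX : X < X₂
      · have h1 : ({t : ℕ | t ∈ P ∧ t ≤ X}.ncard : ℝ) ≤ X + 1 := by
          have h2 : {t : ℕ | t ∈ P ∧ t ≤ X} ⊆ ((Finset.range (X + 1) : Finset ℕ) : Set ℕ) := by
            rintro t ⟨-, ht⟩
            rw [Finset.mem_coe, Finset.mem_range]
            omega
          have h3 := Set.ncard_le_ncard h2 (Finset.finite_toSet _)
          rw [Set.ncard_coe_finset, Finset.card_range] at h3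
          exact_mod_cast h3
        have h4 : Real.log X ≤ Real.log ((X₂ : ℝ) + 3) := by
          apply Real.log_le_log (by linarith)
          have : (X : ℝ) ≤ X₂ := by exact_mod_cast hXX.le
          linarith
        have h5 : 1 ≤ (Real.log ((X₂ : ℝ) + 3)) ^ b * (Real.log X) ^ (-b) := by
          calc (1 : ℝ) = (Real.log X) ^ b * (Real.log X) ^ (-b) := by
                rw [← Real.rpow_add hlX, add_neg_cancel, Real.rpow_zero]
            _ ≤ _ := mul_le_mul_of_nonneg_right (Real.rpow_le_rpow hlX.le h4 hb)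
                (Real.rpow_nonneg hlX.le _)
        have h6 : 0 ≤ (Real.log X) ^ (-b) := Real.rpow_nonneg hlX.le _
        calc ({t : ℕ | t ∈ P ∧ t ≤ X}.ncard : ℝ) ≤ X + 1 := h1
          _ ≤ 2 * X * 1 := by linarith
          _ ≤ 2 * X * ((Real.log ((X₂ : ℝ) + 3)) ^ b * (Real.log X) ^ (-b)) :=
              mul_le_mul_of_nonneg_left h5 (by linarith)
          _ = (2 * (Real.log ((X₂ : ℝ) + 3)) ^ b) * (X * (Real.log X) ^ (-b)) := by ring
          _ ≤ K * (X * (Real.log X) ^ (-b)) := by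
              apply mul_le_mul_of_nonneg_right _ (by positivity)
              rw [hK]
              linarith [abs_nonneg C]
      · push Not at hXX
        set Y : ℕ := X / 2 + 1 with hY
        have hY3 : 3 ≤ Y := by omega
        have hYX : Y < X := by omega
        have hY0 : X₀ ≤ Y := by omega
        have i1 := ih Y hYX hY3
        have i2 := h Y hY0
        have i3 := hX₁ X (by omega)
        rw [← hY] at i3
        have hY3' : (3 : ℝ) ≤ Y := by exact_mod_cast hY3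
        have hlY : 0 < Real.log Y := Real.log_pos (by linarith)
        have i4 : 0 ≤ (Y : ℝ) * (Real.log Y) ^ (-b) := by positivity
        have hsub : {t : ℕ | t ∈ P ∧ t ≤ X} ⊆
            {t : ℕ | t ∈ P ∧ t ≤ Y} ∪ {t : ℕ | t ∈ P ∧ Y ≤ t ∧ t < 2 * Y} := by
          rintro t ⟨h1, h2⟩
          rcases le_total t Y with h3 | h3
          · exact Or.inl ⟨h1, h3⟩
          · exact Or.inr ⟨h1, h3, by omega⟩
        have hfin : ({t : ℕ | t ∈ P ∧ t ≤ Y} ∪ {t : ℕ | t ∈ P ∧ Y ≤ t ∧ t < 2 * Y}).Finite := by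
          apply (Set.finite_Iic (2 * Y)).subset
          rintro t (⟨_, h2⟩ | ⟨_, _, h2⟩)
          · rw [Set.mem_Iic]; omega
          · rw [Set.mem_Iic]; omega
        have i5 : ({t : ℕ | t ∈ P ∧ t ≤ X}.ncard : ℝ) ≤ ({t : ℕ | t ∈ P ∧ t ≤ Y}.ncard : ℝ) +
            ({t : ℕ | t ∈ P ∧ Y ≤ t ∧ t < 2 * Y}.ncard : ℝ) := by
          exact_mod_cast (Set.ncard_le_ncard hsub hfin).trans (Set.ncard_union_le _ _)
        have i6 : C * (Y * (Real.log Y) ^ (-b)) ≤ |C| * (Y * (Real.log Y) ^ (-b)) :=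
          mul_le_mul_of_nonneg_right (le_abs_self C) i4
        have i7 : (K + |C|) * (Y * (Real.log Y) ^ (-b)) ≤
            (K + |C|) * (3 / 4 * (X * (Real.log X) ^ (-b))) :=
          mul_le_mul_of_nonneg_left i3 (by positivity)
        have i8 : (K + |C|) * (3 / 4) ≤ K := by
          have : 0 ≤ 2 * (Real.log ((X₂ : ℝ) + 3)) ^ b := by positivity
          rw [hK]
          linarith [abs_nonneg C]
        have i9 : 0 ≤ (X : ℝ) * (Real.log X) ^ (-b) := by positivity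
        have i10 := mul_le_mul_of_nonneg_right i8 i9
        linarith
  refine ⟨K, hK0, fun X hX => ?_⟩
  rw [mul_assoc]
  exact key X hX

/-- simultaneous approximation, a fixed power of the logarithm -/
theorem ae_simultaneous_pow {P : Set ℕ} (d B : ℕ) (hP : LogSparse P (d * B + 2))
    (θ y : Fin d → ℝ) (hθ : ∀ i, 0 < θ i) (hθs : ∑ i, θ i = 1) :
    ∀ᵐ x : Fin d → ℝ, ∃ q₀ : ℕ, ∀ q : ℕ, q₀ ≤ q →
      (∀ i, ∃ p : ℤ, |(q : ℝ) * x i - p - y i| ≤ (q : ℝ) ^ (-θ i) * (Real.log q) ^ B) → q ∉ P := by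
  classical
  have hP' := hP
  have hsmall : ∀ᶠ q : ℕ in atTop, ∀ i, (q : ℝ) ^ (-θ i) * (Real.log q) ^ B ≤ 1 := by
    rw [eventually_all]
    intro i
    have h1 : Tendsto (fun x : ℝ => Real.log x ^ (B : ℝ) / x ^ (θ i)) atTop (𝓝 0) :=
      (isLittleO_log_rpow_rpow_atTop (B : ℝ) (hθ i)).tendsto_div_nhds_zero
    have h2 := (h1.comp tendsto_natCast_atTop_atTop).eventually (gt_mem_nhds one_pos)
    filter_upwards [h2, eventually_ge_atTop 1] with q hq hq1
    have hq0 : (0 : ℝ) < q := by exact_mod_cast hq1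
    have hq' : Real.log (q : ℝ) ^ (B : ℝ) / (q : ℝ) ^ (θ i) < 1 := hq
    rw [Real.rpow_natCast] at hq'
    rw [Real.rpow_neg hq0.le, inv_mul_eq_div]
    exact hq'.le
  obtain ⟨q₁, hq₁⟩ := eventually_atTop.1 hsmall
  have key : ∀ N : ℕ, ∀ᵐ x : Fin d → ℝ, (∀ i, |x i| ≤ N) → ∃ q₀ : ℕ, ∀ q : ℕ, q₀ ≤ q →
      (∀ i, ∃ p : ℤ, |(q : ℝ) * x i - p - y i| ≤ (q : ℝ) ^ (-θ i) * (Real.log q) ^ B) →
        q ∉ P := by
    intro N
    set A : ℕ → Set (Fin d → ℝ) := fun q =>
      if (q ∈ P ∧ 3 ≤ q) ∧ q₁ ≤ q then Set.pi Set.univ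
        (fun i => nearR N (y i) ((q : ℝ) ^ (-θ i) * (Real.log q) ^ B) q) else ∅ with hA
    have hsm := (summable_log_pos (B := (d * B : ℝ)) (by positivity) hP' (by linarith)).mul_left
      ((4 * (N : ℝ) + 10) ^ d)
    have hvol : ∀ q, volume (A q) ≤ ENNReal.ofReal ((4 * (N : ℝ) + 10) ^ d *
        (if q ∈ P ∧ 3 ≤ q then 1 / (q : ℝ) * (Real.log q) ^ (d * B : ℝ) else 0)) := by
      intro q
      rw [hA]
      dsimp only
      by_cases hq : (q ∈ P ∧ 3 ≤ q) ∧ q₁ ≤ q
      · rw [if_pos hq, if_pos hq.1, MeasureTheory.volume_pi_pi]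
        have hq3 : (3 : ℝ) ≤ q := by exact_mod_cast hq.1.2
        have hq' : (0 : ℝ) < q := by linarith
        have hl0 : 0 < Real.log q := Real.log_pos (by linarith)
        have hr0 : ∀ i, 0 ≤ (q : ℝ) ^ (-θ i) * (Real.log q) ^ B := fun i => by positivity
        calc ∏ i, volume (nearR N (y i) ((q : ℝ) ^ (-θ i) * (Real.log q) ^ B) q)
            ≤ ∏ i, ENNReal.ofReal ((4 * (N : ℝ) + 10) * ((q : ℝ) ^ (-θ i) * (Real.log q) ^ B)) :=
              Finset.prod_le_prod' fun i _ =>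
                volume_nearR (Nat.cast_nonneg N) (hr0 i) (hq₁ q hq.2 i) (by omega)
          _ = ENNReal.ofReal (∏ i, ((4 * (N : ℝ) + 10) * ((q : ℝ) ^ (-θ i) * (Real.log q) ^ B))) := by
              rw [ENNReal.ofReal_prod_of_nonneg]
              intro i _
              positivity
          _ = _ := by
              have e5 : (Real.log q) ^ (d * B : ℝ) = (Real.log q) ^ (B * d) := by
                rw [← Real.rpow_natCast]
                push_cast
                ring_nf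
              rw [Finset.prod_mul_distrib, Finset.prod_const, Finset.card_univ, Fintype.card_fin,
                Finset.prod_mul_distrib, ← Real.rpow_sum_of_pos hq', Finset.sum_neg_distrib, hθs,
                Real.rpow_neg_one, one_div, Finset.prod_const, Finset.card_univ, Fintype.card_fin,
                ← pow_mul, e5]
      · rw [if_neg hq]
        simp
    have hne : ∑' q, volume (A q) ≠ ∞ := by
      refine ne_top_of_le_ne_top ?_ (ENNReal.tsum_le_tsum hvol)
      exact hsm.tsum_ofReal_ne_top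
    have h0 := measure_limsup_atTop_eq_zero hne
    have h1 : ∀ᵐ x : Fin d → ℝ, x ∉ limsup A atTop := by
      rw [ae_iff]
      simpa using h0
    filter_upwards [h1] with x hx hxN
    rw [limsup_eq_iInf_iSup_of_nat] at hx
    simp only [Set.iInf_eq_iInter, Set.iSup_eq_iUnion, Set.mem_iInter, Set.mem_iUnion,
      not_forall, not_exists] at hx
    obtain ⟨n, hn⟩ := hx
    refine ⟨max n (max 3 q₁), fun q hq hcl hqP => ?_⟩
    refine hn q ((le_max_left _ _).trans hq) ?_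
    rw [hA]
    dsimp only
    rw [if_pos ⟨⟨hqP, ((le_max_left _ _).trans (le_max_right _ _)).trans hq⟩,
      ((le_max_right _ _).trans (le_max_right _ _)).trans hq⟩]
    exact fun i _ => ⟨hxN i, hcl i⟩
  filter_upwards [ae_all_iff.2 key] with x hx
  obtain ⟨N, hN⟩ := exists_nat_ge (∑ i, |x i|)
  exact hx N fun i => (Finset.single_le_sum (fun j _ => abs_nonneg (x j)) (Finset.mem_univ i)).trans hN

/-- the integers `q` in `[X, 2X)` such that all `t ∈ [q, q + 1)` are in `E`: at most `vol(E ∩ [X, 2X])` -/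
theorem card_of_volume {E : Set ℝ} {P : Set ℕ} {X : ℕ} {V : ℝ} (hV : 0 ≤ V)
    (h : ∀ q ∈ P, X ≤ q → q < 2 * X → ∀ t : ℝ, (q : ℝ) ≤ t → t < q + 1 → t ∈ E)
    (hE : volume (E ∩ Set.Icc (X : ℝ) (2 * X)) ≤ ENNReal.ofReal V) :
    ({t : ℕ | t ∈ P ∧ X ≤ t ∧ t < 2 * X}.ncard : ℝ) ≤ V := by
  classical
  set F : Finset ℕ := (Finset.Ico X (2 * X)).filter (fun q => q ∈ P) with hF
  have hset : {t : ℕ | t ∈ P ∧ X ≤ t ∧ t < 2 * X} = (F : Set ℕ) := by
    ext q
    simp only [hF, Set.mem_ofPred_eq, Finset.coe_filter, Finset.mem_Ico]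
    tauto
  rw [hset, Set.ncard_coe_finset]
  have hsub : (⋃ q ∈ F, Set.Ico (q : ℝ) (q + 1)) ⊆ E ∩ Set.Icc (X : ℝ) (2 * X) := by
    intro t ht
    simp only [Set.mem_iUnion] at ht
    obtain ⟨q, hq, ht1, ht2⟩ := ht
    rw [hF, Finset.mem_filter, Finset.mem_Ico] at hq
    obtain ⟨⟨hq1, hq2⟩, hq3⟩ := hq
    refine ⟨h q hq3 hq1 hq2 t ht1 ht2, ?_, ?_⟩
    · have : (X : ℝ) ≤ q := by exact_mod_cast hq1
      linarith
    · have : (q : ℝ) + 1 ≤ 2 * X := by exact_mod_cast hq2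
      linarith
  have hvol : volume (⋃ q ∈ F, Set.Ico (q : ℝ) (q + 1)) = (F.card : ℝ≥0∞) := by
    rw [measure_biUnion_finset]
    · simp
    · intro p _ q _ hpq
      rw [Function.onFun, Set.disjoint_left]
      rintro t ⟨h1, h2⟩ ⟨h3, h4⟩
      apply hpq
      have e1 : (p : ℝ) < q + 1 := by linarith
      have e2 : (q : ℝ) < p + 1 := by linarith
      have e3 : p < q + 1 := by exact_mod_cast e1
      have e4 : q < p + 1 := by exact_mod_cast e2
      omega
    · intro q _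
      exact measurableSet_Ico
  have h1 : (F.card : ℝ≥0∞) ≤ ENNReal.ofReal V := by
    rw [← hvol]
    exact (measure_mono hsub).trans hE
  rw [← ENNReal.ofReal_natCast, ENNReal.ofReal_le_ofReal_iff hV] at h1
  exact h1

end Pool.Agent.X283.DA
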