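import Mathlib

/-!
# Denominators of good rational approximations avoid sparse sets

Let `P` be a set of natural numbers with at most `C X ^ (s + ε)` elements up to `X`. The set of the
real numbers `x` such that `‖q x - y‖ ≤ q ^ (-θ)` for infinitely many `q ∈ P` has Hausdorff dimension
at most `(1 + s) / (1 + θ)`; for `θ₁ + ... + θ_d > s` the set of the `x ∈ ℝ ^ d` such that
`‖q x_i - y_i‖ ≤ q ^ (-θ_i)` for all `i`, for infinitely many `q ∈ P`, has measure zero.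
-/

set_option autoImplicit false

open Finset Filter Topology MeasureTheory

namespace Pool.Agent.X283.DA

open scoped ENNReal NNReal

/-- at most `C X ^ (s + ε)` elements up to `X` -/
def Sparse (P : Set ℕ) (s : ℝ) : Prop :=
  ∀ ε : ℝ, 0 < ε → ∃ C : ℝ, ∀ X : ℝ, 1 ≤ X → {t : ℕ | t ∈ P ∧ (t : ℝ) ≤ X}.Finite ∧
    ({t : ℕ | t ∈ P ∧ (t : ℝ) ≤ X}.ncard : ℝ) ≤ C * X ^ (s + ε)

open Classical in
/-- the sum of `q ^ (-D)` over a sparse set converges for `D > s` -/
theorem summable_sparse {P : Set ℕ} {s : ℝ} (hs : 0 ≤ s) (hP : Sparse P s) {D : ℝ} (hD : s < D) :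
    Summable (fun q : ℕ => if q ∈ P ∧ 1 ≤ q then (q : ℝ) ^ (-D) else 0) := by
  obtain ⟨C, hC⟩ := hP ((D - s) / 2) (by linarith)
  set f : ℕ → ℝ := fun q => if q ∈ P ∧ 1 ≤ q then (q : ℝ) ^ (-D) else 0 with hf
  have hf0 : ∀ q, 0 ≤ f q := by
    intro q
    rw [hf]
    dsimp only
    split_ifs
    · positivity
    · exact le_rfl
  have hD0 : 0 < D := by linarith
  set e : ℝ := (D - s) / 2 with he
  have he0 : 0 < e := by rw [he]; linarith
  -- dyadic blocks
  have hblock : ∀ k : ℕ, ∑ q ∈ Finset.Ico (2 ^ k) (2 ^ (k + 1)), f q ≤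
      (|C| * (2 : ℝ) ^ (s + e)) * ((2 : ℝ) ^ (-e)) ^ k := by
    intro k
    have h2k : (0 : ℝ) < (2 : ℝ) ^ k := by positivity
    have hX := hC ((2 : ℝ) ^ (k + 1)) (one_le_pow₀ (by norm_num))
    have h1 : ∑ q ∈ Finset.Ico (2 ^ k) (2 ^ (k + 1)), f q ≤
        ((Finset.Ico (2 ^ k) (2 ^ (k + 1))).filter (fun q => q ∈ P)).card * ((2 : ℝ) ^ k) ^ (-D) := by
      rw [Finset.card_eq_sum_ones, Nat.cast_sum, Finset.sum_mul, Finset.sum_filter]
      refine Finset.sum_le_sum fun q hq => ?_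
      rw [Finset.mem_Ico] at hq
      have hq1 : (2 : ℝ) ^ k ≤ q := by exact_mod_cast hq.1
      rw [hf]
      dsimp only
      by_cases hqP : q ∈ P
      · rw [if_pos hqP]
        split_ifs
        · rw [Nat.cast_one, one_mul]
          exact Real.rpow_le_rpow_of_nonpos h2k hq1 (by linarith)
        · positivity
      · rw [if_neg (fun h => hqP h.1), if_neg hqP]
    have h2 : (((Finset.Ico (2 ^ k) (2 ^ (k + 1))).filter (fun q => q ∈ P)).card : ℝ) ≤
        |C| * ((2 : ℝ) ^ (k + 1)) ^ (s + e) := by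
      refine le_trans ?_ (hX.2.trans (mul_le_mul_of_nonneg_right (le_abs_self C) (by positivity)))
      rw [← Set.ncard_coe_finset]
      refine Nat.cast_le.2 (Set.ncard_le_ncard ?_ hX.1)
      intro q hq
      rw [Finset.mem_coe, Finset.mem_filter, Finset.mem_Ico] at hq
      refine ⟨hq.2, ?_⟩
      exact_mod_cast hq.1.2.le
    refine h1.trans ((mul_le_mul_of_nonneg_right h2 (by positivity)).trans (le_of_eq ?_))
    have e1 : ((2 : ℝ) ^ (k + 1)) ^ (s + e) = (2 : ℝ) ^ (s + e) * ((2 : ℝ) ^ k) ^ (s + e) := by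
      rw [pow_succ, mul_comm, Real.mul_rpow (by norm_num) h2k.le]
    have e2 : ((2 : ℝ) ^ k) ^ (s + e) * ((2 : ℝ) ^ k) ^ (-D) = ((2 : ℝ) ^ (-e)) ^ k := by
      rw [← Real.rpow_add h2k]
      have : s + e + -D = -e := by rw [he]; ring
      rw [this, ← Real.rpow_natCast, ← Real.rpow_mul (by norm_num), ← Real.rpow_natCast,
        ← Real.rpow_mul (by norm_num)]
      ring_nf
    rw [e1]
    calc |C| * ((2 : ℝ) ^ (s + e) * ((2 : ℝ) ^ k) ^ (s + e)) * ((2 : ℝ) ^ k) ^ (-D)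
        = |C| * (2 : ℝ) ^ (s + e) * (((2 : ℝ) ^ k) ^ (s + e) * ((2 : ℝ) ^ k) ^ (-D)) := by ring
      _ = _ := by rw [e2]
  have hr : (2 : ℝ) ^ (-e) < 1 := Real.rpow_lt_one_of_one_lt_of_neg (by norm_num) (by linarith)
  have hr0 : (0 : ℝ) ≤ (2 : ℝ) ^ (-e) := by positivity
  set B : ℝ := ∑' k : ℕ, (|C| * (2 : ℝ) ^ (s + e)) * ((2 : ℝ) ^ (-e)) ^ k with hB
  have hsum : Summable (fun k : ℕ => (|C| * (2 : ℝ) ^ (s + e)) * ((2 : ℝ) ^ (-e)) ^ k) :=
    (summable_geometric_of_lt_one hr0 hr).mul_left _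
  refine summable_of_sum_range_le (c := B) hf0 fun n => ?_
  -- compare with a dyadic range
  have h3 : ∀ K : ℕ, ∑ q ∈ Finset.range (2 ^ K), f q ≤
      ∑ k ∈ Finset.range K, (|C| * (2 : ℝ) ^ (s + e)) * ((2 : ℝ) ^ (-e)) ^ k := by
    intro K
    induction K with
    | zero =>
      simp only [pow_zero, Finset.range_one, Finset.sum_singleton, Finset.range_zero,
        Finset.sum_empty]
      rw [hf]
      simp
    | succ K ih =>
      rw [Finset.sum_range_succ, ← Finset.sum_range_add_sum_Ico f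
        (Nat.pow_le_pow_right (by norm_num) (Nat.le_succ K) : 2 ^ K ≤ 2 ^ (K + 1))]
      exact add_le_add ih (hblock K)
  have h4 : n ≤ 2 ^ n := Nat.lt_two_pow_self.le
  calc ∑ q ∈ Finset.range n, f q ≤ ∑ q ∈ Finset.range (2 ^ n), f q :=
        Finset.sum_le_sum_of_subset_of_nonneg (Finset.range_mono h4) fun q _ _ => hf0 q
    _ ≤ ∑ k ∈ Finset.range n, (|C| * (2 : ℝ) ^ (s + e)) * ((2 : ℝ) ^ (-e)) ^ k := h3 n
    _ ≤ B := hsum.sum_le_tsum _ fun k _ => by positivity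

end Pool.Agent.X283.DA
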