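import Mathlib

/-!
# Sets with `O(X (log X) ^ (-b))` elements: windows of logarithmic length around fast sequences
-/

set_option autoImplicit false

open Finset Filter Topology MeasureTheory

namespace Pool.Agent.X283.DA

open scoped ENNReal NNReal

/-- at most `C X (log X) ^ (-b)` elements up to `X` -/
def LogSparse (P : Set ℕ) (b : ℝ) : Prop :=
  ∃ C : ℝ, 0 ≤ C ∧ ∀ X : ℕ, 3 ≤ X →
    ({t : ℕ | t ∈ P ∧ t ≤ X}.ncard : ℝ) ≤ C * X * (Real.log X) ^ (-b)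

theorem sum_recip {P : Set ℕ} {b C : ℝ} (hb : 0 ≤ b) (hC0 : 0 ≤ C)
    (hC : ∀ X : ℕ, 3 ≤ X → ({t : ℕ | t ∈ P ∧ t ≤ X}.ncard : ℝ) ≤ C * X * (Real.log X) ^ (-b))
    {Y : ℝ} (hY : 3 ≤ Y) (J : ℕ) (F : Finset ℕ)
    (hF : ∀ A ∈ F, A ∈ P ∧ Y ≤ A ∧ (A : ℝ) < 2 ^ J * Y) :
    ∑ A ∈ F, 1 / (A : ℝ) ≤ J * (2 * C * (Real.log Y) ^ (-b)) := by
  classical
  have hY0 : (0 : ℝ) < Y := by linarith
  have hlY : 0 < Real.log Y := Real.log_pos (by linarith)
  induction J generalizing F with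
  | zero =>
    have : F = ∅ := by
      rw [Finset.eq_empty_iff_forall_notMem]
      intro A hA
      obtain ⟨-, h1, h2⟩ := hF A hA
      rw [pow_zero, one_mul] at h2
      linarith
    rw [this]
    simp
  | succ J ih =>
    set F1 := F.filter (fun A : ℕ => (A : ℝ) < 2 ^ J * Y) with hF1
    set F2 := F.filter (fun A : ℕ => ¬ (A : ℝ) < 2 ^ J * Y) with hF2
    have h1 : ∑ A ∈ F1, 1 / (A : ℝ) ≤ J * (2 * C * (Real.log Y) ^ (-b)) := by
      refine ih F1 fun A hA => ?_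
      rw [hF1, Finset.mem_filter] at hA
      obtain ⟨h1, h2, -⟩ := hF A hA.1
      exact ⟨h1, h2, hA.2⟩
    have h2Y : (0 : ℝ) < 2 ^ J * Y := by positivity
    have h2 : ∑ A ∈ F2, 1 / (A : ℝ) ≤ 2 * C * (Real.log Y) ^ (-b) := by
      have h3 : ∑ A ∈ F2, 1 / (A : ℝ) ≤ F2.card * (1 / (2 ^ J * Y)) := by
        rw [← nsmul_eq_mul]
        refine Finset.sum_le_card_nsmul _ _ _ fun A hA => ?_
        rw [hF2, Finset.mem_filter] at hA
        exact one_div_le_one_div_of_le h2Y (not_lt.1 hA.2)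
      set X : ℕ := ⌊(2 : ℝ) ^ (J + 1) * Y⌋₊ with hX
      have hXY : Y ≤ (X : ℝ) := by
        have h4 := Nat.lt_floor_add_one ((2 : ℝ) ^ (J + 1) * Y)
        rw [← hX] at h4
        have h5 : 2 * Y ≤ (2 : ℝ) ^ (J + 1) * Y := by
          apply mul_le_mul_of_nonneg_right _ hY0.le
          calc (2 : ℝ) = 2 ^ 1 := by norm_num
            _ ≤ 2 ^ (J + 1) := pow_le_pow_right₀ (by norm_num) (by omega)
        linarith
      have hX3 : 3 ≤ X := by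
        have : (3 : ℝ) ≤ X := hY.trans hXY
        exact_mod_cast this
      have hXle : (X : ℝ) ≤ 2 ^ (J + 1) * Y := Nat.floor_le (by positivity)
      have h4 : (F2.card : ℝ) ≤ C * X * (Real.log X) ^ (-b) := by
        refine le_trans ?_ (hC X hX3)
        rw [← Set.ncard_coe_finset]
        refine Nat.cast_le.2 (Set.ncard_le_ncard ?_ ((Set.finite_Iic X).subset fun t ht => ht.2))
        intro A hA
        rw [Finset.mem_coe, hF2, Finset.mem_filter] at hA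
        obtain ⟨h5, -, h6⟩ := hF A hA.1
        exact ⟨h5, Nat.le_floor h6.le⟩
      have h5 : (Real.log X) ^ (-b) ≤ (Real.log Y) ^ (-b) :=
        Real.rpow_le_rpow_of_nonpos hlY (Real.log_le_log hY0 hXY) (by linarith)
      calc ∑ A ∈ F2, 1 / (A : ℝ) ≤ F2.card * (1 / (2 ^ J * Y)) := h3
        _ ≤ (C * X * (Real.log X) ^ (-b)) * (1 / (2 ^ J * Y)) :=
            mul_le_mul_of_nonneg_right h4 (by positivity)
        _ ≤ (C * (2 ^ (J + 1) * Y) * (Real.log Y) ^ (-b)) * (1 / (2 ^ J * Y)) := by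
            apply mul_le_mul_of_nonneg_right _ (by positivity)
            apply mul_le_mul (mul_le_mul_of_nonneg_left hXle hC0) h5 _ (by positivity)
            apply Real.rpow_nonneg
            exact hlY.le.trans (Real.log_le_log hY0 hXY)
        _ = 2 * C * (Real.log Y) ^ (-b) := by
            rw [pow_succ]
            field_simp
    have h6 : ∑ A ∈ F, 1 / (A : ℝ) = ∑ A ∈ F1, 1 / (A : ℝ) + ∑ A ∈ F2, 1 / (A : ℝ) :=
      (Finset.sum_filter_add_sum_filter_not F _ _).symm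
    rw [h6]
    push_cast
    linarith

/-- the set of the `x` with `|A - w x| ≤ r` is short -/
theorem vol_one {lo hi lam r : ℝ} {w : ℝ → ℝ} (hlam : 0 < lam) (hr : 0 ≤ r)
    (hw : ∀ x ∈ Set.Icc lo hi, ∀ y ∈ Set.Icc lo hi, x ≤ y → lam * w x * (y - x) ≤ w y - w x)
    {A : ℕ} (hA : 0 < A) (hrA : 2 * r ≤ A) :
    volume {x : ℝ | x ∈ Set.Icc lo hi ∧ |(A : ℝ) - w x| ≤ r} ≤ ENNReal.ofReal (4 * r / lam * (1 / A)) := by
  have hA0 : (0 : ℝ) < A := by exact_mod_cast hA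
  refine (Real.volume_le_diam _).trans (Metric.ediam_le ?_)
  have key : ∀ x ∈ {x : ℝ | x ∈ Set.Icc lo hi ∧ |(A : ℝ) - w x| ≤ r},
      ∀ y ∈ {x : ℝ | x ∈ Set.Icc lo hi ∧ |(A : ℝ) - w x| ≤ r}, x ≤ y → y - x ≤ 4 * r / lam * (1 / A) := by
    rintro x ⟨hx, hx1⟩ y ⟨hy, hy1⟩ hxy
    obtain ⟨a1, a2⟩ := abs_le.1 hx1
    obtain ⟨a3, a4⟩ := abs_le.1 hy1
    have h1 := hw x hx y hy hxy
    have h2 : (A : ℝ) / 2 ≤ w x := by linarith
    have h3 : lam * (A / 2) * (y - x) ≤ 2 * r := by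
      have h4 : lam * (A / 2) * (y - x) ≤ lam * w x * (y - x) := by
        apply mul_le_mul_of_nonneg_right _ (by linarith)
        exact mul_le_mul_of_nonneg_left h2 hlam.le
      linarith
    rw [mul_one_div, le_div_iff₀ hA0, le_div_iff₀ hlam]
    nlinarith
  intro x hx y hy
  rw [edist_dist, Real.dist_eq]
  apply ENNReal.ofReal_le_ofReal
  rcases le_total x y with h | h
  · rw [abs_sub_comm, abs_of_nonneg (by linarith)]
    exact key x hx y hy h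
  · rw [abs_of_nonneg (by linarith)]
    exact key y hy x hx h

/-- the set of the `x` such that some `A ∈ P` is within `r` of `w x` -/
theorem vol_bad {P : Set ℕ} {b C : ℝ} (hb : 0 ≤ b) (hC0 : 0 ≤ C)
    (hC : ∀ X : ℕ, 3 ≤ X → ({t : ℕ | t ∈ P ∧ t ≤ X}.ncard : ℝ) ≤ C * X * (Real.log X) ^ (-b))
    {lo hi lam r Y : ℝ} {w : ℝ → ℝ} (J : ℕ) (hlam : 0 < lam) (hr : 0 ≤ r) (hY : 3 ≤ Y)
    (hrY : 2 * r ≤ Y) (hw1 : ∀ x ∈ Set.Icc lo hi, Y + r ≤ w x)
    (hw2 : ∀ x ∈ Set.Icc lo hi, w x + r < 2 ^ J * Y)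
    (hw : ∀ x ∈ Set.Icc lo hi, ∀ y ∈ Set.Icc lo hi, x ≤ y → lam * w x * (y - x) ≤ w y - w x) :
    volume {x : ℝ | x ∈ Set.Icc lo hi ∧ ∃ A ∈ P, |(A : ℝ) - w x| ≤ r} ≤
      ENNReal.ofReal (4 * r / lam * (J * (2 * C * (Real.log Y) ^ (-b)))) := by
  classical
  set F : Finset ℕ := (Finset.range (⌊(2 : ℝ) ^ J * Y⌋₊ + 1)).filter
    (fun A : ℕ => A ∈ P ∧ Y ≤ A ∧ (A : ℝ) < 2 ^ J * Y) with hF
  have hsub : {x : ℝ | x ∈ Set.Icc lo hi ∧ ∃ A ∈ P, |(A : ℝ) - w x| ≤ r} ⊆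
      ⋃ A ∈ F, {x : ℝ | x ∈ Set.Icc lo hi ∧ |(A : ℝ) - w x| ≤ r} := by
    rintro x ⟨hx, A, hA, hAx⟩
    refine Set.mem_biUnion (x := A) ?_ ⟨hx, hAx⟩
    have h1 := hw1 x hx
    have h2 := hw2 x hx
    obtain ⟨a1, a2⟩ := abs_le.1 hAx
    have h3 : (A : ℝ) < 2 ^ J * Y := by linarith
    rw [Finset.mem_coe, hF, Finset.mem_filter, Finset.mem_range]
    exact ⟨Nat.lt_succ_of_le (Nat.le_floor h3.le), hA, by linarith, h3⟩
  have hFm : ∀ A ∈ F, A ∈ P ∧ Y ≤ A ∧ (A : ℝ) < 2 ^ J * Y := by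
    intro A hA
    rw [hF, Finset.mem_filter] at hA
    exact hA.2
  calc volume {x : ℝ | x ∈ Set.Icc lo hi ∧ ∃ A ∈ P, |(A : ℝ) - w x| ≤ r}
      ≤ volume (⋃ A ∈ F, {x : ℝ | x ∈ Set.Icc lo hi ∧ |(A : ℝ) - w x| ≤ r}) := measure_mono hsub
    _ ≤ ∑ A ∈ F, volume {x : ℝ | x ∈ Set.Icc lo hi ∧ |(A : ℝ) - w x| ≤ r} :=
        measure_biUnion_finset_le _ _
    _ ≤ ∑ A ∈ F, ENNReal.ofReal (4 * r / lam * (1 / A)) := by
        refine Finset.sum_le_sum fun A hA => ?_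
        obtain ⟨-, h1, -⟩ := hFm A hA
        have hA0 : 0 < A := by
          have : (0 : ℝ) < A := by linarith
          exact_mod_cast this
        exact vol_one hlam hr hw hA0 (by linarith)
    _ = ENNReal.ofReal (4 * r / lam * ∑ A ∈ F, 1 / (A : ℝ)) := by
        rw [← ENNReal.ofReal_sum_of_nonneg (fun A _ => by positivity), Finset.mul_sum]
    _ ≤ _ := by
        apply ENNReal.ofReal_le_ofReal
        exact mul_le_mul_of_nonneg_left (sum_recip hb hC0 hC hY J F hFm) (by positivity)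

end Pool.Agent.X283.DA
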