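import Pool.Agent.X283.DA.LogA

/-!
# Sets with `O(X (log X) ^ (-b))` elements: real powers and dilates of fast sequences
-/

set_option autoImplicit false

open Finset Filter Topology MeasureTheory

namespace Pool.Agent.X283.DA

open scoped ENNReal NNReal

/-- Borel-Cantelli -/
theorem bc {S : ℕ → Set ℝ} {f : ℕ → ℝ} (hf : Summable f) (n₀ : ℕ)
    (h : ∀ n : ℕ, n₀ ≤ n → volume (S n) ≤ ENNReal.ofReal (f n)) :
    ∀ᵐ x : ℝ, ∃ n₁ : ℕ, ∀ n : ℕ, n₁ ≤ n → x ∉ S n := by
  have hf' : Summable (fun n => f (n + n₀)) := (summable_nat_add_iff n₀).2 hf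
  have hne : ∑' n, volume (S (n + n₀)) ≠ ∞ :=
    ne_top_of_le_ne_top hf'.tsum_ofReal_ne_top (ENNReal.tsum_le_tsum fun n => h (n + n₀) (by omega))
  have h0 := measure_limsup_atTop_eq_zero hne
  have h1 : ∀ᵐ x : ℝ, x ∉ limsup (fun n => S (n + n₀)) atTop := by
    rw [ae_iff]
    simpa using h0
  filter_upwards [h1] with x hx
  rw [limsup_eq_iInf_iSup_of_nat] at hx
  simp only [Set.iInf_eq_iInter, Set.iSup_eq_iUnion, Set.mem_iInter, Set.mem_iUnion,
    not_forall, not_exists] at hx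
  obtain ⟨n, hn⟩ := hx
  refine ⟨n + n₀, fun m hm => ?_⟩
  have := hn (m - n₀) (by omega)
  rwa [Nat.sub_add_cancel (by omega)] at this

theorem rpow_expand {hi κ : ℝ} (hκ : 1 ≤ κ) {x y : ℝ} (hx : 0 < x) (hxy : x ≤ y)
    (hxhi : x ≤ hi) : κ / hi * x ^ κ * (y - x) ≤ y ^ κ - x ^ κ := by
  have hhi : 0 < hi := hx.trans_le hxhi
  have h1 : 1 + κ * ((y - x) / x) ≤ (1 + (y - x) / x) ^ κ :=
    one_add_mul_self_le_rpow_one_add (by
      have : 0 ≤ (y - x) / x := div_nonneg (by linarith) hx.le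
      linarith) hκ
  have h2 : 1 + (y - x) / x = y / x := by
    field_simp
    ring
  rw [h2, Real.div_rpow (hx.le.trans hxy) hx.le] at h1
  have hxk : 0 < x ^ κ := Real.rpow_pos_of_pos hx κ
  rw [le_div_iff₀ hxk] at h1
  have h3 : κ / hi * (y - x) ≤ κ * ((y - x) / x) := by
    rw [div_mul_eq_mul_div, mul_div_assoc]
    apply mul_le_mul_of_nonneg_left _ (by linarith)
    exact div_le_div_of_nonneg_left (by linarith) hx hxhi
  nlinarith

/-- one interval of `t`, real powers -/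
theorem ae_pow_log {P : Set ℕ} {b : ℝ} (hb : 0 ≤ b) (hP : LogSparse P b) (κ : ℕ → ℝ) {θ u : ℝ}
    (hκ : Tendsto κ atTop atTop) (hθ : 0 ≤ θ) (hu : θ - b ≤ -u)
    (hsum : Summable (fun n => κ n ^ (-u))) {lo hi : ℝ} (hlo : 1 < lo) (hlh : lo ≤ hi) :
    ∀ᵐ t : ℝ, t ∈ Set.Icc lo hi → ∃ n₀ : ℕ, ∀ n : ℕ, n₀ ≤ n → ∀ A ∈ P, κ n ^ θ < |(A : ℝ) - t ^ κ n| := by
  obtain ⟨C, hC0, hC⟩ := hP
  have hl0 : 0 < Real.log lo := Real.log_pos hlo
  have hlo0 : 0 < lo := by linarith
  have hhi0 : 0 < hi := by linarith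
  set L : ℝ := Real.log (hi / lo) / Real.log 2 with hL
  have hL0 : 0 ≤ L := div_nonneg (Real.log_nonneg (by rw [le_div_iff₀ hlo0]; linarith))
    (Real.log_pos (by norm_num)).le
  set K0 : ℝ := 8 * hi * C * (L + 4) * (Real.log lo / 2) ^ (-b) with hK0
  have hev : ∀ᶠ x : ℝ in atTop, 1 ≤ x ∧ 6 ≤ lo ^ x ∧ 4 * x ^ θ ≤ lo ^ x ∧
      Real.log 2 ≤ x * (Real.log lo / 2) := by
    have e1 : Tendsto (fun x : ℝ => lo ^ x) atTop atTop := by
      have : (fun x : ℝ => lo ^ x) = fun x => Real.exp (Real.log lo * x) := by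
        funext x
        rw [Real.rpow_def_of_pos hlo0]
      rw [this]
      exact Real.tendsto_exp_atTop.comp (tendsto_id.const_mul_atTop hl0)
    have e2 : Tendsto (fun x : ℝ => x ^ θ * Real.exp (-Real.log lo * x)) atTop (𝓝 0) :=
      tendsto_rpow_mul_exp_neg_mul_atTop_nhds_zero θ _ hl0
    have e3 := (e2.eventually (gt_mem_nhds (show (0 : ℝ) < 1 / 4 by norm_num)))
    have e4 : Tendsto (fun x : ℝ => x * (Real.log lo / 2)) atTop atTop :=
      tendsto_id.atTop_mul_const (by positivity)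
    filter_upwards [eventually_ge_atTop (1 : ℝ), e1.eventually_ge_atTop 6, e3,
      e4.eventually_ge_atTop (Real.log 2)] with x h1 h2 h3 h4
    refine ⟨h1, h2, ?_, h4⟩
    have h5 : lo ^ x = Real.exp (Real.log lo * x) := Real.rpow_def_of_pos hlo0 x
    have h6 : Real.exp (Real.log lo * x) * Real.exp (-Real.log lo * x) = 1 := by
      rw [← Real.exp_add]
      simp
    have h7 : 0 < Real.exp (Real.log lo * x) := Real.exp_pos _
    rw [h5]
    have h8 : x ^ θ = (x ^ θ * Real.exp (-Real.log lo * x)) * Real.exp (Real.log lo * x) := by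
      rw [mul_assoc, mul_comm (Real.exp (-Real.log lo * x)), h6, mul_one]
    rw [h8]
    nlinarith
  obtain ⟨n₀, hn₀⟩ := eventually_atTop.1 (hκ.eventually hev)
  have hbc := bc (S := fun n => {x : ℝ | x ∈ Set.Icc lo hi ∧ ∃ A ∈ P, |(A : ℝ) - x ^ κ n| ≤ κ n ^ θ})
    (hsum.mul_left K0) n₀ (fun n hn => ?_)
  · filter_upwards [hbc] with t ht htI
    obtain ⟨n₁, h1⟩ := ht
    refine ⟨n₁, fun n hn A hA => ?_⟩
    by_contra hcon
    exact h1 n hn ⟨htI, A, hA, not_lt.1 hcon⟩
  · obtain ⟨k1, k2, k3, k4⟩ := hn₀ n hn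
    set k : ℝ := κ n with hk
    have hk0 : 0 < k := by linarith
    have hlk : 0 < lo ^ k := Real.rpow_pos_of_pos hlo0 k
    have hlhk : lo ^ k ≤ hi ^ k := Real.rpow_le_rpow hlo0.le hlh hk0.le
    set J : ℕ := ⌈k * L + 3⌉₊ with hJ
    have hJ1 : k * L + 3 ≤ J := Nat.le_ceil _
    have hJ2 : (J : ℝ) < k * L + 3 + 1 := Nat.ceil_lt_add_one (by positivity)
    have h2J : 8 * (hi ^ k / lo ^ k) ≤ 2 ^ J := by
      have h1 : (2 : ℝ) ^ (k * L + 3) ≤ 2 ^ (J : ℝ) := Real.rpow_le_rpow_of_exponent_le (by norm_num) hJ1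
      rw [Real.rpow_natCast] at h1
      refine le_trans (le_of_eq ?_) h1
      rw [Real.rpow_add (by norm_num), mul_comm k L, Real.rpow_mul (by norm_num)]
      have h3 : (2 : ℝ) ^ L = hi / lo := by
        rw [hL, Real.rpow_def_of_pos (by norm_num), mul_div_cancel₀ _ (Real.log_pos (by norm_num)).ne',
          Real.exp_log (by positivity)]
      rw [h3, Real.div_rpow hhi0.le hlo0.le]
      norm_num
      ring
    have hv := vol_bad (P := P) hb hC0 hC (lo := lo) (hi := hi) (lam := k / hi) (r := k ^ θ)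
      (Y := lo ^ k / 2) (w := fun x => x ^ k) J (by positivity) (by positivity) (by linarith)
      (by linarith) ?_ ?_ ?_
    · refine hv.trans (ENNReal.ofReal_le_ofReal ?_)
      have hlogY : k * (Real.log lo / 2) ≤ Real.log (lo ^ k / 2) := by
        rw [Real.log_div hlk.ne' (by norm_num), Real.log_rpow hlo0]
        linarith
      have hp : 0 < k * (Real.log lo / 2) := by positivity
      have h1 : (Real.log (lo ^ k / 2)) ^ (-b) ≤ k ^ (-b) * (Real.log lo / 2) ^ (-b) := by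
        rw [← Real.mul_rpow hk0.le (by positivity)]
        exact Real.rpow_le_rpow_of_nonpos hp hlogY (by linarith)
      have h2 : (J : ℝ) ≤ k * (L + 4) := by nlinarith
      have h3 : k ^ (θ - b) ≤ k ^ (-u) := Real.rpow_le_rpow_of_exponent_le k1 hu
      have hlb : 0 ≤ (Real.log lo / 2) ^ (-b) := by positivity
      calc 4 * k ^ θ / (k / hi) * (J * (2 * C * (Real.log (lo ^ k / 2)) ^ (-b)))
          ≤ 4 * k ^ θ / (k / hi) * ((k * (L + 4)) * (2 * C * (k ^ (-b) * (Real.log lo / 2) ^ (-b)))) := by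
            apply mul_le_mul_of_nonneg_left _ (by positivity)
            apply mul_le_mul h2 _ _ (by positivity)
            · exact mul_le_mul_of_nonneg_left h1 (by positivity)
            · apply mul_nonneg (by positivity)
              apply Real.rpow_nonneg
              linarith
        _ = K0 * (k ^ θ * k ^ (-b)) := by
            rw [hK0]
            field_simp
            ring
        _ = K0 * k ^ (θ - b) := by
            rw [← Real.rpow_add hk0]
            ring_nf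
        _ ≤ K0 * k ^ (-u) := mul_le_mul_of_nonneg_left h3 (by positivity)
    · intro x hx
      have : lo ^ k ≤ x ^ k := Real.rpow_le_rpow hlo0.le hx.1 hk0.le
      linarith
    · intro x hx
      have h1 : x ^ k ≤ hi ^ k := Real.rpow_le_rpow (hlo0.le.trans hx.1) hx.2 hk0.le
      have h2 : 4 * hi ^ k ≤ 2 ^ J * (lo ^ k / 2) := by
        calc 4 * hi ^ k = (8 * (hi ^ k / lo ^ k)) * (lo ^ k / 2) := by
              field_simp
              ring
          _ ≤ 2 ^ J * (lo ^ k / 2) := mul_le_mul_of_nonneg_right h2J (by positivity)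
      linarith
    · intro x hx y hy hxy
      exact rpow_expand k1 (by linarith [hx.1]) hxy hx.2

/-- one interval of `α`, dilates -/
theorem ae_dil_log {P : Set ℕ} {b : ℝ} (hb : 0 ≤ b) (hP : LogSparse P b) (κ : ℕ → ℝ) {θ u : ℝ}
    (hκ : Tendsto κ atTop atTop) (hθ : 0 ≤ θ) (hu : θ - b ≤ -u)
    (hsum : Summable (fun n => κ n ^ (-u))) {lo hi : ℝ} (hlo : 0 < lo) (hlh : lo ≤ hi) :
    ∀ᵐ t : ℝ, t ∈ Set.Icc lo hi → ∃ n₀ : ℕ, ∀ n : ℕ, n₀ ≤ n → ∀ A ∈ P,
      κ n ^ θ < |(A : ℝ) - t * Real.exp (κ n)| := by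
  obtain ⟨C, hC0, hC⟩ := hP
  have hhi0 : 0 < hi := by linarith
  obtain ⟨J, hJ⟩ := pow_unbounded_of_one_lt (8 * (hi / lo)) (one_lt_two : (1 : ℝ) < 2)
  set K0 : ℝ := 8 * hi * C * J * (1 / 2) ^ (-b) with hK0
  have hev : ∀ᶠ x : ℝ in atTop, 1 ≤ x ∧ 6 ≤ lo * Real.exp x ∧ 4 * x ^ θ ≤ lo * Real.exp x ∧
      Real.log 2 - Real.log lo ≤ x * (1 / 2) := by
    have e1 : Tendsto (fun x : ℝ => lo * Real.exp x) atTop atTop :=
      Real.tendsto_exp_atTop.const_mul_atTop hlo
    have e2 : Tendsto (fun x : ℝ => x ^ θ * Real.exp (-1 * x)) atTop (𝓝 0) :=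
      tendsto_rpow_mul_exp_neg_mul_atTop_nhds_zero θ _ one_pos
    have e3 := (e2.eventually (gt_mem_nhds (show (0 : ℝ) < lo / 4 by positivity)))
    have e4 : Tendsto (fun x : ℝ => x * (1 / 2)) atTop atTop :=
      tendsto_id.atTop_mul_const (by norm_num)
    filter_upwards [eventually_ge_atTop (1 : ℝ), e1.eventually_ge_atTop 6, e3,
      e4.eventually_ge_atTop (Real.log 2 - Real.log lo)] with x h1 h2 h3 h4
    refine ⟨h1, h2, ?_, h4⟩
    have h6 : Real.exp x * Real.exp (-1 * x) = 1 := by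
      rw [← Real.exp_add]
      simp
    have h7 : 0 < Real.exp x := Real.exp_pos _
    have h8 : x ^ θ = (x ^ θ * Real.exp (-1 * x)) * Real.exp x := by
      rw [mul_assoc, mul_comm (Real.exp (-1 * x)), h6, mul_one]
    rw [h8]
    nlinarith
  obtain ⟨n₀, hn₀⟩ := eventually_atTop.1 (hκ.eventually hev)
  have hbc := bc (S := fun n => {x : ℝ | x ∈ Set.Icc lo hi ∧ ∃ A ∈ P,
      |(A : ℝ) - x * Real.exp (κ n)| ≤ κ n ^ θ}) (hsum.mul_left K0) n₀ (fun n hn => ?_)
  · filter_upwards [hbc] with t ht htI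
    obtain ⟨n₁, h1⟩ := ht
    refine ⟨n₁, fun n hn A hA => ?_⟩
    by_contra hcon
    exact h1 n hn ⟨htI, A, hA, not_lt.1 hcon⟩
  · obtain ⟨k1, k2, k3, k4⟩ := hn₀ n hn
    set k : ℝ := κ n with hk
    have hk0 : 0 < k := by linarith
    set E : ℝ := Real.exp k with hE
    have hE0 : 0 < E := Real.exp_pos _
    have hv := vol_bad (P := P) hb hC0 hC (lo := lo) (hi := hi) (lam := 1 / hi) (r := k ^ θ)
      (Y := lo * E / 2) (w := fun x => x * E) J (by positivity) (by positivity) (by linarith)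
      (by linarith) ?_ ?_ ?_
    · refine hv.trans (ENNReal.ofReal_le_ofReal ?_)
      have hlogY : k * (1 / 2) ≤ Real.log (lo * E / 2) := by
        rw [Real.log_div (by positivity) (by norm_num), Real.log_mul hlo.ne' hE0.ne', hE, Real.log_exp]
        linarith
      have hp : 0 < k * (1 / 2) := by positivity
      have h1 : (Real.log (lo * E / 2)) ^ (-b) ≤ k ^ (-b) * (1 / 2) ^ (-b) := by
        rw [← Real.mul_rpow hk0.le (by positivity)]
        exact Real.rpow_le_rpow_of_nonpos hp hlogY (by linarith)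
      have h3 : k ^ (θ - b) ≤ k ^ (-u) := Real.rpow_le_rpow_of_exponent_le k1 hu
      calc 4 * k ^ θ / (1 / hi) * (J * (2 * C * (Real.log (lo * E / 2)) ^ (-b)))
          ≤ 4 * k ^ θ / (1 / hi) * (J * (2 * C * (k ^ (-b) * (1 / 2) ^ (-b)))) := by
            apply mul_le_mul_of_nonneg_left _ (by positivity)
            apply mul_le_mul_of_nonneg_left _ (by positivity)
            exact mul_le_mul_of_nonneg_left h1 (by positivity)
        _ = K0 * (k ^ θ * k ^ (-b)) := by
            rw [hK0]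
            field_simp
            ring
        _ = K0 * k ^ (θ - b) := by
            rw [← Real.rpow_add hk0]
            ring_nf
        _ ≤ K0 * k ^ (-u) := mul_le_mul_of_nonneg_left h3 (by positivity)
    · intro x hx
      have : lo * E ≤ x * E := mul_le_mul_of_nonneg_right hx.1 hE0.le
      linarith
    · intro x hx
      have h1 : x * E ≤ hi * E := mul_le_mul_of_nonneg_right hx.2 hE0.le
      have h0 : lo * E ≤ hi * E := mul_le_mul_of_nonneg_right hlh hE0.le
      have h2 : 4 * (hi * E) ≤ 2 ^ J * (lo * E / 2) := by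
        calc 4 * (hi * E) = (8 * (hi / lo)) * (lo * E / 2) := by
              field_simp
              ring
          _ ≤ 2 ^ J * (lo * E / 2) := mul_le_mul_of_nonneg_right hJ.le (by positivity)
      have h3 : 0 < hi * E := by positivity
      linarith
    · intro x hx y hy hxy
      have h1 : 1 / hi * (x * E) ≤ E := by
        rw [one_div, inv_mul_le_iff₀ hhi0]
        exact mul_le_mul_of_nonneg_right hx.2 hE0.le
      calc 1 / hi * (x * E) * (y - x) ≤ E * (y - x) := mul_le_mul_of_nonneg_right h1 (by linarith)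
        _ = y * E - x * E := by ring

end Pool.Agent.X283.DA
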