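import Pool.Agent.X283.DA.LogB

/-!
# A property with `O(X (log X) ^ (-b))` exceptions: powers, dilates and denominators of approximations
-/

set_option autoImplicit false

open Finset Filter Topology MeasureTheory

namespace Pool.Agent.X283.DA

open scoped ENNReal NNReal

/-- all real powers -/
theorem ae_pow_log' {P : Set ℕ} {b : ℝ} (hb : 0 ≤ b) (hP : LogSparse P b) (κ : ℕ → ℝ) {θ u : ℝ}
    (hκ : Tendsto κ atTop atTop) (hθ : 0 ≤ θ) (hu : θ - b ≤ -u)
    (hsum : Summable (fun n => κ n ^ (-u))) :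
    ∀ᵐ t : ℝ, 1 < t → ∃ n₀ : ℕ, ∀ n : ℕ, n₀ ≤ n → ∀ A ∈ P, κ n ^ θ < |(A : ℝ) - t ^ κ n| := by
  have h : ∀ j : ℕ, ∀ᵐ t : ℝ, t ∈ Set.Icc (1 + 1 / ((j : ℝ) + 1)) ((j : ℝ) + 2) →
      ∃ n₀ : ℕ, ∀ n : ℕ, n₀ ≤ n → ∀ A ∈ P, κ n ^ θ < |(A : ℝ) - t ^ κ n| := by
    intro j
    have h1 : (0 : ℝ) < 1 / ((j : ℝ) + 1) := by positivity
    have h2 : 1 / ((j : ℝ) + 1) ≤ 1 := by
      rw [div_le_one (by positivity)]
      have : (0 : ℝ) ≤ j := Nat.cast_nonneg j
      linarith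
    have h3 : (0 : ℝ) ≤ j := Nat.cast_nonneg j
    exact ae_pow_log hb hP κ hκ hθ hu hsum (by linarith) (by linarith)
  filter_upwards [ae_all_iff.2 h] with t ht ht1
  obtain ⟨j1, hj1⟩ := exists_nat_one_div_lt (show (0 : ℝ) < t - 1 by linarith)
  obtain ⟨j2, hj2⟩ := exists_nat_ge t
  refine ht (max j1 j2) ⟨?_, ?_⟩
  · have : 1 / (((max j1 j2 : ℕ) : ℝ) + 1) ≤ 1 / ((j1 : ℝ) + 1) := by
      apply one_div_le_one_div_of_le (by positivity)
      have : (j1 : ℝ) ≤ ((max j1 j2 : ℕ) : ℝ) := by exact_mod_cast le_max_left _ _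
      linarith
    linarith
  · have : (j2 : ℝ) ≤ ((max j1 j2 : ℕ) : ℝ) := by exact_mod_cast le_max_right _ _
    linarith

/-- all dilates -/
theorem ae_dil_log' {P : Set ℕ} {b : ℝ} (hb : 0 ≤ b) (hP : LogSparse P b) (κ : ℕ → ℝ) {θ u : ℝ}
    (hκ : Tendsto κ atTop atTop) (hθ : 0 ≤ θ) (hu : θ - b ≤ -u)
    (hsum : Summable (fun n => κ n ^ (-u))) :
    ∀ᵐ t : ℝ, 0 < t → ∃ n₀ : ℕ, ∀ n : ℕ, n₀ ≤ n → ∀ A ∈ P,
      κ n ^ θ < |(A : ℝ) - t * Real.exp (κ n)| := by
  have h : ∀ j : ℕ, ∀ᵐ t : ℝ, t ∈ Set.Icc (1 / ((j : ℝ) + 1)) ((j : ℝ) + 1) →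
      ∃ n₀ : ℕ, ∀ n : ℕ, n₀ ≤ n → ∀ A ∈ P, κ n ^ θ < |(A : ℝ) - t * Real.exp (κ n)| := by
    intro j
    have h1 : (0 : ℝ) < 1 / ((j : ℝ) + 1) := by positivity
    have h2 : 1 / ((j : ℝ) + 1) ≤ 1 := by
      rw [div_le_one (by positivity)]
      have : (0 : ℝ) ≤ j := Nat.cast_nonneg j
      linarith
    have h3 : (0 : ℝ) ≤ j := Nat.cast_nonneg j
    exact ae_dil_log hb hP κ hκ hθ hu hsum h1 (by linarith)
  filter_upwards [ae_all_iff.2 h] with t ht ht1
  obtain ⟨j1, hj1⟩ := exists_nat_one_div_lt ht1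
  obtain ⟨j2, hj2⟩ := exists_nat_ge t
  refine ht (max j1 j2) ⟨?_, ?_⟩
  · have : 1 / (((max j1 j2 : ℕ) : ℝ) + 1) ≤ 1 / ((j1 : ℝ) + 1) := by
      apply one_div_le_one_div_of_le (by positivity)
      have : (j1 : ℝ) ≤ ((max j1 j2 : ℕ) : ℝ) := by exact_mod_cast le_max_left _ _
      linarith
    linarith
  · have : (j2 : ℝ) ≤ ((max j1 j2 : ℕ) : ℝ) := by exact_mod_cast le_max_right _ _
    linarith

open Classical in
/-- the sum of `1 / (q (log q) ^ c)` over a set with `O(X (log X) ^ (-b))` elements converges if `b + c > 1` -/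
theorem summable_log {P : Set ℕ} {b c : ℝ} (hb : 0 ≤ b) (hc : 0 ≤ c) (hP : LogSparse P b)
    (hbc : 1 < b + c) :
    Summable (fun q : ℕ => if q ∈ P ∧ 3 ≤ q then 1 / (q : ℝ) * (Real.log q) ^ (-c) else 0) := by
  obtain ⟨C, hC0, hC⟩ := hP
  set f : ℕ → ℝ := fun q => if q ∈ P ∧ 3 ≤ q then 1 / (q : ℝ) * (Real.log q) ^ (-c) else 0 with hf
  have hl2 : 0 < Real.log 2 := Real.log_pos (by norm_num)
  have hf0 : ∀ q, 0 ≤ f q := by
    intro q
    rw [hf]
    dsimp only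
    split_ifs
    · exact mul_nonneg (by positivity) (Real.rpow_nonneg (Real.log_natCast_nonneg q) _)
    · exact le_rfl
  -- dyadic blocks
  have hblock : ∀ k : ℕ, 1 ≤ k → ∑ q ∈ Finset.Ico (2 ^ k) (2 ^ (k + 1)), f q ≤
      (2 * C * (Real.log 2) ^ (-(b + c))) * (k : ℝ) ^ (-(b + c)) := by
    intro k hk
    have hk0 : (0 : ℝ) < k := by exact_mod_cast hk
    have h2k : (0 : ℝ) < (2 : ℝ) ^ k := by positivity
    have hlk : 0 < (k : ℝ) * Real.log 2 := by positivity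
    have hX3 : 3 ≤ 2 ^ (k + 1) := by
      calc 3 ≤ 2 ^ (1 + 1) := by norm_num
        _ ≤ 2 ^ (k + 1) := Nat.pow_le_pow_right (by norm_num) (by omega)
    have h1 : ∑ q ∈ Finset.Ico (2 ^ k) (2 ^ (k + 1)), f q ≤
        ((Finset.Ico (2 ^ k) (2 ^ (k + 1))).filter (fun q => q ∈ P)).card *
          (1 / (2 : ℝ) ^ k * (k * Real.log 2) ^ (-c)) := by
      rw [Finset.card_eq_sum_ones, Nat.cast_sum, Finset.sum_mul, Finset.sum_filter]
      refine Finset.sum_le_sum fun q hq => ?_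
      rw [Finset.mem_Ico] at hq
      have hq1 : (2 : ℝ) ^ k ≤ q := by exact_mod_cast hq.1
      have hlq : (k : ℝ) * Real.log 2 ≤ Real.log q := by
        rw [← Real.log_pow]
        exact Real.log_le_log h2k hq1
      rw [hf]
      dsimp only
      by_cases hqP : q ∈ P
      · rw [if_pos hqP]
        split_ifs
        · rw [Nat.cast_one, one_mul]
          apply mul_le_mul (one_div_le_one_div_of_le h2k hq1)
            (Real.rpow_le_rpow_of_nonpos hlk hlq (by linarith)) _ (by positivity)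
          exact Real.rpow_nonneg (Real.log_natCast_nonneg q) _
        · positivity
      · rw [if_neg (fun h => hqP h.1), if_neg hqP]
    have h2 : (((Finset.Ico (2 ^ k) (2 ^ (k + 1))).filter (fun q => q ∈ P)).card : ℝ) ≤
        C * 2 ^ (k + 1) * (k * Real.log 2) ^ (-b) := by
      have h3 := hC (2 ^ (k + 1)) hX3
      have h4 : (((Finset.Ico (2 ^ k) (2 ^ (k + 1))).filter (fun q => q ∈ P)).card : ℝ) ≤
          ({t : ℕ | t ∈ P ∧ t ≤ 2 ^ (k + 1)}.ncard : ℝ) := by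
        rw [← Set.ncard_coe_finset]
        refine Nat.cast_le.2 (Set.ncard_le_ncard ?_ ((Set.finite_Iic (2 ^ (k + 1))).subset
          fun t ht => ht.2))
        intro q hq
        rw [Finset.mem_coe, Finset.mem_filter, Finset.mem_Ico] at hq
        exact ⟨hq.2, hq.1.2.le⟩
      refine h4.trans (h3.trans ?_)
      push_cast
      apply mul_le_mul_of_nonneg_left _ (by positivity)
      rw [Real.log_pow]
      apply Real.rpow_le_rpow_of_nonpos hlk _ (by linarith)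
      apply mul_le_mul_of_nonneg_right _ hl2.le
      push_cast
      linarith
    refine h1.trans ((mul_le_mul_of_nonneg_right h2 (by positivity)).trans (le_of_eq ?_))
    have e2 : (k * Real.log 2) ^ (-b) * (k * Real.log 2) ^ (-c) =
        (Real.log 2) ^ (-(b + c)) * (k : ℝ) ^ (-(b + c)) := by
      rw [← Real.rpow_add hlk, mul_comm (k : ℝ), Real.mul_rpow hl2.le hk0.le, neg_add]
    calc C * 2 ^ (k + 1) * (k * Real.log 2) ^ (-b) * (1 / 2 ^ k * (k * Real.log 2) ^ (-c))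
        = 2 * C * ((k * Real.log 2) ^ (-b) * (k * Real.log 2) ^ (-c)) := by
          rw [pow_succ]
          field_simp
      _ = _ := by
          rw [e2]
          ring
  have hsum : Summable (fun k : ℕ => (2 * C * (Real.log 2) ^ (-(b + c))) * (k : ℝ) ^ (-(b + c))) :=
    (Real.summable_nat_rpow.2 (by linarith)).mul_left _
  have hnn : ∀ k : ℕ, 0 ≤ (2 * C * (Real.log 2) ^ (-(b + c))) * (k : ℝ) ^ (-(b + c)) := fun k => by
    positivity
  refine summable_of_sum_range_le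
    (c := ∑' k : ℕ, (2 * C * (Real.log 2) ^ (-(b + c))) * (k : ℝ) ^ (-(b + c))) hf0 fun n => ?_
  have h3 : ∀ K : ℕ, ∑ q ∈ Finset.range (2 ^ K), f q ≤
      ∑ k ∈ Finset.range K, (2 * C * (Real.log 2) ^ (-(b + c))) * (k : ℝ) ^ (-(b + c)) := by
    intro K
    induction K with
    | zero =>
      simp only [pow_zero, Finset.range_one, Finset.sum_singleton, Finset.range_zero,
        Finset.sum_empty]
      rw [hf]
      simp
    | succ K ih =>
      rw [Finset.sum_range_succ, ← Finset.sum_range_add_sum_Ico f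
        (Nat.pow_le_pow_right (by norm_num) (Nat.le_succ K) : 2 ^ K ≤ 2 ^ (K + 1))]
      rcases Nat.eq_zero_or_pos K with h0 | h0
      · subst h0
        have h4 : ∑ k ∈ Finset.Ico (2 ^ 0) (2 ^ (0 + 1)), f k = 0 := by
          apply Finset.sum_eq_zero
          intro q hq
          rw [Finset.mem_Ico] at hq
          rw [hf]
          dsimp only
          rw [if_neg]
          rintro ⟨-, h5⟩
          norm_num at hq
          omega
        rw [h4, add_zero]
        exact ih.trans (le_add_of_nonneg_right (hnn 0))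
      · exact add_le_add ih (hblock K h0)
  have h4 : n ≤ 2 ^ n := Nat.lt_two_pow_self.le
  calc ∑ q ∈ Finset.range n, f q ≤ ∑ q ∈ Finset.range (2 ^ n), f q :=
        Finset.sum_le_sum_of_subset_of_nonneg (Finset.range_mono h4) fun q _ _ => hf0 q
    _ ≤ ∑ k ∈ Finset.range n, (2 * C * (Real.log 2) ^ (-(b + c))) * (k : ℝ) ^ (-(b + c)) := h3 n
    _ ≤ _ := hsum.sum_le_tsum _ fun k _ => hnn k

end Pool.Agent.X283.DA
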