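import Pool.Agent.X283.DA.Den
import Pool.Agent.X16.NW.E

/-!
# Denominators of good rational approximations avoid sparse sets: measure and dimension
-/

set_option autoImplicit false

open Finset Filter Topology MeasureTheory

namespace Pool.Agent.X283.DA

open scoped ENNReal NNReal

/-- the integers `p` which can be close to `q x - y` for `|x| ≤ N` -/
noncomputable def rng (N y : ℝ) (q : ℕ) : Finset ℤ :=
  Finset.Icc ⌊-(q * N) - y - 1⌋ ⌈q * N - y + 1⌉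

theorem card_rng (N y : ℝ) (hN : 0 ≤ N) (q : ℕ) (hq : 1 ≤ q) :
    ((rng N y q).card : ℝ) ≤ (2 * N + 5) * q := by
  have hq' : (1 : ℝ) ≤ q := by exact_mod_cast hq
  rw [rng, Int.card_Icc]
  have h1 := Int.ceil_lt_add_one (q * N - y + 1)
  have h2 := Int.sub_one_lt_floor (-(q * N) - y - 1)
  have hqN : 0 ≤ (q : ℝ) * N := by positivity
  have h3 : (0 : ℤ) ≤ ⌈q * N - y + 1⌉ + 1 - ⌊-(q * N) - y - 1⌋ := by
    have h4 : ⌊-(q * N) - y - 1⌋ ≤ ⌈q * N - y + 1⌉ := by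
      have h5 : ((⌊-(q * N) - y - 1⌋ : ℤ) : ℝ) ≤ (⌈q * N - y + 1⌉ : ℤ) := by
        have h6 := Int.floor_le (-(q * N) - y - 1)
        have h7 := Int.le_ceil (q * N - y + 1)
        linarith
      exact_mod_cast h5
    omega
  have h4 : (((⌈q * N - y + 1⌉ + 1 - ⌊-(q * N) - y - 1⌋).toNat : ℕ) : ℝ) =
      ((⌈q * N - y + 1⌉ : ℤ) : ℝ) + 1 - (⌊-(q * N) - y - 1⌋ : ℤ) := by
    have : (((⌈q * N - y + 1⌉ + 1 - ⌊-(q * N) - y - 1⌋).toNat : ℤ) : ℝ) =
      ((⌈q * N - y + 1⌉ : ℤ) : ℝ) + 1 - (⌊-(q * N) - y - 1⌋ : ℤ) := by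
      rw [Int.toNat_of_nonneg h3]
      push_cast
      ring
    rw [← this]
    norm_cast
  rw [h4]
  nlinarith

theorem mem_rng {N y x r : ℝ} {q : ℕ} {p : ℤ} (hx : |x| ≤ N) (hr : r ≤ 1)
    (h : |(q : ℝ) * x - p - y| ≤ r) : p ∈ rng N y q := by
  rw [rng, Finset.mem_Icc]
  have hq : (0 : ℝ) ≤ q := Nat.cast_nonneg q
  obtain ⟨h1, h2⟩ := abs_le.1 h
  obtain ⟨h3, h4⟩ := abs_le.1 hx
  have h5 : (q : ℝ) * x ≤ q * N := mul_le_mul_of_nonneg_left h4 hq
  have h6 : -((q : ℝ) * N) ≤ q * x := by nlinarith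
  constructor
  · have : ((⌊-(q * N) - y - 1⌋ : ℤ) : ℝ) ≤ p := by
      have := Int.floor_le (-(q * N) - y - 1)
      linarith
    exact_mod_cast this
  · have : ((p : ℤ) : ℝ) ≤ (⌈q * N - y + 1⌉ : ℤ) := by
      have := Int.le_ceil (q * N - y + 1)
      linarith
    exact_mod_cast this

/-- the `x` with `|x| ≤ N` such that `q x - y` is within `q ^ (-θ)` of an integer -/
def near (N y θ : ℝ) (q : ℕ) : Set ℝ :=
  {x | |x| ≤ N ∧ ∃ p : ℤ, |(q : ℝ) * x - p - y| ≤ (q : ℝ) ^ (-θ)}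

theorem near_subset {N y θ : ℝ} (hθ : 0 ≤ θ) {q : ℕ} (hq : 1 ≤ q) :
    near N y θ q ⊆ ⋃ p ∈ rng N y q, Set.Icc ((p + y) / q - (q : ℝ) ^ (-(1 + θ)))
      ((p + y) / q + (q : ℝ) ^ (-(1 + θ))) := by
  rintro x ⟨hx, p, hp⟩
  have hq' : (1 : ℝ) ≤ q := by exact_mod_cast hq
  have hq0 : (0 : ℝ) < q := by linarith
  have hr : (q : ℝ) ^ (-θ) ≤ 1 := Real.rpow_le_one_of_one_le_of_nonpos hq' (by linarith)
  refine Set.mem_biUnion (mem_rng hx hr hp) ?_
  have e : (q : ℝ) ^ (-(1 + θ)) = (q : ℝ) ^ (-θ) / q := by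
    rw [neg_add, Real.rpow_add hq0, Real.rpow_neg_one]
    field_simp
  obtain ⟨h1, h2⟩ := abs_le.1 hp
  rw [e, Set.mem_Icc]
  constructor
  · rw [← sub_div, div_le_iff₀ hq0]
    linarith
  · rw [← add_div, le_div_iff₀ hq0]
    linarith

theorem volume_near {N y θ : ℝ} (hN : 0 ≤ N) (hθ : 0 ≤ θ) {q : ℕ} (hq : 1 ≤ q) :
    volume (near N y θ q) ≤ ENNReal.ofReal ((4 * N + 10) * (q : ℝ) ^ (-θ)) := by
  have hq' : (1 : ℝ) ≤ q := by exact_mod_cast hq
  have hq0 : (0 : ℝ) < q := by linarith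
  have e : (q : ℝ) ^ (-(1 + θ)) = (q : ℝ) ^ (-θ) / q := by
    rw [neg_add, Real.rpow_add hq0, Real.rpow_neg_one]
    field_simp
  calc volume (near N y θ q)
      ≤ volume (⋃ p ∈ rng N y q, Set.Icc ((p + y) / q - (q : ℝ) ^ (-(1 + θ)))
      ((p + y) / q + (q : ℝ) ^ (-(1 + θ)))) := measure_mono (near_subset hθ hq)
    _ ≤ ∑ p ∈ rng N y q, volume (Set.Icc ((p + y) / q - (q : ℝ) ^ (-(1 + θ)))
      ((p + y) / q + (q : ℝ) ^ (-(1 + θ)))) := measure_biUnion_finset_le _ _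
    _ = ∑ _p ∈ rng N y q, ENNReal.ofReal (2 * (q : ℝ) ^ (-(1 + θ))) := by
        refine Finset.sum_congr rfl fun p _ => ?_
        rw [Real.volume_Icc]
        congr 1
        ring
    _ = ENNReal.ofReal ((rng N y q).card * (2 * (q : ℝ) ^ (-(1 + θ)))) := by
        rw [Finset.sum_const, nsmul_eq_mul, ENNReal.ofReal_mul (Nat.cast_nonneg _),
          ENNReal.ofReal_natCast]
    _ ≤ ENNReal.ofReal ((4 * N + 10) * (q : ℝ) ^ (-θ)) := by
        apply ENNReal.ofReal_le_ofReal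
        calc ((rng N y q).card : ℝ) * (2 * (q : ℝ) ^ (-(1 + θ)))
            ≤ ((2 * N + 5) * q) * (2 * (q : ℝ) ^ (-(1 + θ))) :=
              mul_le_mul_of_nonneg_right (card_rng N y hN q hq) (by positivity)
          _ = _ := by
              rw [e]
              field_simp
              ring

/-- **Simultaneous approximation.** -/
theorem ae_simultaneous {P : Set ℕ} {s : ℝ} (hs : 0 ≤ s) (hP : Sparse P s) (d : ℕ)
    (θ y : Fin d → ℝ) (hθ : ∀ i, 0 ≤ θ i) (hsum : s < ∑ i, θ i) :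
    ∀ᵐ x : Fin d → ℝ, ∃ q₀ : ℕ, ∀ q : ℕ, q₀ ≤ q →
      (∀ i, ∃ p : ℤ, |(q : ℝ) * x i - p - y i| ≤ (q : ℝ) ^ (-θ i)) → q ∉ P := by
  classical
  have key : ∀ N : ℕ, ∀ᵐ x : Fin d → ℝ, (∀ i, |x i| ≤ N) → ∃ q₀ : ℕ, ∀ q : ℕ, q₀ ≤ q →
      (∀ i, ∃ p : ℤ, |(q : ℝ) * x i - p - y i| ≤ (q : ℝ) ^ (-θ i)) → q ∉ P := by
    intro N
    set A : ℕ → Set (Fin d → ℝ) := fun q =>
      if q ∈ P ∧ 1 ≤ q then Set.pi Set.univ (fun i => near N (y i) (θ i) q) else ∅ with hA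
    have hsm := (summable_sparse hs hP hsum).mul_left ((4 * (N : ℝ) + 10) ^ d)
    have hvol : ∀ q, volume (A q) ≤ ENNReal.ofReal ((4 * (N : ℝ) + 10) ^ d *
        (if q ∈ P ∧ 1 ≤ q then (q : ℝ) ^ (-∑ i, θ i) else 0)) := by
      intro q
      rw [hA]
      dsimp only
      split_ifs with hq
      · rw [MeasureTheory.volume_pi_pi]
        have hq' : (0 : ℝ) < q := by exact_mod_cast hq.2
        calc ∏ i, volume (near N (y i) (θ i) q)
            ≤ ∏ i, ENNReal.ofReal ((4 * (N : ℝ) + 10) * (q : ℝ) ^ (-θ i)) :=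
              Finset.prod_le_prod' fun i _ => volume_near (Nat.cast_nonneg N) (hθ i) hq.2
          _ = ENNReal.ofReal (∏ i, ((4 * (N : ℝ) + 10) * (q : ℝ) ^ (-θ i))) := by
              rw [ENNReal.ofReal_prod_of_nonneg]
              intro i _
              positivity
          _ = _ := by
              rw [Finset.prod_mul_distrib, Finset.prod_const, Finset.card_univ, Fintype.card_fin]
              congr 2
              rw [← Real.rpow_sum_of_pos hq', Finset.sum_neg_distrib]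
      · simp
    have hne : ∑' q, volume (A q) ≠ ∞ := by
      refine ne_top_of_le_ne_top ?_ (ENNReal.tsum_le_tsum hvol)
      exact hsm.tsum_ofReal_ne_top
    have h0 := measure_limsup_atTop_eq_zero hne
    have h1 : ∀ᵐ x : Fin d → ℝ, x ∉ limsup A atTop := by
      rw [ae_iff]
      simpa using h0
    filter_upwards [h1] with x hx hxN
    rw [limsup_eq_iInf_iSup_of_nat] at hx
    simp only [Set.iInf_eq_iInter, Set.iSup_eq_iUnion, Set.mem_iInter, Set.mem_iUnion,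
      not_forall, not_exists] at hx
    obtain ⟨n, hn⟩ := hx
    refine ⟨max n 1, fun q hq hcl hqP => ?_⟩
    refine hn q ((le_max_left _ _).trans hq) ?_
    rw [hA]
    dsimp only
    rw [if_pos ⟨hqP, (le_max_right _ _).trans hq⟩]
    exact fun i _ => ⟨hxN i, hcl i⟩
  filter_upwards [ae_all_iff.2 key] with x hx
  obtain ⟨N, hN⟩ := exists_nat_ge (∑ i, |x i|)
  exact hx N fun i => (Finset.single_le_sum (fun j _ => abs_nonneg (x j)) (Finset.mem_univ i)).trans hN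

open Classical in
/-- **Dimension of the exceptional numbers.** -/
theorem dim_denominators {P : Set ℕ} {s : ℝ} (hs : 0 ≤ s) (hP : Sparse P s) (θ y : ℝ)
    (hθ : 0 ≤ θ) :
    dimH {x : ℝ | ∀ n₀ : ℕ, ∃ q : ℕ, n₀ ≤ q ∧ q ∈ P ∧
      ∃ p : ℤ, |(q : ℝ) * x - p - y| ≤ (q : ℝ) ^ (-θ)} ≤ ENNReal.ofReal ((1 + s) / (1 + θ)) := by
  have h1θ : 0 < 1 + θ := by linarith
  apply ENNReal.le_of_forall_pos_le_add
  intro ε hε _
  have hε' : (0 : ℝ) < ε := by exact_mod_cast hε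
  set D : ℝ := (1 + s) / (1 + θ) + ε with hD
  have hD0 : 0 < D := by positivity
  have hDs : s < (1 + θ) * D - 1 := by
    rw [hD, mul_add, mul_div_cancel₀ _ h1θ.ne']
    nlinarith
  rw [← ENNReal.ofReal_coe_nnreal, ← ENNReal.ofReal_add (by positivity) hε'.le, ← hD]
  have hsub : {x : ℝ | ∀ n₀ : ℕ, ∃ q : ℕ, n₀ ≤ q ∧ q ∈ P ∧
      ∃ p : ℤ, |(q : ℝ) * x - p - y| ≤ (q : ℝ) ^ (-θ)} ⊆
      ⋃ N : ℕ, {x : ℝ | ∀ n₀ : ℕ, ∃ q : ℕ, n₀ ≤ q ∧ ∃ k : ℕ,
        ∃ p ∈ (if q ∈ P ∧ 1 ≤ q ∧ k = 0 then rng (N : ℝ) y q else ∅),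
        x ∈ Set.Icc (((p : ℤ) + y) / q - (q : ℝ) ^ (-(1 + θ)))
          ((p + y) / q + (q : ℝ) ^ (-(1 + θ)))} := by
    intro x hx
    obtain ⟨N, hN⟩ := exists_nat_ge |x|
    refine Set.mem_iUnion.2 ⟨N, fun n₀ => ?_⟩
    obtain ⟨q, hq, hqP, p, hp⟩ := hx (max n₀ 1)
    have hq1 : 1 ≤ q := (le_max_right _ _).trans hq
    have h2 := near_subset (N := N) (y := y) hθ hq1 (show x ∈ near N y θ q from ⟨hN, p, hp⟩)
    simp only [Set.mem_iUnion, exists_prop] at h2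
    obtain ⟨p', hp', hx'⟩ := h2
    refine ⟨q, (le_max_left _ _).trans hq, 0, p', ?_, hx'⟩
    rw [if_pos ⟨hqP, hq1, rfl⟩]
    exact hp'
  refine (dimH_mono hsub).trans ?_
  rw [dimH_iUnion]
  refine iSup_le fun N => ?_
  refine Pool.Agent.X16.NW.dim_cover (T := ℤ)
    (fun q k => if q ∈ P ∧ 1 ≤ q ∧ k = 0 then rng (N : ℝ) y q else ∅)
    (fun q _ p => Set.Icc (((p : ℤ) + y) / q - (q : ℝ) ^ (-(1 + θ)))
          ((p + y) / q + (q : ℝ) ^ (-(1 + θ))))
    (fun q _ => 2 * ((max q 1 : ℕ) : ℝ) ^ (-(1 + θ)))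
    (fun q => 2 * ((max q 1 : ℕ) : ℝ) ^ (-(1 + θ))) D hD0 ?_ (fun _ _ => le_rfl) ?_
    (fun q => ((2 * (N : ℝ) + 5) * 2 ^ D) * (if q ∈ P ∧ 1 ≤ q then (q : ℝ) ^ (-((1 + θ) * D - 1)) else 0))
    (fun k => if k = 0 then 1 else 0) ?_ ?_ ?_ ?_ ?_ ?_
  · intro q _
    have : (0 : ℝ) < ((max q 1 : ℕ) : ℝ) := by exact_mod_cast (Nat.lt_of_lt_of_le Nat.one_pos (le_max_right q 1))
    positivity
  · have h3 : Tendsto (fun q : ℕ => ((max q 1 : ℕ) : ℝ)) atTop atTop :=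
      tendsto_natCast_atTop_atTop.comp (tendsto_atTop_mono (fun q => le_max_left q 1) tendsto_id)
    have h4 := (tendsto_rpow_neg_atTop h1θ).comp h3
    simpa using h4.const_mul 2
  · intro q
    split_ifs <;> positivity
  · intro k
    split_ifs <;> norm_num
  · exact (summable_sparse hs hP hDs).mul_left _
  · exact summable_of_ne_finset_zero (s := {0}) fun k hk => by
      rw [if_neg (by simpa using hk)]
  · intro q k
    by_cases hq : q ∈ P ∧ 1 ≤ q ∧ k = 0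
    · obtain ⟨h1, h2, rfl⟩ := hq
      have hq' : (1 : ℝ) ≤ q := by exact_mod_cast h2
      have hq0 : (0 : ℝ) < q := by linarith
      rw [if_pos ⟨h1, h2, rfl⟩, if_pos ⟨h1, h2⟩, if_pos rfl, max_eq_left h2, mul_one]
      calc ((rng (N : ℝ) y q).card : ℝ) * (2 * (q : ℝ) ^ (-(1 + θ))) ^ D
          ≤ ((2 * (N : ℝ) + 5) * q) * (2 * (q : ℝ) ^ (-(1 + θ))) ^ D :=
            mul_le_mul_of_nonneg_right (card_rng N y (Nat.cast_nonneg N) q h2) (by positivity)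
        _ = _ := by
            rw [Real.mul_rpow (by norm_num) (by positivity), ← Real.rpow_mul hq0.le]
            have e : (q : ℝ) ^ (-((1 + θ) * D - 1)) = q * (q : ℝ) ^ (-(1 + θ) * D) := by
              nth_rewrite 2 [← Real.rpow_one (q : ℝ)]
              rw [← Real.rpow_add hq0]
              congr 1
              ring
            rw [e]
            ring
    · rw [if_neg hq, Finset.card_empty, Nat.cast_zero, zero_mul]
      by_cases hk : k = 0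
      · subst hk
        rw [if_pos rfl, mul_one]
        split_ifs <;> positivity
      · rw [if_neg hk, mul_zero]
  · intro q k p hp
    by_cases hq : q ∈ P ∧ 1 ≤ q ∧ k = 0
    · rw [max_eq_left hq.2.1, Real.ediam_Icc]
      apply ENNReal.ofReal_le_ofReal
      linarith
    · rw [if_neg hq] at hp
      exact absurd hp (Finset.notMem_empty _)

end Pool.Agent.X283.DA
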