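import Pool.Agent.X283.DA.LogC
import Pool.Agent.X283.DA.Meas

/-!
# A property with `O(X (log X) ^ (-b))` exceptions: powers, dilates and denominators of approximations

The definitions of the statements, and the theorem which gives all of them.
-/

set_option autoImplicit false

open Finset Filter Topology MeasureTheory

namespace Pool.Agent.X283.DA

open scoped ENNReal NNReal

/-- the `x` with `|x| ≤ N` such that `q x - y` is within `r` of an integer -/
def nearR (N y r : ℝ) (q : ℕ) : Set ℝ :=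
  {x | |x| ≤ N ∧ ∃ p : ℤ, |(q : ℝ) * x - p - y| ≤ r}

theorem volume_nearR {N y r : ℝ} (hN : 0 ≤ N) (hr0 : 0 ≤ r) (hr : r ≤ 1) {q : ℕ} (hq : 1 ≤ q) :
    volume (nearR N y r q) ≤ ENNReal.ofReal ((4 * N + 10) * r) := by
  have hq' : (1 : ℝ) ≤ q := by exact_mod_cast hq
  have hq0 : (0 : ℝ) < q := by linarith
  have hsub : nearR N y r q ⊆ ⋃ p ∈ rng N y q, Set.Icc ((p + y) / q - r / q) ((p + y) / q + r / q) := by
    rintro x ⟨hx, p, hp⟩
    refine Set.mem_biUnion (mem_rng hx hr hp) ?_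
    obtain ⟨h1, h2⟩ := abs_le.1 hp
    rw [Set.mem_Icc]
    constructor
    · rw [← sub_div, div_le_iff₀ hq0]
      linarith
    · rw [← add_div, le_div_iff₀ hq0]
      linarith
  calc volume (nearR N y r q)
      ≤ volume (⋃ p ∈ rng N y q, Set.Icc (((p : ℤ) + y) / q - r / q) ((p + y) / q + r / q)) :=
        measure_mono hsub
    _ ≤ ∑ p ∈ rng N y q, volume (Set.Icc (((p : ℤ) + y) / q - r / q) ((p + y) / q + r / q)) :=
        measure_biUnion_finset_le _ _
    _ = ∑ _p ∈ rng N y q, ENNReal.ofReal (2 * (r / q)) := by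
        refine Finset.sum_congr rfl fun p _ => ?_
        rw [Real.volume_Icc]
        congr 1
        ring
    _ = ENNReal.ofReal ((rng N y q).card * (2 * (r / q))) := by
        rw [Finset.sum_const, nsmul_eq_mul, ENNReal.ofReal_mul (Nat.cast_nonneg _),
          ENNReal.ofReal_natCast]
    _ ≤ ENNReal.ofReal ((4 * N + 10) * r) := by
        apply ENNReal.ofReal_le_ofReal
        calc ((rng N y q).card : ℝ) * (2 * (r / q))
            ≤ ((2 * N + 5) * q) * (2 * (r / q)) :=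
              mul_le_mul_of_nonneg_right (card_rng N y hN q hq) (by positivity)
          _ = _ := by
              field_simp
              ring

/-- **Simultaneous approximation, logarithmic version.** -/
theorem ae_simultaneous_log {P : Set ℕ} {b : ℝ} (hb : 0 ≤ b) (hP : LogSparse P b) (d : ℕ)
    (θ c y : Fin d → ℝ) (hθ : ∀ i, 0 ≤ θ i) (hc : ∀ i, 0 ≤ c i) (hθs : ∑ i, θ i = 1)
    (hcs : 1 < b + ∑ i, c i) :
    ∀ᵐ x : Fin d → ℝ, ∃ q₀ : ℕ, ∀ q : ℕ, q₀ ≤ q →
      (∀ i, ∃ p : ℤ, |(q : ℝ) * x i - p - y i| ≤ (q : ℝ) ^ (-θ i) * (Real.log q) ^ (-c i)) → q ∉ P := by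
  classical
  have key : ∀ N : ℕ, ∀ᵐ x : Fin d → ℝ, (∀ i, |x i| ≤ N) → ∃ q₀ : ℕ, ∀ q : ℕ, q₀ ≤ q →
      (∀ i, ∃ p : ℤ, |(q : ℝ) * x i - p - y i| ≤ (q : ℝ) ^ (-θ i) * (Real.log q) ^ (-c i)) →
        q ∉ P := by
    intro N
    set A : ℕ → Set (Fin d → ℝ) := fun q =>
      if q ∈ P ∧ 3 ≤ q then Set.pi Set.univ
        (fun i => nearR N (y i) ((q : ℝ) ^ (-θ i) * (Real.log q) ^ (-c i)) q) else ∅ with hA
    have hsm := (summable_log hb (Finset.sum_nonneg fun i _ => hc i) hP hcs).mul_left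
      ((4 * (N : ℝ) + 10) ^ d)
    have hvol : ∀ q, volume (A q) ≤ ENNReal.ofReal ((4 * (N : ℝ) + 10) ^ d *
        (if q ∈ P ∧ 3 ≤ q then 1 / (q : ℝ) * (Real.log q) ^ (-∑ i, c i) else 0)) := by
      intro q
      rw [hA]
      dsimp only
      split_ifs with hq
      · rw [MeasureTheory.volume_pi_pi]
        have hq3 : (3 : ℝ) ≤ q := by exact_mod_cast hq.2
        have hq' : (0 : ℝ) < q := by linarith
        have hl1 : 1 ≤ Real.log q := by
          rw [Real.le_log_iff_exp_le hq']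
          exact Real.exp_one_lt_d9.le.trans (by linarith)
        have hl0 : 0 < Real.log q := by linarith
        have hr0 : ∀ i, 0 ≤ (q : ℝ) ^ (-θ i) * (Real.log q) ^ (-c i) := fun i => by positivity
        have hr1 : ∀ i, (q : ℝ) ^ (-θ i) * (Real.log q) ^ (-c i) ≤ 1 := fun i => by
          apply mul_le_one₀ _ (by positivity) _
          · exact Real.rpow_le_one_of_one_le_of_nonpos (by linarith) (by linarith [hθ i])
          · exact Real.rpow_le_one_of_one_le_of_nonpos hl1 (by linarith [hc i])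
        calc ∏ i, volume (nearR N (y i) ((q : ℝ) ^ (-θ i) * (Real.log q) ^ (-c i)) q)
            ≤ ∏ i, ENNReal.ofReal ((4 * (N : ℝ) + 10) * ((q : ℝ) ^ (-θ i) * (Real.log q) ^ (-c i))) :=
              Finset.prod_le_prod' fun i _ =>
                volume_nearR (Nat.cast_nonneg N) (hr0 i) (hr1 i) (by omega)
          _ = ENNReal.ofReal (∏ i, ((4 * (N : ℝ) + 10) * ((q : ℝ) ^ (-θ i) * (Real.log q) ^ (-c i)))) := by
              rw [ENNReal.ofReal_prod_of_nonneg]
              intro i _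
              positivity
          _ = _ := by
              rw [Finset.prod_mul_distrib, Finset.prod_const, Finset.card_univ, Fintype.card_fin,
                Finset.prod_mul_distrib, ← Real.rpow_sum_of_pos hq', ← Real.rpow_sum_of_pos hl0,
                Finset.sum_neg_distrib, Finset.sum_neg_distrib, hθs, Real.rpow_neg_one, one_div]
      · simp
    have hne : ∑' q, volume (A q) ≠ ∞ := by
      refine ne_top_of_le_ne_top ?_ (ENNReal.tsum_le_tsum hvol)
      exact hsm.tsum_ofReal_ne_top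
    have h0 := measure_limsup_atTop_eq_zero hne
    have h1 : ∀ᵐ x : Fin d → ℝ, x ∉ limsup A atTop := by
      rw [ae_iff]
      simpa using h0
    filter_upwards [h1] with x hx hxN
    rw [limsup_eq_iInf_iSup_of_nat] at hx
    simp only [Set.iInf_eq_iInter, Set.iSup_eq_iUnion, Set.mem_iInter, Set.mem_iUnion,
      not_forall, not_exists] at hx
    obtain ⟨n, hn⟩ := hx
    refine ⟨max n 3, fun q hq hcl hqP => ?_⟩
    refine hn q ((le_max_left _ _).trans hq) ?_
    rw [hA]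
    dsimp only
    rw [if_pos ⟨hqP, (le_max_right _ _).trans hq⟩]
    exact fun i _ => ⟨hxN i, hcl i⟩
  filter_upwards [ae_all_iff.2 key] with x hx
  obtain ⟨N, hN⟩ := exists_nat_ge (∑ i, |x i|)
  exact hx N fun i => (Finset.single_le_sum (fun j _ => abs_nonneg (x j)) (Finset.mem_univ i)).trans hN

/-- For all large `n`, all natural numbers `A` with `|A - w_n| ≤ r_n` are good. -/
def NearAll (Good : ℕ → Prop) (w r : ℕ → ℝ) : Prop :=
  ∃ n₀ : ℕ, ∀ n : ℕ, n₀ ≤ n → ∀ A : ℕ, |(A : ℝ) - w n| ≤ r n → Good A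

/-- Good near fast sequences: let `κ_n → ∞` with `∑ κ_n ^ (-u) < ∞`, `θ ≥ 0` and `u + θ < β`. For almost
all `t > 1` all natural numbers within `κ_n ^ θ` of `t ^ κ_n` are good, `n` large; for almost all `α > 0`
all natural numbers within `κ_n ^ θ` of `α exp(κ_n)` are good, `n` large. -/
def GoodAtFast (Good : ℕ → Prop) (β : ℝ) : Prop :=
  ∀ (κ : ℕ → ℝ) (θ u : ℝ), Tendsto κ atTop atTop → 0 ≤ θ → u + θ < β →
    Summable (fun n => κ n ^ (-u)) →
    (∀ᵐ t : ℝ, 1 < t → NearAll Good (fun n => t ^ κ n) (fun n => κ n ^ θ)) ∧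
    (∀ᵐ α : ℝ, 0 < α → NearAll Good (fun n => α * Real.exp (κ n)) (fun n => κ n ^ θ))

/-- Good denominators, logarithmic version: for all `y, θ, c ∈ ℝ ^ d` with `θ_i, c_i ≥ 0`,
`θ_1 + ... + θ_d = 1` and `c_1 + ... + c_d > 1 - β`, and almost all `x ∈ ℝ ^ d`, all large `q` such that
`q x_i` is within `q ^ (-θ_i) (log q) ^ (-c_i)` of `y_i` modulo `1` for all `i`, are good. -/
def GoodAtLogDenominators (Good : ℕ → Prop) (β : ℝ) : Prop :=
  ∀ (d : ℕ) (θ c y : Fin d → ℝ), (∀ i, 0 ≤ θ i) → (∀ i, 0 ≤ c i) → ∑ i, θ i = 1 →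
    1 - β < ∑ i, c i →
    ∀ᵐ x : Fin d → ℝ, ∃ q₀ : ℕ, ∀ q : ℕ, q₀ ≤ q →
      (∀ i, ∃ p : ℤ, |(q : ℝ) * x i - p - y i| ≤ (q : ℝ) ^ (-θ i) * (Real.log q) ^ (-c i)) → Good q

/-- **Theorem.** -/
theorem pack_log (Good : ℕ → Prop) {β : ℝ} (hβ : 0 < β)
    (hP : ∀ b : ℝ, 0 ≤ b → b < β → LogSparse {A | ¬ Good A} b) :
    GoodAtFast Good β ∧ GoodAtLogDenominators Good β := by
  have conv : ∀ (w r : ℕ → ℝ), (∃ n₀ : ℕ, ∀ n : ℕ, n₀ ≤ n → ∀ e ∈ {A | ¬ Good A},
      r n < |(e : ℝ) - w n|) → NearAll Good w r := by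
    rintro w r ⟨n₀, h⟩
    refine ⟨n₀, fun n hn A hA => ?_⟩
    by_contra hcon
    exact absurd hA (not_le.2 (h n hn A hcon))
  refine ⟨fun κ θ u hκ hθ hu hsum => ?_, fun d θ c y hθ hc hθs hcs => ?_⟩
  · have hb0 : 0 ≤ max (θ + u) 0 := le_max_right _ _
    have hb1 : max (θ + u) 0 < β := max_lt (by linarith) hβ
    have hb2 : θ - max (θ + u) 0 ≤ -u := by linarith [le_max_left (θ + u) 0]
    constructor
    · filter_upwards [ae_pow_log' hb0 (hP _ hb0 hb1) κ hκ hθ hb2 hsum] with t ht ht1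
      exact conv _ _ (ht ht1)
    · filter_upwards [ae_dil_log' hb0 (hP _ hb0 hb1) κ hκ hθ hb2 hsum] with t ht ht1
      exact conv _ _ (ht ht1)
  · obtain ⟨b, hb1, hb2⟩ := exists_between (show max (1 - ∑ i, c i) 0 < β from max_lt (by linarith) hβ)
    have hb0 : 0 ≤ b := (le_max_right _ _).trans hb1.le
    have hbc : 1 < b + ∑ i, c i := by linarith [le_max_left (1 - ∑ i, c i) 0]
    filter_upwards [ae_simultaneous_log hb0 (hP b hb0 hb2) d θ c y hθ hc hθs hbc] with x hx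
    obtain ⟨q₀, h⟩ := hx
    refine ⟨q₀, fun q hq hcl => ?_⟩
    by_contra hcon
    exact h q hq hcl hcon

end Pool.Agent.X283.DA
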